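import Pool.Agent.H988.WM.Mai

/-! # Correlation functions -/

set_option autoImplicit false
set_option linter.unusedSectionVars false

open MeasureTheory Filter Topology Set
open scoped ENNReal NNReal InnerProductSpace ComplexConjugate

namespace Pool.Agent.H988.WM

open Pool.Agent.TH980.IM Pool.Agent.H5R2
open Pool.Agent.Y662.ERG
open Pool.Agent.TH980.IM.PR
open Pool.Agent.R988.NQ

section pol

variable {X : Type} [NormedAddCommGroup X] [InnerProductSpace ℂ X] [CompleteSpace X]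
  {T : X →L[ℂ] X}

theorem norm_of_ngl' (hT : IsSelfAdjoint T) {B : X →L[ℂ] X} (hB : ∀ x, B (T x) = T (B x))
    {f : ℝ → ℂ} (hf : Measurable f) {R : ℝ} (hR : ∀ E, ‖f E‖ ≤ R) {u : X}
    (hu : spm hT u ≪ volume) (h : ∀ᵐ E : ℝ, Ngl T E (B u - f E • u)) :
    ‖B u‖ ^ 2 = ∫ E, ‖f E‖ ^ 2 ∂(spm hT u) := by
  have h4 := norm_of_ngl hT hB hf hu h
  have h5 : ∫⁻ E, ‖f E‖ₑ ^ 2 ∂(spm hT u) = ENNReal.ofReal (∫ E, ‖f E‖ ^ 2 ∂(spm hT u)) := by
    rw [ofReal_integral_eq_lintegral_ofReal]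
    · refine lintegral_congr fun E => ?_
      rw [← ofReal_norm, ← ENNReal.ofReal_pow (norm_nonneg _)]
    · refine Integrable.of_bound (hf.norm.pow_const 2).aestronglyMeasurable (R ^ 2)
        (ae_of_all _ fun E => ?_)
      rw [norm_pow, norm_norm]
      exact pow_le_pow_left₀ (norm_nonneg _) (hR E) 2
    · exact ae_of_all _ fun E => sq_nonneg _
  have h6 : ‖B u‖ₑ ^ 2 = ENNReal.ofReal (‖B u‖ ^ 2) := by
    rw [← ofReal_norm, ENNReal.ofReal_pow (norm_nonneg _)]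
  rw [h6, h5] at h4
  exact (ENNReal.ofReal_eq_ofReal_iff (by positivity)
    (integral_nonneg fun E => sq_nonneg _)).1 h4

theorem pol (hT : IsSelfAdjoint T) {B B' : X →L[ℂ] X} (hB : ∀ x, B (T x) = T (B x))
    (hB' : ∀ x, B' (T x) = T (B' x)) {f f' : ℝ → ℂ} (hf : Measurable f) (hf' : Measurable f')
    {R R' : ℝ} (hR : ∀ E, ‖f E‖ ≤ R) (hR' : ∀ E, ‖f' E‖ ≤ R') {u : X}
    (hu : spm hT u ≪ volume) (h : ∀ᵐ E : ℝ, Ngl T E (B u - f E • u))
    (h' : ∀ᵐ E : ℝ, Ngl T E (B' u - f' E • u)) :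
    ⟪B' u, B u⟫_ℂ = ∫ E, conj (f' E) * f E ∂(spm hT u) := by
  have key : ∀ z : ℂ, ‖B' u + z • B u‖ ^ 2 = ∫ E, ‖f' E + z * f E‖ ^ 2 ∂(spm hT u) := by
    intro z
    have h1 := norm_of_ngl' hT (B := B' + z • B) (fun x => by
      show B' (T x) + z • B (T x) = T (B' x + z • B x)
      rw [hB, hB', map_add, map_smul]) (f := fun E => f' E + z * f E)
      (hf'.add (hf.const_mul z)) (R := R' + ‖z‖ * R) (fun E => by
        refine (norm_add_le _ _).trans (add_le_add (hR' E) ?_)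
        rw [norm_mul]
        exact mul_le_mul_of_nonneg_left (hR E) (norm_nonneg _)) hu (by
        filter_upwards [h, h'] with E e1 e2
        have e3 := e2.add (e1.smul z)
        have e4 : (B' + z • B) u - (f' E + z * f E) • u =
            (B' u - f' E • u) + z • (B u - f E • u) := by
          show (B' u + z • B u) - (f' E + z * f E) • u = _
          module
        rw [e4]
        exact e3)
    exact h1
  have hint : ∀ z : ℂ, Integrable (fun E => ((‖f' E + z * f E‖ ^ 2 : ℝ) : ℂ)) (spm hT u) := by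
    intro z
    refine Integrable.of_bound (C := (R' + ‖z‖ * R) ^ 2) ?_ (ae_of_all _ fun E => ?_)
    · exact (Complex.measurable_ofReal.comp
        ((hf'.add (hf.const_mul z)).norm.pow_const 2)).aestronglyMeasurable
    · rw [Complex.norm_real, norm_pow, norm_norm]
      refine pow_le_pow_left₀ (norm_nonneg _) ?_ 2
      refine (norm_add_le _ _).trans (add_le_add (hR' E) ?_)
      rw [norm_mul]
      exact mul_le_mul_of_nonneg_left (hR E) (norm_nonneg _)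
  have keyc : ∀ z : ℂ, ((‖B' u + z • B u‖ ^ 2 : ℝ) : ℂ) =
      ∫ E, ((‖f' E + z * f E‖ ^ 2 : ℝ) : ℂ) ∂(spm hT u) := by
    intro z
    rw [key z, integral_complex_ofReal]
  have e1 : ⟪B' u, B u⟫_ℂ = (((‖B' u + (1 : ℂ) • B u‖ ^ 2 : ℝ) : ℂ) -
      ((‖B' u + (-1 : ℂ) • B u‖ ^ 2 : ℝ) : ℂ) +
      (((‖B' u + (-Complex.I) • B u‖ ^ 2 : ℝ) : ℂ) -
      ((‖B' u + Complex.I • B u‖ ^ 2 : ℝ) : ℂ)) * Complex.I) / 4 := by
    rw [inner_eq_sum_norm_sq_div_four (𝕜 := ℂ)]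
    have a1 : B' u + (1 : ℂ) • B u = B' u + B u := by rw [one_smul]
    have a2 : B' u + (-1 : ℂ) • B u = B' u - B u := by module
    have a3 : B' u + (-Complex.I) • B u = B' u - Complex.I • B u := by module
    rw [a1, a2, a3]
    push_cast
    rfl
  have e2 : ∀ E, conj (f' E) * f E = (((‖f' E + (1 : ℂ) * f E‖ ^ 2 : ℝ) : ℂ) -
      ((‖f' E + (-1 : ℂ) * f E‖ ^ 2 : ℝ) : ℂ) +
      (((‖f' E + (-Complex.I) * f E‖ ^ 2 : ℝ) : ℂ) -
      ((‖f' E + Complex.I * f E‖ ^ 2 : ℝ) : ℂ)) * Complex.I) / 4 := by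
    intro E
    have a0 : conj (f' E) * f E = ⟪f' E, f E⟫_ℂ := by
      rw [RCLike.inner_apply']
    rw [a0, inner_eq_sum_norm_sq_div_four (𝕜 := ℂ)]
    have a1 : f' E + (1 : ℂ) * f E = f' E + f E := by rw [one_mul]
    have a2 : f' E + (-1 : ℂ) * f E = f' E - f E := by ring
    have a3 : f' E + (-Complex.I) * f E = f' E - Complex.I • f E := by
      rw [smul_eq_mul]
      ring
    have a4 : f' E + Complex.I * f E = f' E + Complex.I • f E := by rw [smul_eq_mul]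
    rw [a1, a2, a3, a4]
    push_cast
    rfl
  have i1 : Integrable (fun E => ((‖f' E + (1 : ℂ) * f E‖ ^ 2 : ℝ) : ℂ) -
      ((‖f' E + (-1 : ℂ) * f E‖ ^ 2 : ℝ) : ℂ)) (spm hT u) := (hint 1).sub (hint (-1))
  have i2 : Integrable (fun E => (((‖f' E + (-Complex.I) * f E‖ ^ 2 : ℝ) : ℂ) -
      ((‖f' E + Complex.I * f E‖ ^ 2 : ℝ) : ℂ)) * Complex.I) (spm hT u) :=
    ((hint (-Complex.I)).sub (hint Complex.I)).mul_const Complex.I
  rw [e1, keyc, keyc, keyc, keyc]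
  simp only [e2]
  rw [integral_div, integral_add i1 i2,
    integral_sub (hint 1) (hint (-1)), integral_mul_const,
    integral_sub (hint (-Complex.I)) (hint Complex.I)]

end pol

section cor

variable {d : ℕ} {ev : (NB.Site d → ℝ) → NB.UG (L2 d)}

/-- the conserved parts carry the correlations -/
theorem cor_zero {K : ℝ} {ν : Measure ℝ} [IsProbabilityMeasure ν]
    (hK : ∀ᵐ r ∂ν, |r| ≤ K)
    (hev : ∀ ω : NB.Site d → ℝ, NB.IsGrp (-1) (fun x => 2 * d + ω x) (ev ω))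
    {A B : OF d} {M C : ℝ} (hA : Fld M A) (hA' : Fld M (adjF A))
    (hB : Fld C B) (hB' : Fld C (adjF B))
    (cB : ∀ V t x, B V ((ev V).U t x) = (ev V).U t (B V x))
    {P : OF d} (hP : Fld 1 P) (sP : Sym P) (eP : ∀ᵐ ω ∂(NB.PP d ν), P ω = PA K ω)
    (hw : Wk (NB.PP d ν) (Hz ev A) fun ω => P ω (NB.dl 0)) :
    ∫ ω, ⟪A ω (P ω (NB.dl 0)), B ω (P ω (NB.dl 0))⟫_ℂ ∂(NB.PP d ν) = 0 := by
  have hPm : StronglyMeasurable fun ω => P ω (NB.dl 0) := hP.sm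
  have hZ : MemLp (fun ω => B ω (P ω (NB.dl 0))) 2 (NB.PP d ν) := by
    refine MemLp.of_bound (hB.meas _ hPm).aestronglyMeasurable (C * 1)
      (Eventually.of_forall fun ω => ?_)
    refine (hB.bd ω _).trans (mul_le_mul_of_nonneg_left ?_ hB.nonneg)
    have := hP.bd ω (NB.dl 0)
    rwa [NB.STAT.norm_dl, mul_one] at this
  have h1 := hw _ hZ
  set c : ℂ := ∫ ω, ⟪B ω (P ω (NB.dl 0)), A ω (P ω (NB.dl 0))⟫_ℂ ∂(NB.PP d ν) with hc
  have h2 : ∀ s : ℝ, ∫ ω, ⟪B ω (P ω (NB.dl 0)), Hz ev A s ω (P ω (NB.dl 0))⟫_ℂ ∂(NB.PP d ν)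
      = c := by
    intro s
    have hx := hB.mul hB.nonneg hP
    have hx' := hP.mul zero_le_one hB'
    have hy := hA.mul hA.nonneg hP
    have hy' := hP.mul zero_le_one hA'
    have aB : Adj B (adjF B) := fun V f g => (adjF_right _ V f g).symm
    have aA : Adj A (adjF A) := fun V f g => (adjF_right _ V f g).symm
    have h3 := flow_inner (ν := ν) hev (by simpa using hB.nonneg) (by simpa using hA.nonneg)
      hx hx' hy hy' (Adj.mul aB sP.adj) (Adj.mul aA sP.adj) s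
    rw [hc]
    refine Eq.trans ?_ h3
    refine integral_congr_ae ?_
    filter_upwards [eP, bd_ae (d := d) hK] with V e1 e2
    have e3 : P V ((ev V).U s (NB.dl 0)) = (ev V).U s (P V (NB.dl 0)) := by
      rw [e1, grp_Ex e2 (hev V), grp_Ex e2 (hev V)]
      exact PA_Ex K V s _
    show ⟪B V (P V (NB.dl 0)), (ev V).U (-s) (A V ((ev V).U s (P V (NB.dl 0))))⟫_ℂ =
      ⟪B V (P V ((ev V).U s (NB.dl 0))), A V (P V ((ev V).U s (NB.dl 0)))⟫_ℂ
    rw [e3, cB, NB.NN.inner_adj]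
  simp only [h2] at h1
  have h4 : Tendsto (fun _T : ℝ => ‖c‖ ^ 2) atTop (𝓝 0) := by
    refine h1.congr' ?_
    filter_upwards [eventually_gt_atTop 0] with T hT
    rw [intervalIntegral.integral_const, sub_zero, smul_eq_mul]
    field_simp
  have h5 := tendsto_nhds_unique tendsto_const_nhds h4
  have h6 : c = 0 := by
    rwa [sq_eq_zero_iff, norm_eq_zero] at h5
  have h7 : ∫ ω, ⟪A ω (P ω (NB.dl 0)), B ω (P ω (NB.dl 0))⟫_ℂ ∂(NB.PP d ν) = conj c := by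
    rw [hc, ← integral_conj]
    refine integral_congr_ae (Eventually.of_forall fun ω => ?_)
    show _ = conj _
    rw [inner_conj_symm]
  rw [h7, h6, map_zero]

/-- conserved fields do not move -/
theorem Hz_cons {B : OF d} (cB : ∀ V t x, B V ((ev V).U t x) = (ev V).U t (B V x)) (s : ℝ)
    (ω : NB.Site d → ℝ) (x : L2 d) : Hz ev B s ω x = B ω x := by
  rw [Hz_apply, cB, ← (ev ω).add', neg_add_cancel, (ev ω).zero']

theorem Hz_sub (A B : OF d) (s : ℝ) (ω : NB.Site d → ℝ) (x : L2 d) :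
    Hz ev (subF A B) s ω x = Hz ev A s ω x - Hz ev B s ω x := by
  rw [Hz_apply, Hz_apply, Hz_apply]
  show (ev ω).U (-s) (A ω ((ev ω).U s x) - B ω ((ev ω).U s x)) = _
  rw [map_sub]

theorem cor_B {K : ℝ} {ν : Measure ℝ} [IsProbabilityMeasure ν]
    (hK : ∀ᵐ r ∂ν, |r| ≤ K)
    (hev : ∀ ω : NB.Site d → ℝ, NB.IsGrp (-1) (fun x => 2 * d + ω x) (ev ω))
    {κ : Measure ℝ} (hκ : ∀ g : ℝ → ℂ, Measurable g → (∃ C : ℝ, ∀ E, ‖g E‖ ≤ C) →
      ∫ ω, (∫ E, g E ∂(spm (HV_sa K ω) (PA K ω (NB.dl 0 : L2 d)))) ∂(NB.PP d ν) = ∫ E, g E ∂κ)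
    {A' B' B : OF d} {M' C' C : ℝ} (hA : Fld M' A') (hA' : Fld M' (adjF A'))
    (hB1 : Fld C' B') (hB1' : Fld C' (adjF B'))
    (hB : Fld C B) (hB' : Fld C (adjF B))
    (cB : ∀ V t x, B V ((ev V).U t x) = (ev V).U t (B V x))
    {f' f : ℝ → ℂ} (hf' : Measurable f') (hf : Measurable f)
    (hR' : ∃ R : ℝ, ∀ E, ‖f' E‖ ≤ R) (hR : ∃ R : ℝ, ∀ E, ‖f E‖ ≤ R)
    (h1 : ∀ᵐ ω ∂(NB.PP d ν), (∀ x, |ω x| ≤ K) ∧ (∀ x, B' ω (HV K ω x) = HV K ω (B' ω x)) ∧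
      (∀ ψ, ∀ᵐ E : ℝ, Ngl (HV K ω) E (B' ω ψ - f' E • ψ)))
    (h2 : ∀ᵐ ω ∂(NB.PP d ν), (∀ x, |ω x| ≤ K) ∧ (∀ x, B ω (HV K ω x) = HV K ω (B ω x)) ∧
      (∀ ψ, ∀ᵐ E : ℝ, Ngl (HV K ω) E (B ω ψ - f E • ψ)))
    (hw : Wk (NB.PP d ν) (Hz ev (subF A' B')) fun ω => PA K ω (NB.dl 0)) :
    ∫ ω, ⟪A' ω (PA K ω (NB.dl 0)), B ω (PA K ω (NB.dl 0))⟫_ℂ ∂(NB.PP d ν) =
      ∫ E, conj (f' E) * f E ∂κ := by
  obtain ⟨P, hP, sP, eP⟩ := exists_Pf (d := d) K ν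
  obtain ⟨R', hR'⟩ := hR'
  obtain ⟨R, hR⟩ := hR
  have hadj : adjF (subF A' B') = subF (adjF A') (adjF B') := by
    funext V
    show ContinuousLinearMap.adjoint (A' V - B' V) =
      ContinuousLinearMap.adjoint (A' V) - ContinuousLinearMap.adjoint (B' V)
    exact map_sub _ _ _
  have hD' : Fld (M' + C') (adjF (subF A' B')) := by
    rw [hadj]
    exact hA'.sub hB1'
  have hw' : Wk (NB.PP d ν) (Hz ev (subF A' B')) fun ω => P ω (NB.dl 0) := by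
    refine hw.congr ?_
    filter_upwards [eP] with ω hω
    rw [hω]
  have h3 := cor_zero hK hev (hA.sub hB1) hD' hB hB' cB hP sP eP hw'
  have hPm : StronglyMeasurable fun ω => P ω (NB.dl 0) := hP.sm
  have hmem : ∀ {D : OF d} {R : ℝ}, Fld R D →
      MemLp (fun ω => D ω (P ω (NB.dl 0))) 2 (NB.PP d ν) := by
    intro D R hD
    refine MemLp.of_bound (hD.meas _ hPm).aestronglyMeasurable (R * 1)
      (Eventually.of_forall fun ω => ?_)
    refine (hD.bd ω _).trans (mul_le_mul_of_nonneg_left ?_ hD.nonneg)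
    have := hP.bd ω (NB.dl 0)
    rwa [NB.STAT.norm_dl, mul_one] at this
  have i1 : Integrable (fun ω => ⟪A' ω (P ω (NB.dl 0)), B ω (P ω (NB.dl 0))⟫_ℂ) (NB.PP d ν) := by
    refine Integrable.mono' (int_bd (hmem hA) (hmem hB)) ((hmem hA).1.inner (hmem hB).1)
      (Eventually.of_forall fun ω => norm_inner_le_norm _ _)
  have i2 : Integrable (fun ω => ⟪B' ω (P ω (NB.dl 0)), B ω (P ω (NB.dl 0))⟫_ℂ) (NB.PP d ν) := by
    refine Integrable.mono' (int_bd (hmem hB1) (hmem hB)) ((hmem hB1).1.inner (hmem hB).1)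
      (Eventually.of_forall fun ω => norm_inner_le_norm _ _)
  have h4 : ∫ ω, ⟪A' ω (P ω (NB.dl 0)), B ω (P ω (NB.dl 0))⟫_ℂ ∂(NB.PP d ν) =
      ∫ ω, ⟪B' ω (P ω (NB.dl 0)), B ω (P ω (NB.dl 0))⟫_ℂ ∂(NB.PP d ν) := by
    rw [← sub_eq_zero, ← integral_sub i1 i2, ← h3]
    refine integral_congr_ae (Eventually.of_forall fun ω => ?_)
    show _ = ⟪A' ω (P ω (NB.dl 0)) - B' ω (P ω (NB.dl 0)), B ω (P ω (NB.dl 0))⟫_ℂ
    rw [inner_sub_left]
  have h5 : ∫ ω, ⟪A' ω (PA K ω (NB.dl 0)), B ω (PA K ω (NB.dl 0))⟫_ℂ ∂(NB.PP d ν) =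
      ∫ ω, ⟪A' ω (P ω (NB.dl 0)), B ω (P ω (NB.dl 0))⟫_ℂ ∂(NB.PP d ν) := by
    refine integral_congr_ae ?_
    filter_upwards [eP] with ω hω
    rw [hω]
  rw [h5, h4, ← hκ (fun E => conj (f' E) * f E)
    ((Complex.continuous_conj.measurable.comp hf').mul hf) ⟨R' * R, fun E => by
      rw [norm_mul, RCLike.norm_conj]
      exact mul_le_mul (hR' E) (hR E) (norm_nonneg _) ((norm_nonneg _).trans (hR' E))⟩]
  refine integral_congr_ae ?_
  filter_upwards [eP, h1, h2] with ω e0 ⟨_, e2, e3⟩ ⟨_, e5, e6⟩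
  rw [e0]
  exact pol (HV_sa K ω) e5 e2 hf hf' hR hR' (acP_ac _ _) (e6 _) (e3 _)

/-- the microcanonical average -/
theorem mic_gen {K : ℝ} {ν : Measure ℝ} [IsProbabilityMeasure ν]
    (hK : ∀ᵐ r ∂ν, |r| ≤ K)
    (hev : ∀ ω : NB.Site d → ℝ, NB.IsGrp (-1) (fun x => 2 * d + ω x) (ev ω))
    {κ : Measure ℝ} (hκ : ∀ g : ℝ → ℂ, Measurable g → (∃ C : ℝ, ∀ E, ‖g E‖ ≤ C) →
      ∫ ω, (∫ E, g E ∂(spm (HV_sa K ω) (PA K ω (NB.dl 0 : L2 d)))) ∂(NB.PP d ν) = ∫ E, g E ∂κ)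
    {A B : OF d} {M C : ℝ} (hA : Fld M A) (hA' : Fld M (adjF A))
    (hB : Fld C B) (hB' : Fld C (adjF B))
    {f : ℝ → ℂ} (hf : Measurable f) (hR : ∃ R : ℝ, ∀ E, ‖f E‖ ≤ R)
    (h2 : ∀ᵐ ω ∂(NB.PP d ν), (∀ x, |ω x| ≤ K) ∧ ∀ ψ, spm (HV_sa K ω) ψ ≪ volume →
      ∀ t : ℝ, ⟪Ex (HV K ω) t ψ, B ω ψ⟫_ℂ =
        ∫ E : ℝ, Complex.exp (Complex.I * t * E) * f E ∂(spm (HV_sa K ω) ψ))
    (hw : Wk (NB.PP d ν) (Hz ev (subF A B)) fun ω => PA K ω (NB.dl 0)) (t : ℝ) :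
    ∫ ω, ⟪(ev ω).U t (PA K ω (NB.dl 0)), A ω (PA K ω (NB.dl 0))⟫_ℂ ∂(NB.PP d ν) =
      ∫ E : ℝ, Complex.exp (Complex.I * t * E) * f E ∂κ := by
  obtain ⟨P, hP, sP, eP⟩ := exists_Pf (d := d) K ν
  obtain ⟨R, hR⟩ := hR
  have hadj : adjF (subF A B) = subF (adjF A) (adjF B) := by
    funext V
    show ContinuousLinearMap.adjoint (A V - B V) =
      ContinuousLinearMap.adjoint (A V) - ContinuousLinearMap.adjoint (B V)
    exact map_sub _ _ _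
  have hD' : Fld (M + C) (adjF (subF A B)) := by
    rw [hadj]
    exact hA'.sub hB'
  have hw' : Wk (NB.PP d ν) (Hz ev (subF A B)) fun ω => P ω (NB.dl 0) := by
    refine hw.congr ?_
    filter_upwards [eP] with ω hω
    rw [hω]
  have hUf : adjF (Uf ev t) = Uf ev (-t) := by
    funext V
    ext1 y
    refine ext_inner_left ℂ fun x => ?_
    rw [adjF_right]
    exact NB.NN.inner_adj (ev V) t x y
  have hUa : Fld 1 (adjF (Uf ev t)) := by
    rw [hUf]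
    exact fld_Uo hev (-t)
  have cU : ∀ (V : NB.Site d → ℝ) (s : ℝ) (x : L2 d),
      Uf ev t V ((ev V).U s x) = (ev V).U s (Uf ev t V x) := by
    intro V s x
    show (ev V).U t ((ev V).U s x) = (ev V).U s ((ev V).U t x)
    rw [← (ev V).add', ← (ev V).add', add_comm]
  have h3 := cor_zero hK hev (hA.sub hB) hD' (fld_Uo hev t) hUa cU hP sP eP hw'
  have hPm : StronglyMeasurable fun ω => P ω (NB.dl 0) := hP.sm
  have hmem : ∀ {D : OF d} {R : ℝ}, Fld R D →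
      MemLp (fun ω => D ω (P ω (NB.dl 0))) 2 (NB.PP d ν) := by
    intro D R hD
    refine MemLp.of_bound (hD.meas _ hPm).aestronglyMeasurable (R * 1)
      (Eventually.of_forall fun ω => ?_)
    refine (hD.bd ω _).trans (mul_le_mul_of_nonneg_left ?_ hD.nonneg)
    have := hP.bd ω (NB.dl 0)
    rwa [NB.STAT.norm_dl, mul_one] at this
  have hint : ∀ {D : OF d} {R : ℝ}, Fld R D →
      Integrable (fun ω => ⟪Uf ev t ω (P ω (NB.dl 0)), D ω (P ω (NB.dl 0))⟫_ℂ) (NB.PP d ν) := by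
    intro D R hD
    exact Integrable.mono' (int_bd (hmem (fld_Uo hev t)) (hmem hD))
      ((hmem (fld_Uo hev t)).1.inner (hmem hD).1)
      (Eventually.of_forall fun ω => norm_inner_le_norm _ _)
  have h4 : ∫ ω, ⟪Uf ev t ω (P ω (NB.dl 0)), A ω (P ω (NB.dl 0))⟫_ℂ ∂(NB.PP d ν) =
      ∫ ω, ⟪Uf ev t ω (P ω (NB.dl 0)), B ω (P ω (NB.dl 0))⟫_ℂ ∂(NB.PP d ν) := by
    rw [← sub_eq_zero, ← integral_sub (hint hA) (hint hB)]
    have h5 : ∫ ω, (⟪Uf ev t ω (P ω (NB.dl 0)), A ω (P ω (NB.dl 0))⟫_ℂ -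
        ⟪Uf ev t ω (P ω (NB.dl 0)), B ω (P ω (NB.dl 0))⟫_ℂ) ∂(NB.PP d ν) =
        conj (∫ ω, ⟪subF A B ω (P ω (NB.dl 0)), Uf ev t ω (P ω (NB.dl 0))⟫_ℂ ∂(NB.PP d ν)) := by
      rw [← integral_conj]
      refine integral_congr_ae (Eventually.of_forall fun ω => ?_)
      show _ = conj ⟪A ω (P ω (NB.dl 0)) - B ω (P ω (NB.dl 0)), Uf ev t ω (P ω (NB.dl 0))⟫_ℂ
      rw [inner_conj_symm, inner_sub_right]
    rw [h5, h3, map_zero]
  rw [← hκ (fun E => Complex.exp (Complex.I * t * E) * f E) (by fun_prop) ⟨R, fun E => by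
    rw [norm_mul, Complex.norm_exp]
    have : (Complex.I * t * E).re = 0 := by simp
    rw [this, Real.exp_zero, one_mul]
    exact hR E⟩]
  have h6 : ∫ ω, ⟪(ev ω).U t (PA K ω (NB.dl 0)), A ω (PA K ω (NB.dl 0))⟫_ℂ ∂(NB.PP d ν) =
      ∫ ω, ⟪Uf ev t ω (P ω (NB.dl 0)), A ω (P ω (NB.dl 0))⟫_ℂ ∂(NB.PP d ν) := by
    refine integral_congr_ae ?_
    filter_upwards [eP] with ω hω
    rw [hω]
    rfl
  rw [h6, h4]
  refine integral_congr_ae ?_
  filter_upwards [eP, h2] with ω e0 ⟨e1, e2⟩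
  have e3 := e2 (PA K ω (NB.dl 0)) (acP_ac _ _) t
  rw [e0, ← e3, ← grp_Ex e1 (hev ω)]
  rfl

end cor

end Pool.Agent.H988.WM
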