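import Pool.Graph.R_pool_sql_team_seeded_b0a926ef.R988.NQ.GM

/-! # Time averages with an oscillating phase, and rank one families -/

set_option autoImplicit false

open MeasureTheory Filter Topology
open scoped BigOperators ENNReal NNReal InnerProductSpace ComplexConjugate

namespace Pool.Agent.H988.WM

open Pool.Agent.H5R2.NB Pool.Agent.H5R2.NBA

/-- the phase `e^{-iμs}` -/
noncomputable def ph (μ s : ℝ) : ℂ := Complex.exp (-(Complex.I * μ * s))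

theorem ph_norm (μ s : ℝ) : ‖ph μ s‖ = 1 := by
  unfold ph
  rw [Complex.norm_exp]
  simp

theorem ph_ne (μ s : ℝ) : ph μ s ≠ 0 := Complex.exp_ne_zero _

theorem ph_cont (μ : ℝ) : Continuous fun s : ℝ => ph μ s := by
  unfold ph
  fun_prop

theorem ph_add (μ s t : ℝ) : ph μ (s + t) = ph μ s * ph μ t := by
  unfold ph
  rw [← Complex.exp_add]
  congr 1
  push_cast
  ring

theorem ph_zero (μ : ℝ) : ph μ 0 = 1 := by
  unfold ph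
  simp

theorem ph_conj (μ s : ℝ) : conj (ph μ s) = ph μ (-s) := by
  unfold ph
  rw [← Complex.exp_conj]
  congr 1
  simp

theorem ph_mul_neg (μ s : ℝ) : ph μ s * ph μ (-s) = 1 := by
  rw [← ph_add, add_neg_cancel, ph_zero]

theorem ph_neg_mu (μ s : ℝ) : ph (-μ) s = ph μ (-s) := by
  unfold ph
  congr 1
  push_cast
  ring

section gen

variable {X : Type} [NormedAddCommGroup X] [InnerProductSpace ℂ X]

/-- the observable at time `s` with a phase -/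
noncomputable def g (μ : ℝ) (W : UG X) (v : X →L[ℂ] X) (x : X) (s : ℝ) : X :=
  ph μ s • W.U (-s) (v (W.U s x))

theorem g_cont (μ : ℝ) (W : UG X) (v : X →L[ℂ] X) (x : X) : Continuous (g μ W v x) :=
  (ph_cont μ).smul (BP.g_cont W v x)

theorem g_norm (μ : ℝ) (W : UG X) (v : X →L[ℂ] X) (x : X) (s : ℝ) :
    ‖g μ W v x s‖ ≤ ‖v‖ * ‖x‖ := by
  unfold g
  rw [norm_smul, ph_norm, one_mul]
  exact BP.g_norm W v x s

theorem g_shift (μ : ℝ) (W : UG X) (v : X →L[ℂ] X) (x : X) (t s : ℝ) :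
    g μ W v (W.U t x) s = ph μ (-t) • W.U t (g μ W v x (s + t)) := by
  unfold g
  rw [map_smul, smul_smul, ← W.add', ← W.add', ph_add, mul_comm (ph μ s), ← mul_assoc,
    mul_comm (ph μ (-t)), ph_mul_neg, one_mul]
  congr 3
  ring

/-- time average of the observable with a phase; `σ = id` or `σ = -id` -/
noncomputable def av (μ : ℝ) (σ : ℝ → ℝ) (W : UG X) (v : X →L[ℂ] X) (N : ℕ) (x : X) : X :=
  ((N : ℂ)⁻¹) • ∫ s in (0 : ℝ)..(N : ℝ), g μ W v x (σ s)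

/-- both time averages of `v` with the phase converge strongly to `B` along the sequence `Nk` -/
def GoodT (μ : ℝ) (W : UG X) (v : X →L[ℂ] X) (Nk : ℕ → ℕ) (B : X →L[ℂ] X) : Prop :=
  ∀ x, Tendsto (fun k => av μ id W v (Nk k) x) atTop (𝓝 (B x)) ∧
    Tendsto (fun k => av μ (fun s => -s) W v (Nk k) x) atTop (𝓝 (B x))

theorem av_norm (μ : ℝ) (σ : ℝ → ℝ) (W : UG X) (v : X →L[ℂ] X) (N : ℕ) (x : X) :
    ‖av μ σ W v N x‖ ≤ ‖v‖ * ‖x‖ :=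
  LIMB.norm_avg _ _ (fun s => g_norm μ W v x (σ s)) N

theorem int_norm (μ : ℝ) (W : UG X) (v : X →L[ℂ] X) (x : X) (a b : ℝ) :
    ‖∫ s in a..b, g μ W v x s‖ ≤ ‖v‖ * ‖x‖ * |b - a| :=
  intervalIntegral.norm_integral_le_of_norm_le_const fun s _ => g_norm μ W v x s

theorem av_shift [CompleteSpace X] (μ : ℝ) (W : UG X) (v : X →L[ℂ] X) (N : ℕ) (x : X) (t : ℝ) :
    ‖av μ id W v N (W.U t x) - ph μ (-t) • W.U t (av μ id W v N x)‖ ≤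
      (N : ℝ)⁻¹ * (2 * (‖v‖ * ‖x‖ * |t|)) := by
  have hi : ∀ a b : ℝ, IntervalIntegrable (g μ W v x) volume a b :=
    fun a b => (g_cont μ W v x).intervalIntegrable a b
  have h1 : av μ id W v N (W.U t x) = ((N : ℂ)⁻¹) •
      (ph μ (-t) • W.U t (∫ s in t..(N : ℝ) + t, g μ W v x s)) := by
    unfold av
    congr 1
    have e1 : ∫ s in (0 : ℝ)..(N : ℝ), g μ W v (W.U t x) (id s) =
        ∫ s in (0 : ℝ)..(N : ℝ), ph μ (-t) • W.U t (g μ W v x (s + t)) :=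
      intervalIntegral.integral_congr fun s _ => g_shift μ W v x t s
    rw [e1, intervalIntegral.integral_smul]
    congr 1
    rw [intervalIntegral.integral_comp_add_right (fun s => W.U t (g μ W v x s)) t, zero_add,
      ContinuousLinearMap.intervalIntegral_comp_comm _ (hi _ _)]
  have h2 : ph μ (-t) • W.U t (av μ id W v N x) =
      ((N : ℂ)⁻¹) • (ph μ (-t) • W.U t (∫ s in (0 : ℝ)..(N : ℝ), g μ W v x s)) := by
    unfold av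
    rw [map_smul, smul_comm]
    rfl
  rw [h1, h2, ← smul_sub, ← smul_sub, ← map_sub, norm_smul, norm_smul, ph_norm, one_mul, norm_inv,
    Complex.norm_natCast, W.norm']
  refine mul_le_mul_of_nonneg_left ?_ (by positivity)
  have h3 : ∫ s in t..(N : ℝ) + t, g μ W v x s = (∫ s in t..(0 : ℝ), g μ W v x s) +
      (∫ s in (0 : ℝ)..(N : ℝ), g μ W v x s) + ∫ s in (N : ℝ)..(N : ℝ) + t, g μ W v x s := by
    rw [intervalIntegral.integral_add_adjacent_intervals (hi _ _) (hi _ _),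
      intervalIntegral.integral_add_adjacent_intervals (hi _ _) (hi _ _)]
  have h4 : (∫ s in t..(N : ℝ) + t, g μ W v x s) - ∫ s in (0 : ℝ)..(N : ℝ), g μ W v x s =
      (∫ s in t..(0 : ℝ), g μ W v x s) + ∫ s in (N : ℝ)..(N : ℝ) + t, g μ W v x s := by
    rw [h3]; abel
  rw [h4]
  have h5 := int_norm μ W v x t 0
  have h6 := int_norm μ W v x (N : ℝ) ((N : ℝ) + t)
  rw [zero_sub, abs_neg] at h5
  rw [add_sub_cancel_left] at h6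
  refine (norm_add_le _ _).trans ?_
  linarith

theorem good_norm {μ : ℝ} {W : UG X} {v : X →L[ℂ] X} {Nk : ℕ → ℕ} {B : X →L[ℂ] X}
    (hB : GoodT μ W v Nk B) (x : X) : ‖B x‖ ≤ ‖v‖ * ‖x‖ :=
  le_of_tendsto (hB x).1.norm (Eventually.of_forall fun k => av_norm μ id W v (Nk k) x)

theorem good_comm [CompleteSpace X] {μ : ℝ} {W : UG X} {v : X →L[ℂ] X} {Nk : ℕ → ℕ}
    (hNk : Tendsto Nk atTop atTop) {B : X →L[ℂ] X}
    (hB : GoodT μ W v Nk B) (t : ℝ) (x : X) : B (W.U t x) = ph μ (-t) • W.U t (B x) := by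
  have h1 := (hB (W.U t x)).1
  have h2 : Tendsto (fun k => ph μ (-t) • W.U t (av μ id W v (Nk k) x)) atTop
      (𝓝 (ph μ (-t) • W.U t (B x))) :=
    (((W.U t).continuous.tendsto _).comp (hB x).1).const_smul _
  have h3 : Tendsto (fun k => av μ id W v (Nk k) (W.U t x) -
      ph μ (-t) • W.U t (av μ id W v (Nk k) x)) atTop (𝓝 0) := by
    refine squeeze_zero_norm (fun k => av_shift μ W v (Nk k) x t) ?_
    have h4 : Tendsto (fun k => ((Nk k : ℕ) : ℝ)⁻¹) atTop (𝓝 0) :=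
      tendsto_inv_atTop_zero.comp (tendsto_natCast_atTop_atTop.comp hNk)
    simpa using h4.mul_const (2 * (‖v‖ * ‖x‖ * |t|))
  have h5 := tendsto_nhds_unique h3 (h1.sub h2)
  exact (sub_eq_zero.1 h5.symm)

theorem inner_av [CompleteSpace X] (μ : ℝ) (W : UG X) (v : X →L[ℂ] X) (x y : X) (σ : ℝ → ℝ)
    (hσ : Continuous σ) (N : ℕ) :
    ⟪x, ((N : ℂ)⁻¹) • ∫ s in (0 : ℝ)..(N : ℝ), g μ W v y (σ s)⟫_ℂ =
      ((N : ℂ)⁻¹) * ∫ s in (0 : ℝ)..(N : ℝ), ph μ (σ s) * W3.m W v x y (σ s) := by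
  rw [inner_smul_right]
  congr 1
  have hc : Continuous fun s => g μ W v y (σ s) := (g_cont μ W v y).comp hσ
  have h1 := (innerSL ℂ x).intervalIntegral_comp_comm (hc.intervalIntegrable (μ := volume) 0 N)
  refine Eq.trans h1.symm ?_
  refine intervalIntegral.integral_congr fun s _ => ?_
  show ⟪x, ph μ (σ s) • W.U (-σ s) (v (W.U (σ s) y))⟫_ℂ =
    ph μ (σ s) * ⟪W.U (σ s) x, v (W.U (σ s) y)⟫_ℂ
  rw [inner_smul_right, NN.inner_adj]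

theorem core [CompleteSpace X] (μ : ℝ) (W W' : UG X) (v : X →L[ℂ] X) (Nk : ℕ → ℕ)
    (hN : Tendsto Nk atTop atTop) (l : Filter ℝ) (σ : ℝ → ℝ) (hσ : Continuous σ)
    (hl : Tendsto σ atTop l) (φ φp ψ ψp b b' : X)
    (hφ : Tendsto (fun t : ℝ => W'.U (-t) (W.U t φ)) l (𝓝 φp))
    (hψ : Tendsto (fun t : ℝ => W'.U (-t) (W.U t ψ)) l (𝓝 ψp))
    (hb : Tendsto (fun k => ((Nk k : ℂ)⁻¹) •
      ∫ s in (0 : ℝ)..(Nk k : ℝ), g μ W v ψ (σ s)) atTop (𝓝 b))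
    (hb' : Tendsto (fun k => ((Nk k : ℂ)⁻¹) •
      ∫ s in (0 : ℝ)..(Nk k : ℝ), g μ W' v ψp (σ s)) atTop (𝓝 b')) :
    ⟪φp, b'⟫_ℂ = ⟪φ, b⟫_ℂ := by
  have hD : Tendsto (fun s => ph μ (σ s) * (W3.m W' v φp ψp (σ s) - W3.m W v φ ψ (σ s))) atTop
      (𝓝 0) := by
    have h1 := (tendsto_iff_norm_sub_tendsto_zero.1 hφ).comp hl
    have h2 := (tendsto_iff_norm_sub_tendsto_zero.1 hψ).comp hl
    refine squeeze_zero_norm (fun s => ?_)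
      (a := fun s => ‖W'.U (-(σ s)) (W.U (σ s) φ) - φp‖ * (‖v‖ * ‖ψp‖) +
        ‖φ‖ * (‖v‖ * ‖W'.U (-(σ s)) (W.U (σ s) ψ) - ψp‖)) ?_
    · rw [norm_mul, ph_norm, one_mul]
      exact W3.m_diff W W' v φ ψ φp ψp (σ s)
    · have h3 := (h1.mul_const (‖v‖ * ‖ψp‖)).add ((h2.const_mul ‖v‖).const_mul ‖φ‖)
      simpa using h3
  have hcW : ∀ (W : UG X) (a b : X), Continuous fun s => ph μ (σ s) * W3.m W v a b (σ s) :=
    fun W a b => ((ph_cont μ).comp hσ).mul ((W3.m_cont W v a b).comp hσ)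
  have h4 := W3.cesaro (D := fun s => ph μ (σ s) * (W3.m W' v φp ψp (σ s) - W3.m W v φ ψ (σ s)))
    (((ph_cont μ).comp hσ).mul (((W3.m_cont W' v φp ψp).comp hσ).sub
      ((W3.m_cont W v φ ψ).comp hσ)))
    (‖φp‖ * (‖v‖ * ‖ψp‖) + ‖φ‖ * (‖v‖ * ‖ψ‖))
    (fun s => by
      rw [norm_mul, ph_norm, one_mul]
      exact (norm_sub_le _ _).trans (add_le_add (W3.m_norm _ _ _ _ _) (W3.m_norm _ _ _ _ _)))
    hD hN
  have h5 : ∀ k, ((Nk k : ℂ)⁻¹) * ∫ s in (0 : ℝ)..(Nk k : ℝ),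
      ph μ (σ s) * (W3.m W' v φp ψp (σ s) - W3.m W v φ ψ (σ s)) =
      ⟪φp, ((Nk k : ℂ)⁻¹) • ∫ s in (0 : ℝ)..(Nk k : ℝ), g μ W' v ψp (σ s)⟫_ℂ -
      ⟪φ, ((Nk k : ℂ)⁻¹) • ∫ s in (0 : ℝ)..(Nk k : ℝ), g μ W v ψ (σ s)⟫_ℂ := by
    intro k
    rw [inner_av μ W' v φp ψp σ hσ, inner_av μ W v φ ψ σ hσ, ← mul_sub]
    congr 1
    rw [← intervalIntegral.integral_sub ((hcW W' φp ψp).intervalIntegrable _ _)
      ((hcW W φ ψ).intervalIntegrable _ _)]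
    refine intervalIntegral.integral_congr fun s _ => ?_
    show ph μ (σ s) * (W3.m W' v φp ψp (σ s) - W3.m W v φ ψ (σ s)) =
      ph μ (σ s) * W3.m W' v φp ψp (σ s) - ph μ (σ s) * W3.m W v φ ψ (σ s)
    ring
  simp only [h5] at h4
  have h6 := (Filter.Tendsto.inner (𝕜 := ℂ) (tendsto_const_nhds (x := φp)) hb').sub
    (Filter.Tendsto.inner (𝕜 := ℂ) (tendsto_const_nhds (x := φ)) hb)
  exact sub_eq_zero.1 (tendsto_nhds_unique h6 h4)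

theorem av_sub [CompleteSpace X] (μ : ℝ) (W : UG X) (v v' : X →L[ℂ] X) (σ : ℝ → ℝ)
    (hσ : Continuous σ) (N : ℕ) (x : X) :
    ((N : ℂ)⁻¹) • (∫ s in (0 : ℝ)..(N : ℝ), g μ W v x (σ s)) =
      ((N : ℂ)⁻¹) • (∫ s in (0 : ℝ)..(N : ℝ), g μ W v' x (σ s)) -
      ((N : ℂ)⁻¹) • (∫ s in (0 : ℝ)..(N : ℝ), g μ W (v' - v) x (σ s)) := by
  have hi : ∀ u : X →L[ℂ] X, IntervalIntegrable
      (fun s : ℝ => g μ W u x (σ s)) volume 0 (N : ℝ) := fun u =>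
    ((g_cont μ W u x).comp hσ).intervalIntegrable _ _
  rw [← smul_sub, ← intervalIntegral.integral_sub (hi v') (hi (v' - v))]
  congr 1
  refine intervalIntegral.integral_congr fun s _ => ?_
  show ph μ (σ s) • W.U (-σ s) (v (W.U (σ s) x)) = ph μ (σ s) • W.U (-σ s) (v' (W.U (σ s) x)) -
    ph μ (σ s) • W.U (-σ s) (v' (W.U (σ s) x) - v (W.U (σ s) x))
  rw [map_sub, smul_sub]
  abel

end gen

section fam

variable {ι : Type}

/-- the Cesàro means of an operator which is controlled by finitely many coefficients -/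
theorem neg_core {α : Type} (μ : ℝ) (W : UG (L2 ι)) (D : L2 ι →L[ℂ] L2 ι) (F : Finset α)
    (f : α → L2 ι)
    (A : ℝ) (hD : ∀ x, ‖D x‖ ≤ A * ∑ i ∈ F, ‖⟪f i, x⟫_ℂ‖) (ψ : L2 ι) (σ : ℝ → ℝ)
    (hσ : Continuous σ) (hw : ∀ φ : L2 ι, Tendsto (fun t : ℝ => ⟪φ, W.U (σ t) ψ⟫_ℂ) atTop (𝓝 0))
    (Nk : ℕ → ℕ) (hN : Tendsto Nk atTop atTop) :
    Tendsto (fun k => ((Nk k : ℂ)⁻¹) •
      ∫ s in (0 : ℝ)..(Nk k : ℝ), g μ W D ψ (σ s)) atTop (𝓝 0) := by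
  have hc : Continuous fun s : ℝ => ‖D (W.U (σ s) ψ)‖ :=
    (D.continuous.comp ((W.cont' ψ).comp hσ)).norm
  have h0 : Tendsto (fun s : ℝ => ‖D (W.U (σ s) ψ)‖) atTop (𝓝 0) := by
    have h1 : Tendsto (fun s : ℝ => A * ∑ i ∈ F, ‖⟪f i, W.U (σ s) ψ⟫_ℂ‖) atTop
        (𝓝 (A * ∑ _i ∈ F, 0)) := by
      refine Tendsto.const_mul _ (tendsto_finsetSum _ fun i _ => ?_)
      have := (hw (f i)).norm
      rwa [norm_zero] at this
    rw [Finset.sum_const_zero, mul_zero] at h1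
    exact squeeze_zero (fun _ => norm_nonneg _) (fun s => hD _) h1
  have h2 : Tendsto (fun s : ℝ => ((‖D (W.U (σ s) ψ)‖ : ℝ) : ℂ)) atTop (𝓝 0) := by
    have := (Complex.continuous_ofReal.tendsto 0).comp h0
    rwa [Complex.ofReal_zero] at this
  have h3 := W3.cesaro (D := fun s : ℝ => ((‖D (W.U (σ s) ψ)‖ : ℝ) : ℂ))
    (Complex.continuous_ofReal.comp hc) (‖D‖ * ‖ψ‖) (fun s => by
      rw [Complex.norm_real, norm_norm]
      refine (D.le_opNorm _).trans ?_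
      rw [W.norm']) h2 hN
  have h4 := h3.norm
  rw [norm_zero] at h4
  refine squeeze_zero_norm (fun k => ?_) h4
  have hk : (0 : ℝ) ≤ (Nk k : ℝ) := Nat.cast_nonneg _
  have h5 : ‖∫ s in (0 : ℝ)..(Nk k : ℝ), g μ W D ψ (σ s)‖ ≤
      ∫ s in (0 : ℝ)..(Nk k : ℝ), ‖D (W.U (σ s) ψ)‖ := by
    refine (intervalIntegral.norm_integral_le_integral_norm hk).trans (le_of_eq ?_)
    refine intervalIntegral.integral_congr fun s _ => ?_
    simp only [g]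
    rw [norm_smul, ph_norm, one_mul]
    exact W.norm' _ _
  have h6 : ∫ s in (0 : ℝ)..(Nk k : ℝ), ((‖D (W.U (σ s) ψ)‖ : ℝ) : ℂ) =
      ((∫ s in (0 : ℝ)..(Nk k : ℝ), ‖D (W.U (σ s) ψ)‖ : ℝ) : ℂ) :=
    intervalIntegral.integral_ofReal
  have h7 : 0 ≤ ∫ s in (0 : ℝ)..(Nk k : ℝ), ‖D (W.U (σ s) ψ)‖ :=
    intervalIntegral.integral_nonneg hk fun s _ => norm_nonneg _
  rw [norm_smul, h6, norm_mul, Complex.norm_real, Real.norm_of_nonneg h7]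
  exact mul_le_mul_of_nonneg_left h5 (norm_nonneg _)

open W6 in
/-- the averaged observable maps `e` into the cyclic space of `e`, up to the singular part -/
theorem w6T {α : Type} (μ : ℝ) (U : ℝ → UG (L2 ι)) (e : L2 ι) (hF : Fam U e) {κ κ' : ℝ}
    (hκ : κ ≠ κ') (v v' : L2 ι →L[ℂ] L2 ι)
    (F : Finset α) (f : α → L2 ι) (A : ℝ) (hD : ∀ x, ‖v' x - v x‖ ≤ A * ∑ i ∈ F, ‖⟪f i, x⟫_ℂ‖)
    (Nk : ℕ → ℕ) (hNk : Tendsto Nk atTop atTop)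
    (B B' : L2 ι →L[ℂ] L2 ι) (hB : GoodT μ (U κ) v Nk B) (hB' : GoodT μ (U κ') v' Nk B')
    (C : ℝ) (φ : L2 ι) (hφ : Minf (U κ') C φ) (hort : ∀ t, ⟪φ, (U κ').U t e⟫_ℂ = 0) :
      ⟪φ, B' e⟫_ℂ = 0 := by
  have hWP : St_WP := t_WP
  have hWI : St_WI := t_WI
  -- averages of `v` over vectors of bounded density
  have hvP : ∀ (C' : ℝ) (x : L2 ι), Minf (U κ') C' x →
      Tendsto (fun k => ((Nk k : ℂ)⁻¹) • ∫ s in (0 : ℝ)..(Nk k : ℝ),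
        g μ (U κ') v x (id s)) atTop (𝓝 (B' x)) := by
    intro C' x hx
    have h1 := neg_core μ (U κ') (v' - v) F f A hD x id continuous_id
      (fun φ => WP.weak hx φ) Nk hNk
    have h2 := ((hB' x).1).sub h1
    rw [sub_zero] at h2
    refine h2.congr fun k => ?_
    exact (av_sub μ (U κ') v v' id continuous_id (Nk k) x).symm
  have hvM : ∀ (C' : ℝ) (x : L2 ι), Minf (U κ') C' x →
      Tendsto (fun k => ((Nk k : ℂ)⁻¹) • ∫ s in (0 : ℝ)..(Nk k : ℝ),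
        g μ (U κ') v x (-s)) atTop (𝓝 (B' x)) := by
    intro C' x hx
    have h1 := neg_core μ (U κ') (v' - v) F f A hD x (fun s => -s) continuous_neg
      (fun φ => Pool.Agent.Y662.ERG.weakM hx φ) Nk hNk
    have h3 := ((hB' x).2).sub h1
    rw [sub_zero] at h3
    refine h3.congr fun k => ?_
    exact (av_sub μ (U κ') v v' (fun s => -s) continuous_neg (Nk k) x).symm
  -- basic facts
  have hBc : ∀ (t : ℝ) (x : L2 ι), B' ((U κ').U t x) = ph μ (-t) • (U κ').U t (B' x) :=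
    good_comm hNk hB'
  set Bs : L2 ι →L[ℂ] L2 ι := ContinuousLinearMap.adjoint B' with hBs
  have hsym : ∀ x y : L2 ι, ⟪Bs x, y⟫_ℂ = ⟪x, B' y⟫_ℂ := fun x y =>
    ContinuousLinearMap.adjoint_inner_left _ _ _
  have hBn : ∀ x : L2 ι, ‖B' x‖ ≤ ‖v'‖ * ‖x‖ := good_norm hB'
  set C₁ : ℝ := max C 0 with hC₁
  have hC₁0 : 0 ≤ C₁ := le_max_right _ _
  have hφ₁ : Minf (U κ') C₁ φ := minf_mono hφ (le_max_left _ _)
  -- eta
  set η : L2 ι := Bs φ with hη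
  have hηU : ∀ (t : ℝ) (x : L2 ι), ⟪x, (U κ').U t η⟫_ℂ = ph μ (-t) * ⟪B' x, (U κ').U t φ⟫_ℂ := by
    intro t x
    have h1 : ⟪x, (U κ').U t η⟫_ℂ = ⟪(U κ').U (-t) x, η⟫_ℂ := by
      rw [NN.inner_adj, neg_neg]
    have h2 : ⟪(U κ').U (-t) x, η⟫_ℂ = ⟪B' ((U κ').U (-t) x), φ⟫_ℂ := by
      rw [← inner_conj_symm, hη, hsym, inner_conj_symm]
    rw [h1, h2, hBc, inner_smul_left, ph_conj, NN.inner_adj]
    simp only [neg_neg]
  have hηM : Minf (U κ') (C₁ * ‖v'‖ ^ 2) η := by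
    intro φ₁
    have h1 : (∫⁻ t : ℝ, ‖⟪φ₁, (U κ').U t η⟫_ℂ‖ₑ ^ 2) =
        ∫⁻ t : ℝ, ‖⟪B' φ₁, (U κ').U t φ⟫_ℂ‖ₑ ^ 2 := by
      refine lintegral_congr fun t => ?_
      rw [hηU, enorm_mul, ← ofReal_norm (ph μ (-t)), ph_norm, ENNReal.ofReal_one, one_mul]
    rw [h1]
    refine (hφ₁ (B' φ₁)).trans (ENNReal.ofReal_le_ofReal ?_)
    have h2 := hBn φ₁
    have h3 : ‖B' φ₁‖ ^ 2 ≤ (‖v'‖ * ‖φ₁‖) ^ 2 := pow_le_pow_left₀ (norm_nonneg _) h2 2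
    calc C₁ * ‖B' φ₁‖ ^ 2 ≤ C₁ * (‖v'‖ * ‖φ₁‖) ^ 2 := mul_le_mul_of_nonneg_left h3 hC₁0
      _ = C₁ * ‖v'‖ ^ 2 * ‖φ₁‖ ^ 2 := by ring
  -- U_t φ = U'_t φ
  obtain ⟨hort2, hUU⟩ := t_NN ι U e hF κ' κ φ hort
  have hconst : (fun t : ℝ => (U κ').U (-t) ((U κ).U t φ)) = fun _ => φ := by
    funext t
    rw [hUU t, ← (U κ').add', neg_add_cancel, (U κ').zero']
  have hφtop : Tendsto (fun t : ℝ => (U κ').U (-t) ((U κ).U t φ)) atTop (𝓝 φ) := by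
    rw [hconst]; exact tendsto_const_nhds
  have hφbot : Tendsto (fun t : ℝ => (U κ').U (-t) ((U κ).U t φ)) atBot (𝓝 φ) := by
    rw [hconst]; exact tendsto_const_nhds
  -- key vanishing
  have key : ∀ (C0 : ℝ) (ψ0 : L2 ι), Minf (U κ) C0 ψ0 →
      ∫ s : ℝ, ⟪e, (U κ).U s ψ0⟫_ℂ * ⟪η, (U κ').U (-s) e⟫_ℂ = 0 := by
    intro C0 ψ0 hψ0
    obtain ⟨⟨ψp, hp⟩, ⟨ψm, hm⟩⟩ := hWP ι U e hF κ κ' C0 ψ0 hψ0
    have hpM := (hWI ι (U κ) (U κ') atTop (Or.inl rfl) ψ0 ψp hp).2.2.1 _ hψ0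
    have hmM := (hWI ι (U κ) (U κ') atBot (Or.inr rfl) ψ0 ψm hm).2.2.1 _ hψ0
    have a1 : ⟪φ, B' ψp⟫_ℂ = ⟪φ, B ψ0⟫_ℂ :=
      core μ (U κ) (U κ') v Nk hNk atTop id continuous_id tendsto_id φ φ ψ0 ψp (B ψ0) (B' ψp)
        hφtop hp (hB ψ0).1 (hvP _ _ hpM)
    have a2 : ⟪φ, B' ψm⟫_ℂ = ⟪φ, B ψ0⟫_ℂ :=
      core μ (U κ) (U κ') v Nk hNk atBot (fun s => -s) continuous_neg
        tendsto_neg_atTop_atBot φ φ ψ0 ψm (B ψ0) (B' ψm) hφbot hm (hB ψ0).2 (hvM _ _ hmM)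
    have a3 : ⟪η, ψp - ψm⟫_ℂ = 0 := by
      rw [inner_sub_right, hη, hsym, hsym, a1, a2, sub_self]
    have a4 := t_W4 ι U e hF κ κ' C0 (C₁ * ‖v'‖ ^ 2) ψ0 ψp ψm η hψ0 hηM hp hm
    rw [a3] at a4
    have a5 : Complex.I * ((κ' - κ : ℝ) : ℂ) ≠ 0 := by
      refine mul_ne_zero Complex.I_ne_zero ?_
      rw [Ne, Complex.ofReal_eq_zero, sub_eq_zero]
      exact fun h => hκ h.symm
    exact (mul_eq_zero.1 a4.symm).resolve_left a5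
  -- the function h
  have hconj : ∀ r : ℝ, ⟪η, (U κ').U (-r) e⟫_ℂ = conj ⟪e, (U κ').U r η⟫_ℂ := by
    intro r
    rw [inner_conj_symm, NN.inner_adj]
  have hcontg : Continuous fun r : ℝ => ⟪e, (U κ').U r η⟫_ℂ :=
    continuous_const.inner ((U κ').cont' η)
  have hconth : Continuous fun r : ℝ => ⟪η, (U κ').U (-r) e⟫_ℂ :=
    continuous_const.inner (((U κ').cont' e).comp continuous_neg)
  have hfin : (∫⁻ r : ℝ, ‖⟪η, (U κ').U (-r) e⟫_ℂ‖ₑ ^ 2) < ∞ := by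
    refine lt_of_le_of_lt ?_ (ENNReal.ofReal_lt_top (r := C₁ * ‖v'‖ ^ 2 * ‖e‖ ^ 2))
    refine le_trans (le_of_eq ?_) (hηM e)
    refine lintegral_congr fun r => ?_
    rw [hconj, RCLike.enorm_conj]
  -- the choice of ψ0
  obtain ⟨⟨ψ0, hψ0t⟩, -⟩ := hWP ι U e hF κ' κ (C₁ * ‖v'‖ ^ 2) η hηM
  obtain ⟨-, -, hI3, hI4⟩ := hWI ι (U κ') (U κ) atTop (Or.inl rfl) η ψ0 hψ0t
  have hψ0M := hI3 _ hηM
  have hzero : ∫ r : ℝ, ⟪e, (U κ').U r η⟫_ℂ * ⟪η, (U κ').U (-r) e⟫_ℂ = 0 := by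
    refine t_W5 ι U e hF κ κ' _ ψ0 η hψ0M hI4 (fun r => ⟪η, (U κ').U (-r) e⟫_ℂ)
      hconth.measurable hfin ?_
    intro s
    have b := key _ ((U κ).U s ψ0) (minf_shift hψ0M s)
    rw [← b]
    refine integral_congr_ae (Eventually.of_forall fun r => ?_)
    show ⟪e, (U κ).U (r + s) ψ0⟫_ℂ * _ = ⟪e, (U κ).U r ((U κ).U s ψ0)⟫_ℂ * _
    rw [(U κ).add']
  -- conclusion
  have hsq : ∀ r : ℝ, ⟪e, (U κ').U r η⟫_ℂ * ⟪η, (U κ').U (-r) e⟫_ℂ =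
      ((‖⟪e, (U κ').U r η⟫_ℂ‖ ^ 2 : ℝ) : ℂ) := by
    intro r
    rw [hconj, Complex.mul_conj, Complex.normSq_eq_norm_sq]
  have hreal : ∫ r : ℝ, ‖⟪e, (U κ').U r η⟫_ℂ‖ ^ 2 = 0 := by
    have c1 : ((∫ r : ℝ, ‖⟪e, (U κ').U r η⟫_ℂ‖ ^ 2 : ℝ) : ℂ) = 0 := by
      rw [← integral_complex_ofReal, ← hzero]
      exact integral_congr_ae (Eventually.of_forall fun r => (hsq r).symm)
    exact_mod_cast c1
  have hcont2 : Continuous fun r : ℝ => ‖⟪e, (U κ').U r η⟫_ℂ‖ ^ 2 := (hcontg.norm).pow 2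
  have hint : Integrable (fun r : ℝ => ‖⟪e, (U κ').U r η⟫_ℂ‖ ^ 2) := by
    refine ⟨hcont2.aestronglyMeasurable, ?_⟩
    refine lt_of_le_of_lt (le_of_eq ?_) hfin
    refine lintegral_congr fun r => ?_
    rw [hconj, RCLike.enorm_conj, enorm_pow, enorm_norm]
  have hae := (integral_eq_zero_iff_of_nonneg (fun r => by positivity) hint).1 hreal
  have hall : (fun r : ℝ => ‖⟪e, (U κ').U r η⟫_ℂ‖ ^ 2) = fun _ => (0 : ℝ) :=
    (Continuous.ae_eq_iff_eq volume hcont2 continuous_const).1 hae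
  have d1 := congrFun hall 0
  have d2 : ⟪e, (U κ').U 0 η⟫_ℂ = 0 := by
    have := pow_eq_zero_iff (two_ne_zero) |>.1 d1
    exact norm_eq_zero.1 this
  rw [(U κ').zero'] at d2
  rw [← hsym, ← hη, ← inner_conj_symm, d2, map_zero]

/-- the same on the whole absolutely continuous subspace -/
theorem w6_hacT {α : Type} (μ : ℝ) (U : ℝ → UG (L2 ι)) (e : L2 ι) (hF : Fam U e) {κ κ' : ℝ}
    (hκ : κ ≠ κ') (v v' : L2 ι →L[ℂ] L2 ι)
    (F : Finset α) (f : α → L2 ι) (A : ℝ) (hD : ∀ x, ‖v' x - v x‖ ≤ A * ∑ i ∈ F, ‖⟪f i, x⟫_ℂ‖)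
    (Nk : ℕ → ℕ) (hNk : Tendsto Nk atTop atTop)
    (B B' : L2 ι →L[ℂ] L2 ι) (hB : GoodT μ (U κ) v Nk B) (hB' : GoodT μ (U κ') v' Nk B')
    (φ : L2 ι) (hφ : φ ∈ HAC (U κ')) (hort : ∀ t, ⟪φ, (U κ').U t e⟫_ℂ = 0) :
      ⟪φ, B' e⟫_ℂ = 0 := by
  have hle : ∀ ε : ℝ, 0 < ε → ‖⟪φ, B' e⟫_ℂ‖ ≤ ε * ‖B' e‖ := by
    intro ε hε
    obtain ⟨C, φ', hC, ho, hn⟩ := t_QN ι (U κ') e φ hφ hort ε hε
    have e1 := w6T μ U e hF hκ v v' F f A hD Nk hNk B B' hB hB' C φ' hC ho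
    have e2 : ⟪φ, B' e⟫_ℂ = ⟪φ - φ', B' e⟫_ℂ := by
      rw [inner_sub_left, e1, sub_zero]
    rw [e2]
    calc ‖⟪φ - φ', B' e⟫_ℂ‖ ≤ ‖φ - φ'‖ * ‖B' e‖ := norm_inner_le_norm _ _
      _ ≤ ε * ‖B' e‖ := mul_le_mul_of_nonneg_right hn (norm_nonneg _)
  have hle0 : ‖⟪φ, B' e⟫_ℂ‖ ≤ 0 := by
    refine le_of_forall_pos_le_add fun δ hδ => ?_
    have hpos : 0 < ‖B' e‖ + 1 := by positivity
    have h4 := hle (δ / (‖B' e‖ + 1)) (by positivity)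
    rw [zero_add]
    refine h4.trans ?_
    rw [div_mul_eq_mul_div, div_le_iff₀ hpos]
    nlinarith [norm_nonneg (B' e)]
  exact norm_le_zero_iff.mp hle0

/-- the operators with `B U_t = e^{iμt} U_t B` preserve the absolutely continuous subspace -/
theorem hac_of_tw {μ : ℝ} {W : UG (L2 ι)} {B : L2 ι →L[ℂ] L2 ι}
    (hBc : ∀ (t : ℝ) (x : L2 ι), B (W.U t x) = ph μ (-t) • W.U t (B x))
    {ψ : L2 ι} (hψ : ψ ∈ HAC W) : B ψ ∈ HAC W := by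
  have h1 : ∀ ψ ∈ {ψ : L2 ι | ∃ C : ℝ, Minf W C ψ}, B ψ ∈ HAC W := by
    rintro ψ ⟨C, hC⟩
    refine subset_closure ⟨max C 0 * ‖B‖ ^ 2, fun φ => ?_⟩
    have h2 : (∫⁻ t : ℝ, ‖⟪φ, W.U t (B ψ)⟫_ℂ‖ₑ ^ 2) =
        ∫⁻ t : ℝ, ‖⟪ContinuousLinearMap.adjoint B φ, W.U t ψ⟫_ℂ‖ₑ ^ 2 := by
      refine lintegral_congr fun t => ?_
      have h3 : ph μ (-t) • W.U t (B ψ) = B (W.U t ψ) := (hBc t ψ).symm
      have h4 : ⟪ContinuousLinearMap.adjoint B φ, W.U t ψ⟫_ℂ = ph μ (-t) * ⟪φ, W.U t (B ψ)⟫_ℂ := by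
        rw [ContinuousLinearMap.adjoint_inner_left, ← h3, inner_smul_right]
      rw [h4, enorm_mul, ← ofReal_norm (ph μ (-t)), ph_norm, ENNReal.ofReal_one, one_mul]
    rw [h2]
    refine (hC _).trans (ENNReal.ofReal_le_ofReal ?_)
    have h5 : ‖ContinuousLinearMap.adjoint B φ‖ ≤ ‖B‖ * ‖φ‖ := by
      refine (ContinuousLinearMap.le_opNorm _ _).trans ?_
      rw [LinearIsometryEquiv.norm_map]
    have h6 : ‖ContinuousLinearMap.adjoint B φ‖ ^ 2 ≤ (‖B‖ * ‖φ‖) ^ 2 :=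
      pow_le_pow_left₀ (norm_nonneg _) h5 2
    calc C * ‖ContinuousLinearMap.adjoint B φ‖ ^ 2
        ≤ max C 0 * ‖ContinuousLinearMap.adjoint B φ‖ ^ 2 :=
          mul_le_mul_of_nonneg_right (le_max_left _ _) (by positivity)
      _ ≤ max C 0 * (‖B‖ * ‖φ‖) ^ 2 := mul_le_mul_of_nonneg_left h6 (le_max_right _ _)
      _ = max C 0 * ‖B‖ ^ 2 * ‖φ‖ ^ 2 := by ring
  have h2 : B ψ ∈ closure (HAC W) := map_mem_closure B.continuous hψ h1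
  have h3 : IsClosed (HAC W) := isClosed_closure
  rwa [h3.closure_eq] at h2

end fam

end Pool.Agent.H988.WM
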