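import Pool.Agent.H988.WM.Sit
import Pool.Graph.R_pool_sql_team_seeded_b0a926ef.R988.NQ.Gen

/-! # Main theorems for fields -/

set_option autoImplicit false
set_option linter.unusedSectionVars false

open MeasureTheory Filter Topology Set
open scoped ENNReal NNReal InnerProductSpace ComplexConjugate

namespace Pool.Agent.H988.WM

open Pool.Agent.TH980.IM Pool.Agent.H5R2
open Pool.Agent.Y662.ERG
open Pool.Agent.TH980.IM.PR
open Pool.Agent.R988.NQ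

section mai

variable {d : ℕ} {ev : (NB.Site d → ℝ) → NB.UG (L2 d)}

/-- weak mixing, and the conserved part of the observable -/
theorem main_wm (hd : 1 ≤ d) {K : ℝ} {ν : Measure ℝ} [IsProbabilityMeasure ν]
    (hK : ∀ᵐ r ∂ν, |r| ≤ K) (hν : ∀ r : ℝ, ν {r} ≠ 1)
    (hev : ∀ ω : NB.Site d → ℝ, NB.IsGrp (-1) (fun x => 2 * d + ω x) (ev ω))
    {A : OF d} {M : ℝ} (hA : Fld M A) (hA' : Fld M (adjF A)) :
    ∃ (B : OF d) (f : ℝ → ℂ) (C : ℝ), 0 ≤ C ∧ Fld C B ∧ Fld C (adjF B) ∧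
      (∀ V t x, B V ((ev V).U t x) = (ev V).U t (B V x)) ∧
      (∀ᵐ V ∂(NB.PP d ν), ∀ x, Tendsto (fun N : ℕ => av 0 id (ev V) (A V) N x) atTop
        (𝓝 (B V x))) ∧
      Measurable f ∧ (∃ R : ℝ, ∀ E, ‖f E‖ ≤ R) ∧
      (∀ᵐ ω ∂(NB.PP d ν), (∀ x, |ω x| ≤ K) ∧ (∀ x, B ω (HV K ω x) = HV K ω (B ω x)) ∧
        (∀ ψ, ∀ᵐ E : ℝ, Ngl (HV K ω) E (B ω ψ - f E • ψ)) ∧
        ∀ ψ, spm (HV_sa K ω) ψ ≪ volume → ∀ t : ℝ, ⟪Ex (HV K ω) t ψ, B ω ψ⟫_ℂ =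
          ∫ E : ℝ, Complex.exp (Complex.I * t * E) * f E ∂(spm (HV_sa K ω) ψ)) ∧
      ∀ ψ : (NB.Site d → ℝ) → L2 d, MemLp ψ 2 (NB.PP d ν) →
        (∀ᵐ ω ∂(NB.PP d ν), spm (HV_sa K ω) (ψ ω) ≪ volume) →
        Wk (NB.PP d ν) (Hz ev (subF A B)) ψ ∧ Mn 0 (NB.PP d ν) (Hz ev (subF A B)) ψ ∧
          ∀ μ : ℝ, μ ≠ 0 → Mn μ (NB.PP d ν) (Hz ev A) ψ := by
  have hM : 0 ≤ M := hA.nonneg
  obtain ⟨B, C, hC, hB, hB', cB, lB⟩ := lim_gen (ν := ν) hev hA hA'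
  obtain ⟨f, hf1, hf2, hf3⟩ := main_gen hd hK hν hev (W := B) (M := C) hB.bd (fun u x => by
      have h1 := hB.meas (fun _ => u) stronglyMeasurable_const
      exact ((NB.STAT.cont_eval x).comp_stronglyMeasurable h1).measurable) hB.cov
    (Eventually.of_forall fun ω => cB ω)
  obtain ⟨P, hP, sP, eP⟩ := exists_Pf (d := d) K ν
  refine ⟨B, f, C, hC, hB, hB', cB, lB, hf1, hf2, hf3, fun ψ hψ hac => ?_⟩
  have hPψ : ∀ᵐ ω ∂(NB.PP d ν), P ω (ψ ω) = ψ ω := by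
    filter_upwards [eP, hac] with ω h1 h2
    rw [h1]
    exact acP_of _ h2
  have hD : Fld (M + C) (subF A B) := hA.sub hB
  have hMC : 0 ≤ M + C := add_nonneg hM hC
  have hL := lo_Hz hev ν hMC hD
  have hLA := lo_Hz hev ν hM hA
  have hpc := pc0 hd hK hν hev hM hC hA hA' hB hB' cB lB hP sP eP
  refine ⟨(all_states hL hP hψ hPψ).1 fun x => wk_of_pc
    (pcx hd hK hν hev hM hC hA hA' hB hB' cB lB hP sP eP x),
    (all_states hL hP hψ hPψ).2 0 fun x => mean_x hev ν hMC hD hP (hpc.mn 0) x,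
    fun μ hμ => (all_states hLA hP hψ hPψ).2 μ fun x =>
      mean_x hev ν hM hA hP (van_fld hd hK hν hev hA hA' hμ hP sP eP) x⟩

/-- no eigenoperators -/
theorem no_eig (hd : 1 ≤ d) {K : ℝ} {ν : Measure ℝ} [IsProbabilityMeasure ν]
    (hK : ∀ᵐ r ∂ν, |r| ≤ K) (hν : ∀ r : ℝ, ν {r} ≠ 1)
    (hev : ∀ ω : NB.Site d → ℝ, NB.IsGrp (-1) (fun x => 2 * d + ω x) (ev ω))
    {W : OF d} {M : ℝ} (hW : Fld M W) (hW' : Fld M (adjF W)) {μ : ℝ} (hμ : μ ≠ 0)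
    (hc : ∀ᵐ ω ∂(NB.PP d ν), ∀ t x, W ω ((ev ω).U t x) = ph μ (-t) • (ev ω).U t (W ω x)) :
    ∀ᵐ ω ∂(NB.PP d ν), ∀ ψ, spm (HV_sa K ω) ψ ≪ volume → W ω ψ = 0 := by
  obtain ⟨P, hP, sP, eP⟩ := exists_Pf (d := d) K ν
  have hM : 0 ≤ M := hW.nonneg
  have h1 : ∀ x, Mn μ (NB.PP d ν) (Hz ev W) fun ω => P ω (NB.dl x) := fun x =>
    mean_x hev ν hM hW hP (van_fld hd hK hν hev hW hW' hμ hP sP eP) x
  have h2 : ∀ x, ∀ᵐ ω ∂(NB.PP d ν), W ω (P ω (NB.dl x)) = 0 := by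
    intro x
    have h3 : ∀ T : ℝ, 0 < T → ∫⁻ ω, ‖avR μ (Hz ev W) T ω (P ω (NB.dl x))‖ₑ ^ 2 ∂(NB.PP d ν) =
        ∫⁻ ω, ‖W ω (P ω (NB.dl x))‖ₑ ^ 2 ∂(NB.PP d ν) := by
      intro T hT
      refine lintegral_congr_ae ?_
      filter_upwards [hc] with ω hω
      congr 2
      have h4 : ∀ s : ℝ, ph μ s • Hz ev W s ω (P ω (NB.dl x)) = W ω (P ω (NB.dl x)) := by
        intro s
        rw [Hz_apply, hω, map_smul, smul_smul, ph_mul_neg, one_smul, ← (ev ω).add',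
          neg_add_cancel, (ev ω).zero']
      unfold avR
      simp only [h4, intervalIntegral.integral_const, sub_zero]
      generalize W ω (P ω (NB.dl x)) = v
      have hTc : (T : ℂ) ≠ 0 := by exact_mod_cast hT.ne'
      rw [← Complex.coe_smul T v, smul_smul, inv_mul_cancel₀ hTc, one_smul]
    have h5 : Tendsto (fun _T : ℝ => ∫⁻ ω, ‖W ω (P ω (NB.dl x))‖ₑ ^ 2 ∂(NB.PP d ν)) atTop
        (𝓝 0) := by
      refine (h1 x).congr' ?_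
      filter_upwards [eventually_gt_atTop 0] with T hT
      exact h3 T hT
    have h6 := tendsto_nhds_unique tendsto_const_nhds h5
    have hm : Measurable fun ω => ‖W ω (P ω (NB.dl x))‖ₑ ^ 2 :=
      ((hW.meas _ (hP.meas _ stronglyMeasurable_const)).enorm).pow_const 2
    rw [lintegral_eq_zero_iff hm] at h6
    filter_upwards [h6] with ω hω
    simpa using hω
  filter_upwards [ae_all_iff.2 h2, eP] with ω h3 h4 ψ hψ
  obtain ⟨F, hF⟩ := exhaust (d := d)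
  have h5 : ψ = P ω ψ := by
    rw [h4]
    exact (acP_of _ hψ).symm
  have h6 := ((W ω ∘L P ω).continuous.tendsto _).comp (pf_tendsto hF ψ)
  have h7 : ∀ n, (W ω ∘L P ω) (pf (F n) ψ) = 0 := by
    intro n
    rw [pf_sum, map_sum]
    refine Finset.sum_eq_zero fun y _ => ?_
    rw [map_smul]
    show (ψ y) • W ω (P ω (NB.dl y)) = 0
    rw [h3, smul_zero]
  have h8 : Tendsto (fun _n : ℕ => (0 : L2 d)) atTop (𝓝 ((W ω ∘L P ω) ψ)) :=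
    h6.congr fun n => h7 n
  have h9 := tendsto_nhds_unique h8 tendsto_const_nhds
  rw [h5]
  exact h9

end mai

end Pool.Agent.H988.WM
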