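import Mathlib

/-! # Stationary curves in a Hilbert space without periodic part: correlations tend to zero in
mean square -/

set_option autoImplicit false

open Finset Filter Topology MeasureTheory
open scoped InnerProductSpace ComplexConjugate

namespace Pool.Agent.H988.WM.Abs

noncomputable section

variable {E : Type*} [NormedAddCommGroup E] [InnerProductSpace ℂ E]

/-- stationary sequences -/
def St (x : ℕ → E) : Prop := ∀ m n k : ℕ, inner ℂ (x (m + k)) (x (n + k)) = inner ℂ (x m) (x n)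

/-- mean of a sequence with a phase -/
def dm (x : ℕ → E) (l : ℂ) (N : ℕ) : E := (N : ℂ)⁻¹ • ∑ n ∈ range N, l ^ n • x n

lemma inner_diag {x : ℕ → E} (hx : St x) (k : ℕ) :
    inner ℂ (x k) (x k) = inner ℂ (x 0) (x 0) := by
  have := hx 0 0 k
  rwa [zero_add] at this

lemma norm_eq {x : ℕ → E} (hx : St x) (k : ℕ) : ‖x k‖ = ‖x 0‖ := by
  have h := inner_diag hx k
  rw [inner_self_eq_norm_sq_to_K, inner_self_eq_norm_sq_to_K] at h
  have h2 : ‖x k‖ ^ 2 = ‖x 0‖ ^ 2 := by exact_mod_cast h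
  exact (sq_eq_sq₀ (norm_nonneg _) (norm_nonneg _)).1 h2

lemma norm_shift {x : ℕ → E} (hx : St x) (a : ℕ → ℂ) (s : Finset ℕ) (k : ℕ) :
    ‖∑ n ∈ s, a n • x (n + k)‖ = ‖∑ n ∈ s, a n • x n‖ := by
  have h1 : ∀ y : ℕ → E, inner ℂ (∑ n ∈ s, a n • y n) (∑ n ∈ s, a n • y n) =
      ∑ m ∈ s, ∑ n ∈ s, conj (a m) * (a n * inner ℂ (y m) (y n)) := by
    intro y
    rw [sum_inner]
    refine Finset.sum_congr rfl fun m _ => ?_
    rw [inner_sum]
    refine Finset.sum_congr rfl fun n _ => ?_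
    rw [inner_smul_left, inner_smul_right]
  have h2 := h1 (fun n => x (n + k))
  have h3 := h1 x
  simp only [hx _ _ k] at h2
  rw [← h3, inner_self_eq_norm_sq_to_K, inner_self_eq_norm_sq_to_K] at h2
  have h4 : ‖∑ n ∈ s, a n • x (n + k)‖ ^ 2 = ‖∑ n ∈ s, a n • x n‖ ^ 2 := by exact_mod_cast h2
  exact (sq_eq_sq₀ (norm_nonneg _) (norm_nonneg _)).1 h4

lemma dm_anti {x : ℕ → E} (hx : St x) {z : ℂ} (hz : ‖z‖ = 1) (k : ℕ) :
    ‖dm x z (2 ^ (k + 1))‖ ≤ ‖dm x z (2 ^ k)‖ := by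
  have hsplit : ∑ n ∈ range (2 ^ (k + 1)), z ^ n • x n =
      ∑ n ∈ range (2 ^ k), z ^ n • x n +
      z ^ (2 ^ k) • (∑ n ∈ range (2 ^ k), z ^ n • x (n + 2 ^ k)) := by
    rw [pow_succ, mul_two, Finset.sum_range_add, Finset.smul_sum]
    congr 1
    refine Finset.sum_congr rfl fun n _ => ?_
    rw [smul_smul, pow_add, add_comm n]
  unfold dm
  rw [hsplit, norm_smul, norm_smul]
  have h1 : ‖∑ n ∈ range (2 ^ k), z ^ n • x n +
      z ^ (2 ^ k) • (∑ n ∈ range (2 ^ k), z ^ n • x (n + 2 ^ k))‖ ≤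
      2 * ‖∑ n ∈ range (2 ^ k), z ^ n • x n‖ := by
    refine (norm_add_le _ _).trans ?_
    rw [norm_smul, norm_pow, hz, one_pow, one_mul, norm_shift hx]
    linarith
  have h2 : ‖(((2 ^ (k + 1) : ℕ) : ℂ))⁻¹‖ = ‖(((2 ^ k : ℕ) : ℂ))⁻¹‖ / 2 := by
    push_cast
    rw [pow_succ]
    simp [mul_comm]
    ring
  rw [h2]
  have h3 : 0 ≤ ‖(((2 ^ k : ℕ) : ℂ))⁻¹‖ := norm_nonneg _
  nlinarith

/-- uniform smallness on the circle, by compactness -/
theorem unif {x : ℕ → E} (hx : St x) {ε : ℝ}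
    (h : ∀ z : ℂ, ‖z‖ = 1 → ∃ k, ‖dm x z (2 ^ k)‖ < ε) :
    ∃ k₀ : ℕ, ∀ k ≥ k₀, ∀ z : ℂ, ‖z‖ = 1 → ‖dm x z (2 ^ k)‖ < ε := by
  have hanti : ∀ z : ℂ, ‖z‖ = 1 → Antitone fun k => ‖dm x z (2 ^ k)‖ := fun z hz =>
    antitone_nat_of_succ_le fun k => dm_anti hx hz k
  have hmono : ∀ z : ℂ, ‖z‖ = 1 → ∀ k l, k ≤ l → ‖dm x z (2 ^ l)‖ ≤ ‖dm x z (2 ^ k)‖ :=
    fun z hz k l hkl => hanti z hz hkl
  have hc : IsCompact (Metric.sphere (0 : ℂ) 1) := isCompact_sphere _ _
  obtain ⟨k₀, hk₀⟩ := hc.elim_directed_cover (fun k : ℕ => {z : ℂ | ‖dm x z (2 ^ k)‖ < ε} ∪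
      (Metric.sphere (0 : ℂ) 1)ᶜ) (fun k => by
        refine IsOpen.union ?_ (Metric.isClosed_sphere.isOpen_compl)
        refine isOpen_lt ?_ continuous_const
        unfold dm
        refine Continuous.norm ?_
        refine Continuous.const_smul ?_ _
        refine continuous_finsetSum _ fun n _ => ?_
        exact (continuous_pow n).smul continuous_const) (fun z hz => by
        rw [mem_sphere_zero_iff_norm] at hz
        obtain ⟨k, hk⟩ := h z hz
        exact Set.mem_iUnion.2 ⟨k, Or.inl hk⟩) (by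
        intro k l
        refine ⟨max k l, ?_, ?_⟩
        · intro z hz
          by_cases h1 : z ∈ Metric.sphere (0 : ℂ) 1
          · rcases hz with hz | hz
            · have h2 : ‖z‖ = 1 := mem_sphere_zero_iff_norm.1 h1
              exact Or.inl ((hmono z h2 k _ (le_max_left _ _)).trans_lt hz)
            · exact absurd h1 hz
          · exact Or.inr h1
        · intro z hz
          by_cases h1 : z ∈ Metric.sphere (0 : ℂ) 1
          · rcases hz with hz | hz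
            · have h2 : ‖z‖ = 1 := mem_sphere_zero_iff_norm.1 h1
              exact Or.inl ((hmono z h2 l _ (le_max_right _ _)).trans_lt hz)
            · exact absurd h1 hz
          · exact Or.inr h1)
  refine ⟨k₀, fun k hk z hz => ?_⟩
  have h1 : z ∈ Metric.sphere (0 : ℂ) 1 := mem_sphere_zero_iff_norm.2 hz
  rcases hk₀ h1 with h2 | h2
  · exact (hmono z hz k₀ k hk).trans_lt h2
  · exact absurd h1 h2

/-- orthogonality of characters of `ℤ/M` -/
lemma root_orth (M : ℕ) (ζ : ℂ) (hζ : IsPrimitiveRoot ζ M) (hM : 0 < M) (a b : ℕ) (ha : a < M)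
    (hb : b < M) : ∑ j ∈ range M, (starRingEnd ℂ) ((ζ ^ j) ^ a) * (ζ ^ j) ^ b
      = if a = b then (M : ℂ) else 0 := by
  have hn : ‖ζ‖ = 1 := hζ.norm'_eq_one hM.ne'
  have hc : (starRingEnd ℂ) ζ * ζ = 1 := by
    rw [mul_comm, Complex.mul_conj, Complex.normSq_eq_norm_sq, hn]; simp
  have hw : ∀ j, (starRingEnd ℂ) ((ζ ^ j) ^ a) * (ζ ^ j) ^ b =
      (((starRingEnd ℂ) ζ) ^ a * ζ ^ b) ^ j := by
    intro j
    rw [map_pow, map_pow]; ring
  simp_rw [hw]
  by_cases hab : a = b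
  · subst hab
    rw [← mul_pow, hc]; simp
  · rw [if_neg hab]
    set w := ((starRingEnd ℂ) ζ) ^ a * ζ ^ b with hwdef
    have hw1 : w ≠ 1 := by
      intro h1
      have : ζ ^ a * w = ζ ^ b := by
        rw [hwdef, ← mul_assoc, ← mul_pow, mul_comm ζ, hc, one_pow, one_mul]
      rw [h1, mul_one] at this
      exact hab (hζ.pow_inj ha hb this)
    have hwM : w ^ M = 1 := by
      rw [hwdef, mul_pow, ← pow_mul, ← pow_mul, mul_comm a, mul_comm b, pow_mul, pow_mul,
        ← map_pow, hζ.pow_eq_one]; simp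
    have := geom_sum_mul w M
    rw [hwM, sub_self] at this
    exact (mul_eq_zero.1 this).resolve_right (sub_ne_zero.2 hw1)

lemma inner_pow {x : ℕ → E} (hx : St x) (h k : ℕ) :
    inner ℂ (x k) (x (h + k)) = inner ℂ (x 0) (x h) := by
  have := hx 0 h k
  rwa [zero_add] at this

/-- Fejér-type inequality -/
theorem fejer_ineq {x : ℕ → E} (hx : St x) (H : ℕ) (hH : 1 ≤ H) (s : ℝ) (hs : 0 ≤ s)
    (hsup : ∀ l : ℂ, ‖l‖ = 1 → ‖dm x l H‖ ≤ s) :
    (H : ℝ)⁻¹ * ∑ h ∈ range H, ‖inner ℂ (x 0) (x h)‖ ^ 2 ≤ 2 * s * ‖x 0‖ ^ 3 := by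
  set N := 2 * H with hN
  set M := 3 * H with hM
  have hM0 : 0 < M := by omega
  have hH0 : (0 : ℝ) < H := by exact_mod_cast hH
  have hMr : (0 : ℝ) < M := by exact_mod_cast hM0
  obtain ⟨ζ, hζ⟩ : ∃ ζ : ℂ, IsPrimitiveRoot ζ M := ⟨_, Complex.isPrimitiveRoot_exp M hM0.ne'⟩
  have hn : ‖ζ‖ = 1 := hζ.norm'_eq_one hM0.ne'
  set Y : ℕ → E := fun j => ∑ k ∈ range N, (ζ ^ j) ^ k • x k with hY
  set Z : ℕ → E := fun j => ∑ h ∈ range H, (ζ ^ j) ^ h • x h with hZ
  have hZn : ∀ j, ‖Z j‖ ≤ H * s := by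
    intro j
    have h1 := hsup (ζ ^ j) (by simp [hn])
    have h2 : Z j = (H : ℂ) • dm x (ζ ^ j) H := by
      rw [dm, smul_smul, mul_inv_cancel₀ (by exact_mod_cast (by omega : H ≠ 0)), one_smul]
    rw [h2, norm_smul, Complex.norm_natCast]
    gcongr
  -- expansion of inner products
  have hYY : ∀ j, inner ℂ (Y j) (Y j) = ∑ k ∈ range N, ∑ m ∈ range N,
      (starRingEnd ℂ) ((ζ ^ j) ^ k) * (ζ ^ j) ^ m * inner ℂ (x k) (x m) := by
    intro j
    simp only [hY]
    rw [sum_inner]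
    refine Finset.sum_congr rfl fun k _ => ?_
    rw [inner_sum]
    refine Finset.sum_congr rfl fun m _ => ?_
    rw [inner_smul_left, inner_smul_right]
    ring
  have hZx : ∀ j, inner ℂ (Z j) (x 0) = ∑ h ∈ range H,
      (starRingEnd ℂ) ((ζ ^ j) ^ h) * (starRingEnd ℂ) (inner ℂ (x 0) (x h)) := by
    intro j
    simp only [hZ]
    rw [sum_inner]
    refine Finset.sum_congr rfl fun h _ => ?_
    rw [inner_smul_left, inner_conj_symm]
  -- total mass
  have hmass : ∑ j ∈ range M, inner ℂ (Y j) (Y j) = (M : ℂ) * (N * inner ℂ (x 0) (x 0)) := by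
    simp_rw [hYY]
    rw [Finset.sum_comm]
    calc ∑ k ∈ range N, ∑ j ∈ range M, ∑ m ∈ range N,
        (starRingEnd ℂ) ((ζ ^ j) ^ k) * (ζ ^ j) ^ m * inner ℂ (x k) (x m)
        = ∑ k ∈ range N, ∑ m ∈ range N, (∑ j ∈ range M,
        (starRingEnd ℂ) ((ζ ^ j) ^ k) * (ζ ^ j) ^ m) * inner ℂ (x k) (x m) := by
          refine Finset.sum_congr rfl fun k _ => ?_
          rw [Finset.sum_comm]
          refine Finset.sum_congr rfl fun m _ => ?_
          rw [Finset.sum_mul]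
      _ = ∑ k ∈ range N, ∑ m ∈ range N, (if k = m then (M : ℂ) else 0) *
          inner ℂ (x k) (x m) := by
          refine Finset.sum_congr rfl fun k hk => Finset.sum_congr rfl fun m hm => ?_
          rw [root_orth M ζ hζ hM0 k m (by have := mem_range.1 hk; omega)
            (by have := mem_range.1 hm; omega)]
      _ = ∑ k ∈ range N, (M : ℂ) * inner ℂ (x 0) (x 0) := by
          refine Finset.sum_congr rfl fun k hk => ?_
          rw [Finset.sum_eq_single k]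
          · rw [if_pos rfl, inner_diag hx]
          · intro m _ hmk
            rw [if_neg (Ne.symm hmk), zero_mul]
          · intro h; exact absurd hk h
      _ = (M : ℂ) * (N * inner ℂ (x 0) (x 0)) := by
          rw [Finset.sum_const, card_range, nsmul_eq_mul]; ring
  -- the main identity
  have hmain : ∑ j ∈ range M, inner ℂ (Y j) (Y j) * inner ℂ (Z j) (x 0)
      = (M : ℂ) * ∑ h ∈ range H, ((N - h : ℕ) : ℂ) *
        ((‖inner ℂ (x 0) (x h)‖ ^ 2 : ℝ) : ℂ) := by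
    have hexp : ∀ j, inner ℂ (Y j) (Y j) * inner ℂ (Z j) (x 0) = ∑ h ∈ range H, ∑ k ∈ range N,
        ∑ m ∈ range N, ((starRingEnd ℂ) ((ζ ^ j) ^ (h + k)) * (ζ ^ j) ^ m) *
          ((starRingEnd ℂ) (inner ℂ (x 0) (x h)) * inner ℂ (x k) (x m)) := by
      intro j
      rw [hYY, hZx, mul_comm, Finset.sum_mul]
      refine Finset.sum_congr rfl fun h _ => ?_
      rw [Finset.mul_sum]
      refine Finset.sum_congr rfl fun k _ => ?_
      rw [Finset.mul_sum]
      refine Finset.sum_congr rfl fun m _ => ?_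
      rw [pow_add, map_mul]; ring
    simp_rw [hexp]
    rw [Finset.sum_comm, Finset.mul_sum]
    refine Finset.sum_congr rfl fun h hh => ?_
    have hhH := mem_range.1 hh
    calc ∑ j ∈ range M, ∑ k ∈ range N,
        ∑ m ∈ range N, ((starRingEnd ℂ) ((ζ ^ j) ^ (h + k)) * (ζ ^ j) ^ m) *
          ((starRingEnd ℂ) (inner ℂ (x 0) (x h)) * inner ℂ (x k) (x m))
        = ∑ k ∈ range N, ∑ m ∈ range N, (∑ j ∈ range M,
          ((starRingEnd ℂ) ((ζ ^ j) ^ (h + k)) * (ζ ^ j) ^ m)) *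
          ((starRingEnd ℂ) (inner ℂ (x 0) (x h)) * inner ℂ (x k) (x m)) := by
          rw [Finset.sum_comm]
          refine Finset.sum_congr rfl fun k _ => ?_
          rw [Finset.sum_comm]
          refine Finset.sum_congr rfl fun m _ => ?_
          rw [Finset.sum_mul]
      _ = ∑ k ∈ range N, ∑ m ∈ range N, (if h + k = m then (M : ℂ) else 0) *
          ((starRingEnd ℂ) (inner ℂ (x 0) (x h)) * inner ℂ (x k) (x m)) := by
          refine Finset.sum_congr rfl fun k hk => Finset.sum_congr rfl fun m hm => ?_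
          have := mem_range.1 hk
          have := mem_range.1 hm
          rw [root_orth M ζ hζ hM0 (h + k) m (by omega) (by omega)]
      _ = ∑ k ∈ range N, (if k < N - h then
          (M : ℂ) * ((‖inner ℂ (x 0) (x h)‖ ^ 2 : ℝ) : ℂ) else 0) := by
          refine Finset.sum_congr rfl fun k hk => ?_
          have hkN := mem_range.1 hk
          by_cases hk2 : k < N - h
          · rw [if_pos hk2, Finset.sum_eq_single (h + k)]
            · rw [if_pos rfl, inner_pow hx, ← Complex.normSq_eq_norm_sq, Complex.normSq_eq_conj_mul_self]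
            · intro m _ hmk
              rw [if_neg (Ne.symm hmk), zero_mul]
            · intro h3; exact absurd (mem_range.2 (by omega)) h3
          · rw [if_neg hk2]
            refine Finset.sum_eq_zero fun m hm => ?_
            have := mem_range.1 hm
            rw [if_neg (by omega), zero_mul]
      _ = (M : ℂ) * (((N - h : ℕ) : ℂ) * ((‖inner ℂ (x 0) (x h)‖ ^ 2 : ℝ) : ℂ)) := by
          rw [← Finset.sum_filter, Finset.sum_const]
          have : (Finset.filter (fun k => k < N - h) (range N)) = range (N - h) := by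
            ext k; simp; omega
          rw [this, card_range, nsmul_eq_mul]; ring
  -- take norms
  have hb1 : ‖∑ j ∈ range M, inner ℂ (Y j) (Y j) * inner ℂ (Z j) (x 0)‖ ≤
      (H * s * ‖x 0‖) * (M * (N * ‖x 0‖ ^ 2)) := by
    refine (norm_sum_le _ _).trans ?_
    have hterm : ∀ j ∈ range M, ‖inner ℂ (Y j) (Y j) * inner ℂ (Z j) (x 0)‖ ≤
        (H * s * ‖x 0‖) * (‖Y j‖ ^ 2) := by
      intro j _
      rw [norm_mul]
      have h1 : ‖inner ℂ (Y j) (Y j)‖ = ‖Y j‖ ^ 2 := by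
        rw [inner_self_eq_norm_sq_to_K]; simp
      have h2 : ‖inner ℂ (Z j) (x 0)‖ ≤ H * s * ‖x 0‖ := by
        refine (norm_inner_le_norm _ _).trans ?_
        exact mul_le_mul_of_nonneg_right (hZn j) (norm_nonneg _)
      rw [h1, mul_comm]
      exact mul_le_mul_of_nonneg_right h2 (by positivity)
    refine (Finset.sum_le_sum hterm).trans ?_
    rw [← Finset.mul_sum]
    have h4 : ∑ j ∈ range M, ‖Y j‖ ^ 2 = M * (N * ‖x 0‖ ^ 2) := by
      have h5 : ((∑ j ∈ range M, ‖Y j‖ ^ 2 : ℝ) : ℂ) = ((M * (N * ‖x 0‖ ^ 2) : ℝ) : ℂ) := by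
        push_cast
        have : ∀ j, ((‖Y j‖ : ℂ)) ^ 2 = inner ℂ (Y j) (Y j) := fun j => by
          rw [inner_self_eq_norm_sq_to_K]; rfl
        simp_rw [this]
        rw [hmass, inner_self_eq_norm_sq_to_K]
        simp
      exact_mod_cast h5
    rw [h4]
  rw [hmain] at hb1
  have hb2 : ‖(M : ℂ) * ∑ h ∈ range H, ((N - h : ℕ) : ℂ) *
        ((‖inner ℂ (x 0) (x h)‖ ^ 2 : ℝ) : ℂ)‖ =
        M * ∑ h ∈ range H, ((N - h : ℕ) : ℝ) * ‖inner ℂ (x 0) (x h)‖ ^ 2 := by
    have : (M : ℂ) * ∑ h ∈ range H, ((N - h : ℕ) : ℂ) *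
        ((‖inner ℂ (x 0) (x h)‖ ^ 2 : ℝ) : ℂ) =
        ((M * ∑ h ∈ range H, ((N - h : ℕ) : ℝ) * ‖inner ℂ (x 0) (x h)‖ ^ 2 : ℝ) : ℂ) := by
      push_cast; rfl
    rw [this, Complex.norm_real, Real.norm_of_nonneg]
    positivity
  rw [hb2] at hb1
  have hb3 : (H : ℝ) * ∑ h ∈ range H, ‖inner ℂ (x 0) (x h)‖ ^ 2 ≤
      ∑ h ∈ range H, ((N - h : ℕ) : ℝ) * ‖inner ℂ (x 0) (x h)‖ ^ 2 := by
    rw [Finset.mul_sum]
    refine Finset.sum_le_sum fun h hh => ?_
    have := mem_range.1 hh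
    have h6 : (H : ℝ) ≤ ((N - h : ℕ) : ℝ) := by exact_mod_cast (by omega : H ≤ N - h)
    gcongr
  have hb4 : (M : ℝ) * ((H : ℝ) * ∑ h ∈ range H, ‖inner ℂ (x 0) (x h)‖ ^ 2) ≤
      M * ((H * s * ‖x 0‖) * (N * ‖x 0‖ ^ 2)) := by
    calc (M : ℝ) * ((H : ℝ) * ∑ h ∈ range H, ‖inner ℂ (x 0) (x h)‖ ^ 2)
        ≤ M * ∑ h ∈ range H, ((N - h : ℕ) : ℝ) * ‖inner ℂ (x 0) (x h)‖ ^ 2 := by gcongr
      _ ≤ _ := hb1
      _ = _ := by ring
  have hb5 := le_of_mul_le_mul_left hb4 hMr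
  have hNr : (N : ℝ) = 2 * H := by rw [hN]; push_cast; ring
  rw [hNr] at hb5
  have hb6 : ∑ h ∈ range H, ‖inner ℂ (x 0) (x h)‖ ^ 2 ≤ s * ‖x 0‖ * (2 * H * ‖x 0‖ ^ 2) := by
    have : (H : ℝ) * ∑ h ∈ range H, ‖inner ℂ (x 0) (x h)‖ ^ 2 ≤
        H * (s * ‖x 0‖ * (2 * H * ‖x 0‖ ^ 2)) := by
      refine hb5.trans (le_of_eq ?_); ring
    exact le_of_mul_le_mul_left this hH0
  calc (H : ℝ)⁻¹ * ∑ h ∈ range H, ‖inner ℂ (x 0) (x h)‖ ^ 2
      ≤ (H : ℝ)⁻¹ * (s * ‖x 0‖ * (2 * H * ‖x 0‖ ^ 2)) := by gcongr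
    _ = 2 * s * ‖x 0‖ ^ 3 := by field_simp


/-- far from the frequency zero -/
theorem far {x : ℕ → E} {C δ : ℝ} (hC : ∀ n, ‖x n‖ ≤ C) {z : ℂ} (hz : ‖z‖ = 1) (m : ℕ)
    (hm : 1 ≤ ‖1 - z ^ m‖) (hδ : ∀ n, ‖x (n + m) - x n‖ ≤ δ) (N : ℕ) (hN : 0 < N) :
    ‖dm x z N‖ ≤ δ + 2 * m * C / N := by
  have hNr : (0 : ℝ) < N := by exact_mod_cast hN
  set S := ∑ n ∈ range N, z ^ n • x n with hS
  have h1 : ∑ n ∈ range (N + m), z ^ n • x n = S + ∑ i ∈ range m, z ^ (N + i) • x (N + i) :=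
    Finset.sum_range_add _ _ _
  have h2 : ∑ n ∈ range (m + N), z ^ n • x n =
      ∑ n ∈ range m, z ^ n • x n + ∑ n ∈ range N, z ^ (m + n) • x (m + n) :=
    Finset.sum_range_add _ _ _
  have h3 : ∑ n ∈ range N, z ^ (m + n) • x (m + n) = z ^ m • S +
      ∑ n ∈ range N, z ^ (m + n) • (x (n + m) - x n) := by
    rw [hS, Finset.smul_sum, ← Finset.sum_add_distrib]
    refine Finset.sum_congr rfl fun n _ => ?_
    rw [smul_smul, ← pow_add, smul_sub, add_comm n m]
    abel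
  have h4 : (1 - z ^ m) • S = ∑ n ∈ range m, z ^ n • x n +
      ∑ n ∈ range N, z ^ (m + n) • (x (n + m) - x n) -
      ∑ i ∈ range m, z ^ (N + i) • x (N + i) := by
    rw [add_comm m N, h1, h3] at h2
    rw [sub_smul, one_smul]
    have h5 : S = ∑ n ∈ range m, z ^ n • x n + (z ^ m • S +
      ∑ n ∈ range N, z ^ (m + n) • (x (n + m) - x n)) -
      ∑ i ∈ range m, z ^ (N + i) • x (N + i) := by
      rw [← h2]; abel
    rw [sub_eq_iff_eq_add]
    conv_lhs => rw [h5]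
    abel
  have hp : ∀ n : ℕ, ‖z ^ n‖ = 1 := fun n => by rw [norm_pow, hz, one_pow]
  have b1 : ‖∑ n ∈ range m, z ^ n • x n‖ ≤ m * C := by
    refine (norm_sum_le _ _).trans ?_
    refine (Finset.sum_le_sum (g := fun _ => C) fun n _ => ?_).trans (le_of_eq (by simp))
    rw [norm_smul, hp, one_mul]
    exact hC n
  have b2 : ‖∑ i ∈ range m, z ^ (N + i) • x (N + i)‖ ≤ m * C := by
    refine (norm_sum_le _ _).trans ?_
    refine (Finset.sum_le_sum (g := fun _ => C) fun n _ => ?_).trans (le_of_eq (by simp))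
    rw [norm_smul, hp, one_mul]
    exact hC _
  have b3 : ‖∑ n ∈ range N, z ^ (m + n) • (x (n + m) - x n)‖ ≤ N * δ := by
    refine (norm_sum_le _ _).trans ?_
    refine (Finset.sum_le_sum (g := fun _ => δ) fun n _ => ?_).trans (le_of_eq (by simp))
    rw [norm_smul, hp, one_mul]
    exact hδ _
  have b4 : ‖S‖ ≤ m * C + N * δ + m * C := by
    have e1 : ‖S‖ ≤ ‖1 - z ^ m‖ * ‖S‖ := le_mul_of_one_le_left (norm_nonneg _) hm
    rw [← norm_smul, h4] at e1
    refine e1.trans ((norm_sub_le _ _).trans (add_le_add ((norm_add_le _ _).trans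
      (add_le_add b1 b3)) b2))
  unfold dm
  rw [norm_smul, norm_inv, Complex.norm_natCast]
  calc (N : ℝ)⁻¹ * ‖S‖ ≤ (N : ℝ)⁻¹ * (m * C + N * δ + m * C) := by gcongr
    _ = δ + 2 * m * C / N := by field_simp; ring

/-- Riemann sums -/
theorem riem [CompleteSpace E] {F : ℝ → E} (hF : Continuous F) {h η : ℝ} (hh : 0 < h)
    (hη : ∀ (n : ℕ) (s : ℝ), n * h ≤ s → s ≤ (n + 1) * h → ‖F s - F (n * h)‖ ≤ η) (M : ℕ) :
    ‖(∫ s in (0 : ℝ)..(M * h), F s) - (h : ℂ) • ∑ n ∈ range M, F (n * h)‖ ≤ M * h * η := by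
  induction M with
  | zero => simp
  | succ M ih =>
    have hi : ∀ a b : ℝ, IntervalIntegrable F volume a b := fun a b => hF.intervalIntegrable a b
    have e1 : ∫ s in (0 : ℝ)..((M + 1 : ℕ) * h), F s =
        (∫ s in (0 : ℝ)..(M * h), F s) + ∫ s in (M * h : ℝ)..((M + 1 : ℕ) * h), F s :=
      (intervalIntegral.integral_add_adjacent_intervals (hi _ _) (hi _ _)).symm
    have hle : (M : ℝ) * h ≤ (M + 1 : ℕ) * h := by
      push_cast
      nlinarith
    have e2 : (∫ s in (M * h : ℝ)..((M + 1 : ℕ) * h), F s) - (h : ℂ) • F (M * h) =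
        ∫ s in (M * h : ℝ)..((M + 1 : ℕ) * h), (F s - F (M * h)) := by
      rw [intervalIntegral.integral_sub (hi _ _) intervalIntegrable_const,
        intervalIntegral.integral_const]
      congr 1
      have e3 : ((M + 1 : ℕ) : ℝ) * h - M * h = h := by push_cast; ring
      rw [e3]
      rfl
    have e4 : ‖∫ s in (M * h : ℝ)..((M + 1 : ℕ) * h), (F s - F (M * h))‖ ≤ h * η := by
      have h1 := intervalIntegral.norm_integral_le_of_norm_le_const (a := (M * h : ℝ))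
        (b := ((M + 1 : ℕ) * h : ℝ)) (f := fun s => F s - F (M * h)) (C := η) (fun s hs => by
          rw [Set.uIoc_of_le hle] at hs
          refine hη M s hs.1.le ?_
          have := hs.2
          push_cast at this
          exact this)
      have e3 : ((M + 1 : ℕ) : ℝ) * h - M * h = h := by push_cast; ring
      rw [e3, abs_of_pos hh] at h1
      linarith
    have e5 : (∫ s in (0 : ℝ)..((M + 1 : ℕ) * h), F s) -
        (h : ℂ) • ∑ n ∈ range (M + 1), F (n * h) =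
        ((∫ s in (0 : ℝ)..(M * h), F s) - (h : ℂ) • ∑ n ∈ range M, F (n * h)) +
        ((∫ s in (M * h : ℝ)..((M + 1 : ℕ) * h), F s) - (h : ℂ) • F (M * h)) := by
      rw [e1, Finset.sum_range_succ, smul_add]
      abel
    rw [e5, e2]
    refine (norm_add_le _ _).trans ((add_le_add ih e4).trans (le_of_eq ?_))
    push_cast
    ring

/-- upper sums -/
theorem upper {G : ℝ → ℝ} (hG : Continuous G) {h : ℝ} (hh : 0 < h) {b : ℕ → ℝ}
    (hb : ∀ (n : ℕ) (s : ℝ), n * h ≤ s → s ≤ (n + 1) * h → G s ≤ b n) (M : ℕ) :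
    (∫ s in (0 : ℝ)..(M * h), G s) ≤ h * ∑ n ∈ range M, b n := by
  induction M with
  | zero => simp
  | succ M ih =>
    have hi : ∀ a b : ℝ, IntervalIntegrable G volume a b := fun a b => hG.intervalIntegrable a b
    have e1 : ∫ s in (0 : ℝ)..((M + 1 : ℕ) * h), G s =
        (∫ s in (0 : ℝ)..(M * h), G s) + ∫ s in (M * h : ℝ)..((M + 1 : ℕ) * h), G s :=
      (intervalIntegral.integral_add_adjacent_intervals (hi _ _) (hi _ _)).symm
    have hle : (M : ℝ) * h ≤ (M + 1 : ℕ) * h := by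
      push_cast
      nlinarith
    have e2 : ∫ s in (M * h : ℝ)..((M + 1 : ℕ) * h), G s ≤ h * b M := by
      have h1 := intervalIntegral.integral_mono_on hle (hi _ _)
        (intervalIntegrable_const (c := b M)) (fun s hs => by
          refine hb M s hs.1 ?_
          have := hs.2
          push_cast at this
          exact this)
      rw [intervalIntegral.integral_const] at h1
      have e3 : ((M + 1 : ℕ) : ℝ) * h - M * h = h := by push_cast; ring
      rw [e3] at h1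
      exact h1
    rw [e1, Finset.sum_range_succ, mul_add]
    exact add_le_add ih e2


end

end Pool.Agent.H988.WM.Abs
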