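import Pool.Agent.H988.WM.Abs
import Pool.Agent.H988.WM.Tw

/-! # Stationary curves in a Hilbert space: continuous time -/

set_option autoImplicit false

open Finset Filter Topology MeasureTheory
open scoped InnerProductSpace ComplexConjugate

namespace Pool.Agent.H988.WM.Abs

open Pool.Agent.H988.WM (ph ph_norm ph_cont ph_add ph_conj ph_mul_neg)

noncomputable section

variable {E : Type*} [NormedAddCommGroup E] [InnerProductSpace ℂ E]

theorem ph_lip (μ s t : ℝ) : ‖ph μ s - ph μ t‖ ≤ |μ| * |s - t| := by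
  have h1 : ph μ s - ph μ t = ph μ t * (ph μ (s - t) - 1) := by
    rw [mul_sub, ← ph_add, mul_one]
    congr 2
    ring
  have h2 : ph μ (s - t) = Complex.exp (Complex.I * ((-(μ * (s - t)) : ℝ) : ℂ)) := by
    unfold Pool.Agent.H988.WM.ph
    congr 1
    push_cast
    ring
  rw [h1, norm_mul, ph_norm, one_mul, h2]
  refine (Real.norm_exp_I_mul_ofReal_sub_one_le).trans (le_of_eq ?_)
  rw [Real.norm_eq_abs, abs_neg, abs_mul]

/-- stationary curves -/
structure SC (y : ℝ → E) : Prop where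
  st : ∀ s t a : ℝ, inner ℂ (y (s + a)) (y (t + a)) = inner ℂ (y s) (y t)
  ct : Continuous y

theorem SC.nrm {y : ℝ → E} (hy : SC y) (s : ℝ) : ‖y s‖ = ‖y 0‖ := by
  have h := hy.st 0 0 s
  rw [zero_add, inner_self_eq_norm_sq_to_K, inner_self_eq_norm_sq_to_K] at h
  have h2 : ‖y s‖ ^ 2 = ‖y 0‖ ^ 2 := by exact_mod_cast h
  exact (sq_eq_sq₀ (norm_nonneg _) (norm_nonneg _)).1 h2

theorem SC.dif {y : ℝ → E} (hy : SC y) (s r : ℝ) : ‖y (s + r) - y s‖ = ‖y r - y 0‖ := by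
  have h1 : inner ℂ (y (s + r) - y s) (y (s + r) - y s) =
      inner ℂ (y r - y 0) (y r - y 0) := by
    have e1 : y (s + r) = y (r + s) := by rw [add_comm]
    have e2 : y s = y (0 + s) := by rw [zero_add]
    rw [e1, e2, inner_sub_left, inner_sub_right, inner_sub_right, inner_sub_left, inner_sub_right,
      inner_sub_right, hy.st, hy.st, hy.st, hy.st]
  rw [inner_self_eq_norm_sq_to_K, inner_self_eq_norm_sq_to_K] at h1
  have h2 : ‖y (s + r) - y s‖ ^ 2 = ‖y r - y 0‖ ^ 2 := by exact_mod_cast h1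
  exact (sq_eq_sq₀ (norm_nonneg _) (norm_nonneg _)).1 h2

theorem SC.seq {y : ℝ → E} (hy : SC y) (h : ℝ) : St (fun n : ℕ => y (n * h)) := by
  intro m n k
  have h1 := hy.st (m * h) (n * h) (k * h)
  show inner ℂ (y ((m + k : ℕ) * h)) (y ((n + k : ℕ) * h)) = _
  push_cast
  rw [add_mul, add_mul]
  exact h1

theorem SC.modulus {y : ℝ → E} (hy : SC y) {ε : ℝ} (hε : 0 < ε) :
    ∃ r0 : ℝ, 0 < r0 ∧ ∀ r, |r| ≤ r0 → ‖y r - y 0‖ < ε := by
  obtain ⟨δ, hδ, h⟩ := Metric.continuousAt_iff.1 (hy.ct.continuousAt (x := 0)) ε hε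
  refine ⟨δ / 2, by positivity, fun r hr => ?_⟩
  have h1 := h (x := r) (by rw [Real.dist_eq, sub_zero]; linarith)
  rwa [dist_eq_norm] at h1

theorem small [CompleteSpace E] {y : ℝ → E} (hy : SC y)
    (hM : ∀ μ : ℝ, Tendsto (fun N : ℕ => ((N : ℂ)⁻¹) • ∫ s in (0 : ℝ)..(N : ℝ), ph μ s • y s) atTop
      (𝓝 0)) {ε : ℝ} (hε : 0 < ε) {h0 : ℝ} (hh0 : 0 < h0) :
    ∃ h : ℝ, 0 < h ∧ h ≤ h0 ∧ ∀ z : ℂ, ‖z‖ = 1 →
      ∃ k, ‖dm (fun n : ℕ => y (n * h)) z (2 ^ k)‖ < ε := by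
  set C := ‖y 0‖ with hC
  have hC0 : 0 ≤ C := norm_nonneg _
  obtain ⟨r0, hr0, hr⟩ := hy.modulus (ε := ε / 4) (by positivity)
  have hπ := Real.pi_pos
  set R : ℝ := Real.pi / r0 with hR
  have hR0 : 0 < R := by positivity
  have hden : 0 < 4 * (R * (C + 1)) := by positivity
  obtain ⟨j, hj⟩ := exists_pow_lt_of_lt_one
    (show 0 < min h0 (min r0 (ε / (4 * (R * (C + 1))))) from
      lt_min hh0 (lt_min hr0 (by positivity))) (show (1 / 2 : ℝ) < 1 by norm_num)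
  set h : ℝ := (1 / 2) ^ j with hh
  have hpos : 0 < h := by positivity
  have hle0 : h ≤ h0 := hj.le.trans (min_le_left _ _)
  have hler : h ≤ r0 := hj.le.trans ((min_le_right _ _).trans (min_le_left _ _))
  have hlee : h ≤ ε / (4 * (R * (C + 1))) :=
    hj.le.trans ((min_le_right _ _).trans (min_le_right _ _))
  have hRh : R * h * C ≤ ε / 4 := by
    rw [le_div_iff₀ hden] at hlee
    have h1 : R * h * C ≤ R * h * (C + 1) := by
      apply mul_le_mul_of_nonneg_left (by linarith) (by positivity)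
    nlinarith
  refine ⟨h, hpos, hle0, fun z hz => ?_⟩
  set θ := Complex.arg z with hθ
  have hzθ : z = Complex.exp (θ * Complex.I) := by
    have := Complex.norm_mul_exp_arg_mul_I z
    rw [hz, Complex.ofReal_one, one_mul] at this
    exact this.symm
  by_cases ha : |θ| ≤ R * h
  · -- close to the frequency zero
    set μ : ℝ := -θ / h with hμ
    have hμh : μ * h = -θ := by rw [hμ]; field_simp
    have hzn : ∀ n : ℕ, ph μ (n * h) = z ^ n := by
      intro n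
      rw [hzθ, ← Complex.exp_nat_mul]
      unfold Pool.Agent.H988.WM.ph
      congr 1
      have h1 : ((μ : ℝ) : ℂ) * ((h : ℝ) : ℂ) = -((θ : ℝ) : ℂ) := by
        rw [← Complex.ofReal_mul, hμh, Complex.ofReal_neg]
      push_cast
      linear_combination (-(Complex.I * n)) * h1
    set F : ℝ → E := fun s => ph μ s • y s with hF
    have hFc : Continuous F := (ph_cont μ).smul hy.ct
    have hη : ∀ (n : ℕ) (s : ℝ), n * h ≤ s → s ≤ (n + 1) * h →
        ‖F s - F (n * h)‖ ≤ ε / 4 + R * h * C := by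
      intro n s h1 h2
      have e1 : F s - F (n * h) = ph μ s • (y s - y (n * h)) +
          (ph μ s - ph μ (n * h)) • y (n * h) := by
        show ph μ s • y s - ph μ (n * h) • y (n * h) = _
        rw [smul_sub, sub_smul]
        abel
      have hab : |s - n * h| ≤ h := by
        rw [abs_of_nonneg (by linarith)]
        linarith
      have e2 : ‖y s - y (n * h)‖ ≤ ε / 4 := by
        have := hy.dif (n * h) (s - n * h)
        rw [add_sub_cancel] at this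
        rw [this]
        exact (hr _ (hab.trans hler)).le
      have e3 : ‖ph μ s - ph μ (n * h)‖ ≤ R * h := by
        refine (ph_lip μ s (n * h)).trans ?_
        calc |μ| * |s - n * h| ≤ |μ| * h := mul_le_mul_of_nonneg_left hab (abs_nonneg _)
          _ = |μ * h| := by rw [abs_mul, abs_of_pos hpos]
          _ = |θ| := by rw [hμh, abs_neg]
          _ ≤ R * h := ha
      rw [e1]
      refine (norm_add_le _ _).trans ?_
      rw [norm_smul, norm_smul, ph_norm, one_mul, hy.nrm (n * h)]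
      exact add_le_add e2 (mul_le_mul_of_nonneg_right e3 hC0)
    have h2i : Tendsto (fun i : ℕ => 2 ^ i) atTop atTop :=
      tendsto_pow_atTop_atTop_of_one_lt (by norm_num)
    have h3 := ((hM μ).comp h2i).norm
    rw [norm_zero] at h3
    obtain ⟨i, hi⟩ := (h3.eventually (gt_mem_nhds (half_pos hε))).exists
    refine ⟨j + i, ?_⟩
    have h4 := riem hFc hpos hη (2 ^ (j + i))
    have hMh : ((2 ^ (j + i) : ℕ) : ℝ) * h = ((2 ^ i : ℕ) : ℝ) := by
      rw [hh]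
      push_cast
      rw [pow_add, mul_comm (2 ^ j : ℝ), mul_assoc, ← mul_pow]
      norm_num
    rw [hMh] at h4
    have h2pos : (0 : ℝ) < ((2 ^ i : ℕ) : ℝ) := by positivity
    have hsum : ∑ n ∈ range (2 ^ (j + i)), F (n * h) =
        ∑ n ∈ range (2 ^ (j + i)), z ^ n • y (n * h) := by
      refine Finset.sum_congr rfl fun n _ => ?_
      show ph μ (n * h) • y (n * h) = _
      rw [hzn]
    have h5 : dm (fun n : ℕ => y (n * h)) z (2 ^ (j + i)) =
        (((2 ^ i : ℕ) : ℂ)⁻¹) • (∫ s in (0 : ℝ)..((2 ^ i : ℕ) : ℝ), ph μ s • y s) -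
        (((2 ^ i : ℕ) : ℂ)⁻¹) • ((∫ s in (0 : ℝ)..((2 ^ i : ℕ) : ℝ), F s) -
          (h : ℂ) • ∑ n ∈ range (2 ^ (j + i)), F (n * h)) := by
      rw [smul_sub, sub_sub_cancel, smul_smul, hsum]
      unfold dm
      congr 1
      have hMc : (((2 ^ (j + i) : ℕ) : ℂ)) * (h : ℂ) = ((2 ^ i : ℕ) : ℂ) := by
        exact_mod_cast hMh
      rw [← hMc]
      have hhc : (h : ℂ) ≠ 0 := by exact_mod_cast hpos.ne'
      have h2c : (((2 ^ (j + i) : ℕ) : ℂ)) ≠ 0 := by
        exact_mod_cast (by positivity : (2 ^ (j + i) : ℕ) ≠ 0)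
      field_simp
    rw [h5]
    refine (norm_sub_le _ _).trans_lt ?_
    have h6 : ‖(((2 ^ i : ℕ) : ℂ)⁻¹) • ((∫ s in (0 : ℝ)..((2 ^ i : ℕ) : ℝ), F s) -
          (h : ℂ) • ∑ n ∈ range (2 ^ (j + i)), F (n * h))‖ ≤ ε / 4 + R * h * C := by
      rw [norm_smul, norm_inv, Complex.norm_natCast, inv_mul_le_iff₀ h2pos]
      exact h4
    have h7 : ‖(((2 ^ i : ℕ) : ℂ)⁻¹) • (∫ s in (0 : ℝ)..((2 ^ i : ℕ) : ℝ), ph μ s • y s)‖ <
        ε / 2 := hi
    linarith
  · -- far from the frequency zero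
    push Not at ha
    have ha0 : 0 < |θ| := lt_trans (by positivity) ha
    have haπ : |θ| ≤ Real.pi := Complex.abs_arg_le_pi z
    set m : ℕ := ⌊Real.pi / |θ|⌋₊ with hm
    have hm1 : (m : ℝ) ≤ Real.pi / |θ| := Nat.floor_le (by positivity)
    have hm2 : Real.pi / |θ| < m + 1 := Nat.lt_floor_add_one _
    have hm3 : 1 ≤ m := by
      rw [hm, Nat.one_le_floor_iff]
      rwa [one_le_div ha0]
    have hm3r : (1 : ℝ) ≤ m := by exact_mod_cast hm3
    rw [le_div_iff₀ ha0] at hm1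
    rw [div_lt_iff₀ ha0] at hm2
    have hma : Real.pi / 2 ≤ m * |θ| := by nlinarith
    have hre : (1 - z ^ m).re = 1 - Real.cos (m * |θ|) := by
      have h1 : z ^ m = Complex.exp (((m * θ : ℝ) : ℂ) * Complex.I) := by
        rw [hzθ, ← Complex.exp_nat_mul]
        congr 1
        push_cast
        ring
      rw [h1, Complex.sub_re, Complex.one_re, Complex.exp_ofReal_mul_I_re]
      congr 1
      rw [← Real.cos_abs, abs_mul, Nat.abs_cast]
    have hcos : Real.cos (m * |θ|) ≤ 0 :=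
      Real.cos_nonpos_of_pi_div_two_le_of_le hma (by linarith)
    have hge : 1 ≤ ‖1 - z ^ m‖ := by
      refine le_trans ?_ (Complex.re_le_norm _)
      rw [hre]
      linarith
    have hmh : (m : ℝ) * h ≤ r0 := by
      have h1 : R * (m * h) ≤ Real.pi := by
        have h2 : R * h * m ≤ |θ| * m := mul_le_mul_of_nonneg_right ha.le (by positivity)
        calc R * (m * h) = R * h * m := by ring
          _ ≤ |θ| * m := h2
          _ = m * |θ| := by ring
          _ ≤ Real.pi := hm1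
      rw [hR, div_mul_eq_mul_div, div_le_iff₀ hr0] at h1
      exact le_of_mul_le_mul_left h1 hπ
    obtain ⟨k, hk⟩ := pow_unbounded_of_one_lt (2 * m * C / (ε / 2)) (show (1 : ℝ) < 2 by norm_num)
    refine ⟨k, ?_⟩
    have h8 := far (x := fun n : ℕ => y (n * h)) (C := C) (δ := ε / 4)
      (fun n => (hy.nrm _).le) hz m hge (fun n => by
        show ‖y ((n + m : ℕ) * h) - y (n * h)‖ ≤ ε / 4
        have h9 := hy.dif (n * h) (m * h)
        push_cast
        rw [add_mul, h9]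
        refine (hr _ ?_).le
        rw [abs_of_nonneg (by positivity)]
        exact hmh) (2 ^ k) (by positivity)
    refine h8.trans_lt ?_
    have h10 : 2 * m * C / ((2 ^ k : ℕ) : ℝ) < ε / 2 := by
      have h11 : (0 : ℝ) < ((2 ^ k : ℕ) : ℝ) := by positivity
      rw [div_lt_iff₀ h11]
      rw [div_lt_iff₀ (by positivity)] at hk
      push_cast
      linarith
    linarith

/-- from dyadic times to all times -/
theorem dyadic {G : ℝ → ℝ} (hG : Continuous G) (hG0 : ∀ s, 0 ≤ G s) {h η : ℝ} (hh : 0 < h)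
    (k₀ : ℕ)
    (hk : ∀ k ≥ k₀, ∫ s in (0 : ℝ)..((2 ^ k : ℕ) * h), G s ≤ (2 ^ k : ℕ) * h * η) (T : ℝ)
    (hT : (2 ^ k₀ : ℕ) * h ≤ T) : ∫ s in (0 : ℝ)..T, G s ≤ 2 * η * T := by
  have hx : 1 ≤ T / ((2 ^ k₀ : ℕ) * h) := by
    rw [one_le_div (by positivity)]
    exact hT
  obtain ⟨i, h1, h2⟩ := exists_nat_pow_near hx (show (1 : ℝ) < 2 by norm_num)
  rw [le_div_iff₀ (by positivity)] at h1
  rw [div_lt_iff₀ (by positivity)] at h2
  have hT0 : 0 < T := lt_of_lt_of_le (by positivity) hT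
  have h3 : T ≤ (2 ^ (k₀ + (i + 1)) : ℕ) * h := by
    have e : ((2 ^ (k₀ + (i + 1)) : ℕ) : ℝ) * h = 2 ^ (i + 1) * ((2 ^ k₀ : ℕ) * h) := by
      push_cast
      rw [pow_add]
      ring
    rw [e]
    exact h2.le
  have h4 := hk (k₀ + (i + 1)) (by omega)
  have h5 : ∫ s in (0 : ℝ)..T, G s ≤ ∫ s in (0 : ℝ)..((2 ^ (k₀ + (i + 1)) : ℕ) * h), G s := by
    have e := intervalIntegral.integral_add_adjacent_intervals (μ := volume)
      (hG.intervalIntegrable 0 T)
      (hG.intervalIntegrable T ((2 ^ (k₀ + (i + 1)) : ℕ) * h))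
    have := intervalIntegral.integral_nonneg (μ := volume) h3 fun s _ => hG0 s
    linarith
  have hη : 0 ≤ η := by
    have h6 : 0 ≤ ∫ s in (0 : ℝ)..((2 ^ k₀ : ℕ) * h), G s :=
      intervalIntegral.integral_nonneg (by positivity) fun s _ => hG0 s
    have h7 := h6.trans (hk k₀ le_rfl)
    have h8 : (0 : ℝ) < (2 ^ k₀ : ℕ) * h := by positivity
    exact nonneg_of_mul_nonneg_right h7 h8
  have h6 : ((2 ^ (k₀ + (i + 1)) : ℕ) : ℝ) * h ≤ 2 * T := by
    have e : ((2 ^ (k₀ + (i + 1)) : ℕ) : ℝ) * h = 2 * (2 ^ i * ((2 ^ k₀ : ℕ) * h)) := by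
      push_cast
      rw [pow_add, pow_succ]
      ring
    rw [e]
    linarith
  calc ∫ s in (0 : ℝ)..T, G s ≤ (2 ^ (k₀ + (i + 1)) : ℕ) * h * η := h5.trans h4
    _ ≤ 2 * T * η := mul_le_mul_of_nonneg_right h6 hη
    _ = 2 * η * T := by ring

/-- the square of the autocorrelation tends to zero in mean -/
theorem l2 [CompleteSpace E] {y : ℝ → E} (hy : SC y)
    (hM : ∀ μ : ℝ, Tendsto (fun N : ℕ => ((N : ℂ)⁻¹) • ∫ s in (0 : ℝ)..(N : ℝ), ph μ s • y s) atTop
      (𝓝 0)) {η : ℝ} (hη : 0 < η) :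
    ∃ T0 : ℝ, 0 < T0 ∧ ∀ T ≥ T0, ∫ s in (0 : ℝ)..T, ‖inner ℂ (y 0) (y s)‖ ^ 2 ≤ η * T := by
  set C := ‖y 0‖ with hC
  have hC0 : 0 ≤ C := norm_nonneg _
  set ε : ℝ := min 1 (η / (8 * C ^ 3 + 4 * C ^ 2 + 1)) with hε
  have hε0 : 0 < ε := lt_min one_pos (by positivity)
  have hε1 : ε ≤ 1 := min_le_left _ _
  have hε2 : ε * (8 * C ^ 3 + 4 * C ^ 2) ≤ η := by
    have h1 : ε ≤ η / (8 * C ^ 3 + 4 * C ^ 2 + 1) := min_le_right _ _
    rw [le_div_iff₀ (by positivity)] at h1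
    nlinarith
  obtain ⟨r0, hr0, hr⟩ := hy.modulus hε0
  obtain ⟨h, hh, hhr, hz⟩ := small hy hM hε0 hr0
  have hst := hy.seq h
  obtain ⟨k₀, hk₀⟩ := unif hst hz
  have hGc : Continuous fun s => ‖inner ℂ (y 0) (y s)‖ ^ 2 :=
    ((continuous_const.inner hy.ct).norm).pow 2
  refine ⟨(2 ^ k₀ : ℕ) * h, by positivity, fun T hT => ?_⟩
  have hkey : ∀ k ≥ k₀, ∫ s in (0 : ℝ)..((2 ^ k : ℕ) * h), ‖inner ℂ (y 0) (y s)‖ ^ 2 ≤
      (2 ^ k : ℕ) * h * (4 * ε * C ^ 3 + 2 * (C * ε) ^ 2) := by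
    intro k hk
    have h1 := upper hGc hh (b := fun n : ℕ => 2 * ‖inner ℂ (y 0) (y (n * h))‖ ^ 2 +
      2 * (C * ε) ^ 2) (fun n s h1 h2 => by
        have e1 : ‖y s - y (n * h)‖ ≤ ε := by
          have := hy.dif (n * h) (s - n * h)
          rw [add_sub_cancel] at this
          rw [this]
          refine (hr _ ?_).le
          rw [abs_of_nonneg (by linarith)]
          linarith
        have e2 : ‖inner ℂ (y 0) (y s)‖ ≤ ‖inner ℂ (y 0) (y (n * h))‖ + C * ε := by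
          have e3 : inner ℂ (y 0) (y s) = inner ℂ (y 0) (y (n * h)) +
              inner ℂ (y 0) (y s - y (n * h)) := by
            rw [← inner_add_right, add_sub_cancel]
          rw [e3]
          refine (norm_add_le _ _).trans (add_le_add le_rfl ?_)
          exact (norm_inner_le_norm _ _).trans (mul_le_mul_of_nonneg_left e1 hC0)
        have e4 : ‖inner ℂ (y 0) (y s)‖ ^ 2 ≤ (‖inner ℂ (y 0) (y (n * h))‖ + C * ε) ^ 2 :=
          pow_le_pow_left₀ (norm_nonneg _) e2 2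
        nlinarith [sq_nonneg (‖inner ℂ (y 0) (y (n * h))‖ - C * ε)]) (2 ^ k)
    refine h1.trans ?_
    have h2 := fejer_ineq hst (2 ^ k) Nat.one_le_two_pow ε hε0.le fun l hl => (hk₀ k hk l hl).le
    have h2' : ((2 ^ k : ℕ) : ℝ)⁻¹ * ∑ n ∈ range (2 ^ k), ‖inner ℂ (y 0) (y (n * h))‖ ^ 2 ≤
        2 * ε * C ^ 3 := by
      simpa using h2
    have hMp : (0 : ℝ) < ((2 ^ k : ℕ) : ℝ) := by positivity
    rw [inv_mul_le_iff₀ hMp] at h2'
    rw [Finset.sum_add_distrib, ← Finset.mul_sum, Finset.sum_const, card_range, nsmul_eq_mul]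
    calc h * (2 * ∑ n ∈ range (2 ^ k), ‖inner ℂ (y 0) (y (n * h))‖ ^ 2 +
          ((2 ^ k : ℕ) : ℝ) * (2 * (C * ε) ^ 2))
        ≤ h * (2 * (((2 ^ k : ℕ) : ℝ) * (2 * ε * C ^ 3)) +
          ((2 ^ k : ℕ) : ℝ) * (2 * (C * ε) ^ 2)) := by gcongr
      _ = _ := by ring
  have h3 := dyadic hGc (fun s => by positivity) hh k₀ hkey T hT
  refine h3.trans ?_
  have hT0 : 0 ≤ T := le_trans (by positivity) hT
  refine mul_le_mul_of_nonneg_right ?_ hT0
  have h5 : (C * ε) ^ 2 ≤ C ^ 2 * ε := by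
    have : (C * ε) ^ 2 = C ^ 2 * (ε * ε) := by ring
    rw [this]
    have h6 : ε * ε ≤ ε := by nlinarith
    gcongr
  nlinarith

/-- the autocorrelation tends to zero in mean -/
theorem l1 [CompleteSpace E] {y : ℝ → E} (hy : SC y)
    (hM : ∀ μ : ℝ, Tendsto (fun N : ℕ => ((N : ℂ)⁻¹) • ∫ s in (0 : ℝ)..(N : ℝ), ph μ s • y s) atTop
      (𝓝 0)) {η : ℝ} (hη : 0 < η) :
    ∃ T0 : ℝ, 0 < T0 ∧ ∀ T ≥ T0, ∫ s in (0 : ℝ)..T, ‖inner ℂ (y 0) (y s)‖ ≤ η * T := by
  obtain ⟨T0, hT0, h⟩ := l2 hy hM (η := η ^ 2) (by positivity)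
  refine ⟨T0, hT0, fun T hT => ?_⟩
  have h1 := h T hT
  have hTp : 0 ≤ T := hT0.le.trans hT
  have hc : Continuous fun s => ‖inner ℂ (y 0) (y s)‖ := (continuous_const.inner hy.ct).norm
  have h2 : ∫ s in (0 : ℝ)..T, ‖inner ℂ (y 0) (y s)‖ ≤
      ∫ s in (0 : ℝ)..T, (η / 2 + (2 * η)⁻¹ * ‖inner ℂ (y 0) (y s)‖ ^ 2) := by
    refine intervalIntegral.integral_mono_on hTp (hc.intervalIntegrable _ _)
      ((continuous_const.add (continuous_const.mul (hc.pow 2))).intervalIntegrable _ _)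
      fun s _ => ?_
    have h3 := sq_nonneg (‖inner ℂ (y 0) (y s)‖ - η)
    have h4 : ‖inner ℂ (y 0) (y s)‖ * (2 * η) ≤ η ^ 2 + ‖inner ℂ (y 0) (y s)‖ ^ 2 := by nlinarith
    have h5 : η / 2 + (2 * η)⁻¹ * ‖inner ℂ (y 0) (y s)‖ ^ 2 =
        (η ^ 2 + ‖inner ℂ (y 0) (y s)‖ ^ 2) / (2 * η) := by
      field_simp
    rw [h5, le_div_iff₀ (by positivity)]
    exact h4
  refine h2.trans ?_
  have hc2 : Continuous fun s => (2 * η)⁻¹ * ‖inner ℂ (y 0) (y s)‖ ^ 2 :=
    continuous_const.mul (hc.pow 2)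
  rw [intervalIntegral.integral_add (intervalIntegrable_const)
    (hc2.intervalIntegrable _ _),
    intervalIntegral.integral_const, intervalIntegral.integral_const_mul, sub_zero, smul_eq_mul]
  have h6 : (2 * η)⁻¹ * ∫ s in (0 : ℝ)..T, ‖inner ℂ (y 0) (y s)‖ ^ 2 ≤ (2 * η)⁻¹ * (η ^ 2 * T) := by
    gcongr
  have h7 : (2 * η)⁻¹ * (η ^ 2 * T) = η / 2 * T := by
    field_simp
  linarith

/-- weak mixing -/
theorem wm [CompleteSpace E] {y : ℝ → E} (hy : SC y)
    (hM : ∀ μ : ℝ, Tendsto (fun N : ℕ => ((N : ℂ)⁻¹) • ∫ s in (0 : ℝ)..(N : ℝ), ph μ s • y s) atTop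
      (𝓝 0)) (x : E) {η : ℝ} (hη : 0 < η) :
    ∃ T0 : ℝ, 0 < T0 ∧ ∀ T ≥ T0, ∫ s in (0 : ℝ)..T, ‖inner ℂ x (y s)‖ ^ 2 ≤ η * T := by
  set C := ‖y 0‖ with hC
  have hC0 : 0 ≤ C := norm_nonneg _
  set η' : ℝ := η ^ 2 / (2 * (C ^ 2 * ‖x‖ ^ 4) + 1) with hη'
  have hη'0 : 0 < η' := by positivity
  have hη'1 : 2 * (C ^ 2 * ‖x‖ ^ 4) * η' ≤ η ^ 2 := by
    have h1 : η' * (2 * (C ^ 2 * ‖x‖ ^ 4) + 1) = η ^ 2 := by
      rw [hη']
      field_simp
    nlinarith
  obtain ⟨T0, hT0, h⟩ := l1 hy hM hη'0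
  refine ⟨T0, hT0, fun T hT => ?_⟩
  have hTp : 0 < T := hT0.trans_le hT
  set cc : ℝ → ℝ := fun s => ‖inner ℂ (y 0) (y s)‖ with hcc
  have hccc : Continuous cc := (continuous_const.inner hy.ct).norm
  have hcc0 : ∀ s, 0 ≤ cc s := fun s => norm_nonneg _
  have hccn : ∀ s, cc (-s) = cc s := by
    intro s
    have h1 := hy.st 0 (-s) s
    rw [zero_add, neg_add_cancel] at h1
    show ‖inner ℂ (y 0) (y (-s))‖ = ‖inner ℂ (y 0) (y s)‖
    rw [← h1, norm_inner_symm]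
  have hcct : ∀ s t, ‖inner ℂ (y t) (y s)‖ = cc (s - t) := by
    intro s t
    have h1 := hy.st 0 (s - t) t
    rw [zero_add, sub_add_cancel] at h1
    rw [h1]
  set J : ℝ := ∫ s in (0 : ℝ)..T, cc s with hJ
  have hJ1 : J ≤ η' * T := h T hT
  have hint : ∀ a b : ℝ, IntervalIntegrable cc volume a b := fun a b => hccc.intervalIntegrable a b
  -- the integral of the correlation around `t`
  have hJt : ∀ t, 0 ≤ t → t ≤ T → ∫ s in (0 : ℝ)..T, cc (s - t) ≤ 2 * J := by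
    intro t h0 h1
    rw [intervalIntegral.integral_comp_sub_right (fun s => cc s) t, zero_sub]
    have e1 : ∫ s in (-t)..(T - t), cc s ≤ ∫ s in (-T)..T, cc s := by
      have a1 : ∫ s in (-T)..T, cc s = (∫ s in (-T)..(-t), cc s) + (∫ s in (-t)..(T - t), cc s) +
          ∫ s in (T - t)..T, cc s := by
        rw [intervalIntegral.integral_add_adjacent_intervals (hint _ _) (hint _ _),
          intervalIntegral.integral_add_adjacent_intervals (hint _ _) (hint _ _)]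
      have a2 : 0 ≤ ∫ s in (-T)..(-t), cc s :=
        intervalIntegral.integral_nonneg (by linarith) fun s _ => hcc0 s
      have a3 : 0 ≤ ∫ s in (T - t)..T, cc s :=
        intervalIntegral.integral_nonneg (by linarith) fun s _ => hcc0 s
      linarith
    have e2 : ∫ s in (-T)..T, cc s = 2 * J := by
      rw [← intervalIntegral.integral_add_adjacent_intervals (hint (-T) 0) (hint 0 T)]
      have e3 : ∫ s in (-T)..0, cc s = J := by
        have h2 := intervalIntegral.integral_comp_neg (a := (0 : ℝ)) (b := T) (fun s => cc s)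
        simp only [hccn, neg_zero] at h2
        exact h2.symm
      rw [e3]
      ring
    linarith
  have hyc := hy.ct
  set w : E := ∫ s in (0 : ℝ)..T, (inner ℂ (y s) x : ℂ) • y s with hw
  have hwc : Continuous fun s => (inner ℂ (y s) x : ℂ) • y s :=
    (hyc.inner continuous_const).smul hyc
  have hin : ∀ u : E, inner ℂ u w = ∫ s in (0 : ℝ)..T, (inner ℂ (y s) x : ℂ) * inner ℂ u (y s) := by
    intro u
    have h1 := (innerSL ℂ u).intervalIntegral_comp_comm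
      (hwc.intervalIntegrable (μ := volume) 0 T)
    refine Eq.trans h1.symm ?_
    refine intervalIntegral.integral_congr fun s _ => ?_
    show inner ℂ u ((inner ℂ (y s) x : ℂ) • y s) = _
    rw [inner_smul_right]
  have hnx : ∀ s, ‖(inner ℂ (y s) x : ℂ)‖ ≤ C * ‖x‖ := by
    intro s
    refine (norm_inner_le_norm _ _).trans ?_
    rw [hy.nrm]
  -- bound of `⟪y t, w⟫`
  have hyw : ∀ t, 0 ≤ t → t ≤ T → ‖(inner ℂ (y t) w : ℂ)‖ ≤ C * ‖x‖ * (2 * J) := by
    intro t h0 h1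
    rw [hin]
    have h2 : ‖∫ s in (0 : ℝ)..T, (inner ℂ (y s) x : ℂ) * inner ℂ (y t) (y s)‖ ≤
        ∫ s in (0 : ℝ)..T, C * ‖x‖ * cc (s - t) := by
      refine intervalIntegral.norm_integral_le_of_norm_le hTp.le (ae_of_all _ fun s _ => ?_)
        ((continuous_const.mul (hccc.comp (continuous_id.sub continuous_const))).intervalIntegrable
          _ _)
      rw [norm_mul, hcct]
      exact mul_le_mul_of_nonneg_right (hnx s) (hcc0 _)
    refine h2.trans ?_
    rw [intervalIntegral.integral_const_mul]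
    exact mul_le_mul_of_nonneg_left (hJt t h0 h1) (by positivity)
  have hJ0 : 0 ≤ J := intervalIntegral.integral_nonneg hTp.le fun s _ => hcc0 s
  have hww : ‖w‖ ^ 2 ≤ (C * ‖x‖) * (C * ‖x‖ * (2 * J)) * T := by
    have h1 : ‖(inner ℂ w w : ℂ)‖ = ‖w‖ ^ 2 := by
      rw [inner_self_eq_norm_sq_to_K]
      simp
    rw [← h1, hin]
    have h2 := intervalIntegral.norm_integral_le_of_norm_le_const (a := (0 : ℝ)) (b := T)
      (f := fun s => (inner ℂ (y s) x : ℂ) * inner ℂ w (y s))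
      (C := (C * ‖x‖) * (C * ‖x‖ * (2 * J))) (fun s hs => by
        rw [Set.uIoc_of_le hTp.le] at hs
        rw [norm_mul, norm_inner_symm w]
        exact mul_le_mul (hnx s) (hyw s hs.1.le hs.2) (norm_nonneg _) (by positivity))
    rwa [sub_zero, abs_of_pos hTp] at h2
  set I : ℝ := ∫ s in (0 : ℝ)..T, ‖inner ℂ x (y s)‖ ^ 2 with hI
  have hI0 : 0 ≤ I := intervalIntegral.integral_nonneg hTp.le fun s _ => by positivity
  have hIw : I ≤ ‖x‖ * ‖w‖ := by
    have h1 : (inner ℂ x w : ℂ) = (I : ℂ) := by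
      rw [hin, hI, ← intervalIntegral.integral_ofReal]
      refine intervalIntegral.integral_congr fun s _ => ?_
      show (inner ℂ (y s) x : ℂ) * inner ℂ x (y s) = ((‖(inner ℂ x (y s) : ℂ)‖ ^ 2 : ℝ) : ℂ)
      rw [← inner_conj_symm, mul_comm, Complex.mul_conj, Complex.normSq_eq_norm_sq]
    have h2 := norm_inner_le_norm (𝕜 := ℂ) x w
    rw [h1, Complex.norm_real, Real.norm_of_nonneg hI0] at h2
    exact h2
  have hfin : I ^ 2 ≤ (η * T) ^ 2 := by
    calc I ^ 2 ≤ (‖x‖ * ‖w‖) ^ 2 := pow_le_pow_left₀ hI0 hIw 2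
      _ = ‖x‖ ^ 2 * ‖w‖ ^ 2 := by ring
      _ ≤ ‖x‖ ^ 2 * ((C * ‖x‖) * (C * ‖x‖ * (2 * J)) * T) := by gcongr
      _ = 2 * (C ^ 2 * ‖x‖ ^ 4) * J * T := by ring
      _ ≤ 2 * (C ^ 2 * ‖x‖ ^ 4) * (η' * T) * T := by gcongr
      _ = (2 * (C ^ 2 * ‖x‖ ^ 4) * η') * T ^ 2 := by ring
      _ ≤ η ^ 2 * T ^ 2 := by gcongr
      _ = (η * T) ^ 2 := by ring
  exact (sq_le_sq₀ hI0 (by positivity)).1 hfin

end

end Pool.Agent.H988.WM.Abs
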