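import Pool.Agent.H988.WM.Off

/-! # Fibres of operators intertwining shifted Hamiltonians -/

set_option autoImplicit false

open MeasureTheory Filter Topology Set
open scoped ENNReal NNReal InnerProductSpace

namespace Pool.Agent.H988.WM

open Pool.Agent.TH980.IM Pool.Agent.H5R2
open Pool.Agent.Y662.ERG
open Pool.Agent.H12R2.And (Rz isUnit_sub sub_Rz im_inner norm_Rz_le diff_inner)
open Pool.Agent.TH980.IM.PR

section gen

variable {X : Type} [NormedAddCommGroup X] [InnerProductSpace ℂ X] [CompleteSpace X]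
variable {T : X →L[ℂ] X}

/-- existence of the coefficient: `w` is approximated by polynomials in `T` applied to `u`, in the
sense of densities -/
theorem exists_coeff' (hT : IsSelfAdjoint T) (w u : X)
    (p : ℕ → Polynomial ℂ)
    (hp : ∀ n, ∫⁻ E, ENNReal.ofReal (dn hT (w - Polynomial.aeval T (p n) u) E) ≤
      (2⁻¹ : ℝ≥0∞) ^ n) :
    ∀ᵐ E : ℝ, ∃ g : ℂ, Ngl T E (w - g • u) := by
  have h1 := dn_small hT (fun n => w - Polynomial.aeval T (p n) u) hp
  have h2 : ∀ᵐ E : ℝ, ∀ n, Tendsto (fun k => qn T (zk k E) (w - Polynomial.aeval T (p n) u))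
      atTop (𝓝 (Real.sqrt (kap * dn hT (w - Polynomial.aeval T (p n) u) E))) :=
    ae_all_iff.2 fun n => qn_tendsto hT _
  filter_upwards [h1, h2, qn_tendsto hT u] with E e1 e2 e3
  set a := Real.sqrt (kap * dn hT u E) with ha
  -- polynomials
  have e4 : ∀ n, Ngl T E (Polynomial.aeval T (p n) u - (p n).eval (E : ℂ) • u) := fun n =>
    ngl_poly hT (p n) u E
  rcases (Real.sqrt_nonneg (kap * dn hT u E)).eq_or_lt with h0 | h0
  · rw [← ha] at h0
    rw [← h0] at e3
    refine ⟨0, ?_⟩
    rw [zero_smul, sub_zero]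
    have e30 : Ngl T E u := e3
    refine Ngl.of_approx hT (r := fun n => w - Polynomial.aeval T (p n) u) (A := 1) e2 e1
      fun n => ⟨Polynomial.aeval T (p n) u, ?_, fun k => ?_⟩
    · have h3 := (e4 n).add (e30.smul ((p n).eval (E : ℂ)))
      rwa [sub_add_cancel] at h3
    · rw [one_mul]
      have h3 := qn_add (T := T) (zk k E) (w - Polynomial.aeval T (p n) u)
        (Polynomial.aeval T (p n) u)
      rwa [sub_add_cancel] at h3
  · rw [← ha] at h0
    set s : ℕ → ℝ := fun n => Real.sqrt (kap * dn hT (w - Polynomial.aeval T (p n) u) E) with hs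
    have hs0 : Tendsto s atTop (𝓝 0) := sqrt_kap_tendsto e1
    have hs00 : ∀ n, 0 ≤ s n := fun n => Real.sqrt_nonneg _
    -- `w - p_n(E) u`
    have e5 : ∀ n, Tendsto (fun k => qn T (zk k E) (w - (p n).eval (E : ℂ) • u)) atTop
        (𝓝 (s n)) := by
      intro n
      refine Ngl.lim ?_ (e2 n)
      have e : w - (p n).eval (E : ℂ) • u - (w - Polynomial.aeval T (p n) u) =
          Polynomial.aeval T (p n) u - (p n).eval (E : ℂ) • u := by abel
      rw [e]
      exact e4 n
    have e6 : ∀ n m, ‖(p n).eval (E : ℂ) - (p m).eval (E : ℂ)‖ * a ≤ s n + s m := by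
      intro n m
      have h3 : Tendsto (fun k => qn T (zk k E) (((p n).eval (E : ℂ) - (p m).eval (E : ℂ)) • u))
          atTop (𝓝 (‖(p n).eval (E : ℂ) - (p m).eval (E : ℂ)‖ * a)) :=
        (e3.const_mul _).congr fun k => (qn_smul _ _ _).symm
      refine le_of_tendsto_of_tendsto' h3 ((e5 n).add (e5 m)) fun k => ?_
      have e : ((p n).eval (E : ℂ) - (p m).eval (E : ℂ)) • u =
          (w - (p m).eval (E : ℂ) • u) + (-1 : ℂ) • (w - (p n).eval (E : ℂ) • u) := by
        rw [neg_one_smul, sub_smul]; abel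
      rw [e]
      refine (qn_add _ _ _).trans ?_
      rw [qn_smul]
      simp only [norm_neg, norm_one, one_mul]
      linarith
    have hcs : CauchySeq fun n => (p n).eval (E : ℂ) := by
      rw [Metric.cauchySeq_iff]
      intro ε hε
      have hh : 0 < ε * a / 2 := by positivity
      obtain ⟨N, hN⟩ := eventually_atTop.1 (hs0.eventually (gt_mem_nhds hh))
      refine ⟨N, fun m hm n hn => ?_⟩
      rw [dist_eq_norm]
      have h3 := e6 m n
      have h4 := hN m hm
      have h5 := hN n hn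
      have h6 : ‖(p m).eval (E : ℂ) - (p n).eval (E : ℂ)‖ * a < ε * a := by linarith
      exact lt_of_mul_lt_mul_right h6 h0.le
    obtain ⟨g, hg⟩ := cauchySeq_tendsto_of_complete hcs
    refine ⟨g, ?_⟩
    unfold Ngl
    rw [Metric.tendsto_atTop]
    intro ε hε
    have h3 : Tendsto (fun n => s n + ‖(p n).eval (E : ℂ) - g‖ * (a + 1)) atTop (𝓝 0) := by
      have h4 := (tendsto_iff_norm_sub_tendsto_zero.1 hg).mul_const (a + 1)
      have h5 := hs0.add h4
      rwa [zero_mul, add_zero] at h5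
    obtain ⟨n, hn⟩ := (h3.eventually (gt_mem_nhds (half_pos hε))).exists
    have h6 := (e5 n).eventually (gt_mem_nhds (show s n < s n + ε / 2 by linarith))
    have h7 := e3.eventually (gt_mem_nhds (show a < a + 1 by linarith))
    obtain ⟨N, hN⟩ := eventually_atTop.1 (h6.and h7)
    refine ⟨N, fun k hk => ?_⟩
    obtain ⟨h8, h9⟩ := hN k hk
    rw [Real.dist_eq, sub_zero, abs_of_nonneg (qn_nonneg _ _)]
    have e : w - g • u = (w - (p n).eval (E : ℂ) • u) + ((p n).eval (E : ℂ) - g) • u := by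
      rw [sub_smul]; abel
    rw [e]
    refine (qn_add _ _ _).trans_lt ?_
    rw [qn_smul]
    have h10 : ‖(p n).eval (E : ℂ) - g‖ * qn T (zk k E) u ≤
        ‖(p n).eval (E : ℂ) - g‖ * (a + 1) := mul_le_mul_of_nonneg_left h9.le (norm_nonneg _)
    linarith

/-- the relation with the generator -/
theorem comm_of_ExT {μ : ℝ} {T B : X →L[ℂ] X}
    (h : ∀ t x, B (Ex T t x) = ph μ (-t) • Ex T t (B x)) (x : X) :
    B (T x) = T (B x) - (μ : ℂ) • B x := by
  have h1 := ((B.restrictScalars ℝ).hasFDerivAt (x := Ex T 0 x)).comp_hasDerivAt (0 : ℝ)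
    (Ex_deriv T 0 x)
  have hp : HasDerivAt (fun s : ℝ => ph μ (-s)) (Complex.I * μ) 0 := by
    have h2 : HasDerivAt (fun s : ℝ => Complex.I * μ * (s : ℂ)) (Complex.I * μ) 0 := by
      have h3 := (Complex.ofRealCLM.hasDerivAt (x := (0 : ℝ))).const_mul (Complex.I * μ)
      simpa using h3
    have h4 := h2.cexp
    have h5 : (fun s : ℝ => Complex.exp (Complex.I * μ * (s : ℂ))) = fun s : ℝ => ph μ (-s) := by
      funext s
      unfold ph
      congr 1
      push_cast
      ring
    rw [h5] at h4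
    simpa using h4
  have h2 := hp.smul (Ex_deriv T 0 (B x))
  have h3 : (⇑(B.restrictScalars ℝ) ∘ fun s : ℝ => Ex T s x) =
      fun s : ℝ => ph μ (-s) • Ex T s (B x) := by
    funext s
    exact h s x
  rw [h3] at h1
  have h4 : B (-Complex.I • T (Ex T 0 x)) = ph μ (-0) • (-Complex.I • T (Ex T 0 (B x))) +
      (Complex.I * μ) • Ex T 0 (B x) := h1.unique h2
  rw [Ex_zero, Ex_zero, map_smul, neg_zero, ph_zero, one_smul] at h4
  have h5 : (-Complex.I) ≠ 0 := neg_ne_zero.2 Complex.I_ne_zero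
  refine smul_right_injective X h5 ?_
  show -Complex.I • B (T x) = -Complex.I • (T (B x) - (μ : ℂ) • B x)
  rw [h4]
  module

end gen

section lat

variable {d : ℕ}

/-- the coefficient at one site -/
theorem fib_siteT {K : ℝ} {V : Sd d → ℝ} (hV : ∀ x, |V x| ≤ K) {W : NB.UG (L2 d)}
    (hW : NB.IsGrp (-1) (fun x => 2 * d + V x) W) (q e : L2 d)
    (hF : ∀ φ ∈ NBA.HAC W, (∀ t, ⟪φ, W.U t e⟫_ℂ = 0) → ⟪φ, q⟫_ℂ = 0) :
    ∀ᵐ E : ℝ, ∃ g : ℂ, Ngl (HV K V) E (q - g • e) := by
  set T := HV K V with hT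
  have hsa : IsSelfAdjoint T := HV_sa K V
  have hUE : ∀ t u, W.U t u = Ex T t u := fun t u => grp_Ex hV hW t u
  obtain ⟨P, hP1, hP2, hP3, hP4, hP5, -⟩ := NBA.t_PR (Sd d) W
  have hPac : ∀ v, spm hsa v ≪ volume → P v = v := by
    intro v hv
    apply hP2
    apply NBA.ALL.a_SPEC
    refine ⟨spm hsa v, inferInstance, hv, fun t => ?_⟩
    rw [hUE]
    exact Ex_spm hsa t v
  -- the closed subspace generated by the vectors `P p(T) e`
  let L : Polynomial ℂ →ₗ[ℂ] L2 d :=
    { toFun := fun p => P (Polynomial.aeval T p e)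
      map_add' := fun p q => by
        rw [map_add]
        show P (_ + _) = _
        rw [map_add]
        rfl
      map_smul' := fun c p => by
        rw [map_smul]
        show P (c • _) = c • _
        rw [map_smul]
        rfl }
  have hL : ∀ p, L p = P (Polynomial.aeval T p e) := fun p => rfl
  set Mc : Submodule ℂ (L2 d) := (LinearMap.range L).topologicalClosure with hMc
  have : CompleteSpace Mc := (Submodule.isClosed_topologicalClosure _).completeSpace_coe
  set w : L2 d := P q with hw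
  have hmem : w ∈ Mc := by
    set φ : L2 d := w - Mc.starProjection w with hφ
    have hφM : φ ∈ Mcᗮ := Submodule.sub_starProjection_mem_orthogonal w
    rw [Submodule.mem_orthogonal'] at hφM
    have h1 : ∀ p : Polynomial ℂ, ⟪P φ, Polynomial.aeval T p e⟫_ℂ = 0 := by
      intro p
      rw [hP3, ← hL]
      exact hφM _ (Submodule.le_topologicalClosure _ ⟨p, rfl⟩)
    have h2 : ∀ t, ⟪P φ, W.U t e⟫_ℂ = 0 := by
      intro t
      rw [hUE]
      apply orth_Ex
      intro m
      have := h1 (Polynomial.X ^ m)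
      rwa [map_pow, Polynomial.aeval_X] at this
    have h3 := hF (P φ) (hP1 φ) h2
    have h4 : ⟪φ, w⟫_ℂ = 0 := by
      rw [hw, ← hP3]
      exact h3
    have h5 : ⟪φ, Mc.starProjection w⟫_ℂ = 0 := hφM _ (Submodule.starProjection_apply_mem _ _)
    have h6 : ⟪φ, φ⟫_ℂ = 0 := by
      conv_lhs => rw [hφ]
      rw [← hφ, inner_sub_right, h4, h5, sub_zero]
    have h7 : φ = 0 := inner_self_eq_zero.1 h6
    rw [hφ, sub_eq_zero] at h7
    rw [h7]
    exact Submodule.starProjection_apply_mem _ _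
  have hex : ∀ n : ℕ, ∃ p : Polynomial ℂ, ‖w - P (Polynomial.aeval T p e)‖ < (2⁻¹ : ℝ) ^ n := by
    intro n
    have h1 : w ∈ closure (LinearMap.range L : Set (L2 d)) := hmem
    obtain ⟨_, ⟨p, rfl⟩, hp⟩ := Metric.mem_closure_iff.1 h1 ((2⁻¹ : ℝ) ^ n) (by positivity)
    refine ⟨p, ?_⟩
    rwa [dist_eq_norm] at hp
  choose p hp using hex
  refine exists_coeff' hsa q e p fun n => ?_
  refine (dn_le_proj hsa P hPac hP3 _).trans ?_
  have h1 : ‖P (q - Polynomial.aeval T (p n) e)‖ₑ ≤ (2⁻¹ : ℝ≥0∞) ^ n := by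
    rw [map_sub, ← ofReal_norm]
    refine (ENNReal.ofReal_le_ofReal (hp n).le).trans (le_of_eq ?_)
    rw [ENNReal.ofReal_pow (by norm_num), ENNReal.ofReal_inv_of_pos (by norm_num)]
    norm_num
  have h2 : ((2⁻¹ : ℝ≥0∞) ^ n) ≤ 1 := pow_le_one₀ (by simp) (by simp)
  calc ‖P (q - Polynomial.aeval T (p n) e)‖ₑ ^ 2 ≤ ((2⁻¹ : ℝ≥0∞) ^ n) ^ 2 := by gcongr
    _ = ((2⁻¹ : ℝ≥0∞) ^ n) * ((2⁻¹ : ℝ≥0∞) ^ n) := by rw [pow_two]
    _ ≤ ((2⁻¹ : ℝ≥0∞) ^ n) * 1 := by gcongr
    _ = _ := mul_one _

/-- extremal points of the support -/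
theorem supp_le' {K : ℝ} {V : Sd d → ℝ} {E : ℝ} {v u : L2 d} (hv : FS v)
    (hu : u = HV K V v - (E : ℂ) • v) (y : Sd d)
    (hy : ∀ j, u j ≠ 0 → j = y ∨ ∃ i : Fin d, j = y + Pi.single i 1 ∨ j = y - Pi.single i 1)
    (i0 : Fin d) (s : ℤ) (hs : s = 1 ∨ s = -1) (j : Sd d) (hj : v j ≠ 0) :
    s * j i0 ≤ s * y i0 := by
  by_contra hcon
  push Not at hcon
  -- a maximal point
  obtain ⟨q, hq, hmax⟩ := Finset.exists_max_image hv.toFinset (fun j => s * j i0)
    ⟨j, hv.mem_toFinset.2 hj⟩
  have hqv : v q ≠ 0 := hv.mem_toFinset.1 hq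
  have hqy : s * y i0 < s * q i0 := lt_of_lt_of_le hcon (hmax j (hv.mem_toFinset.2 hj))
  have hz : ∀ p : Sd d, s * q i0 < s * p i0 → v p = 0 := by
    intro p hp
    by_contra hne
    exact absurd (hmax p (hv.mem_toFinset.2 hne)) (not_le.2 hp)
  have hss : s * s = 1 := by rcases hs with h | h <;> rw [h] <;> norm_num
  set p : Sd d := q + Pi.single i0 s with hp
  have hpi : s * p i0 = s * q i0 + 1 := by
    rw [hp, Pi.add_apply, Pi.single_eq_same, mul_add, hss]
  have hvp : v p = 0 := hz p (by rw [hpi]; linarith)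
  -- the value at `p`
  have hup : u p = - v q := by
    rw [hu, sub_apply', hvp, mul_zero, sub_zero, HV_apply, hvp]
    simp only [mul_zero, zero_sub, add_zero]
    rw [Finset.sum_eq_single i0]
    · rcases hs with h | h
      · have e1 : p - Pi.single i0 1 = q := by rw [hp, h]; simp
        have e2 : v (p + Pi.single i0 1) = 0 := by
          apply hz
          rw [h, Pi.add_apply, Pi.single_eq_same]
          rw [h] at hpi
          linarith
        rw [e1, e2, neg_zero, zero_sub]
      · have e1 : p + Pi.single i0 1 = q := by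
          rw [hp, h, add_assoc, ← Pi.single_add]
          simp
        have e2 : v (p - Pi.single i0 1) = 0 := by
          apply hz
          rw [h, Pi.sub_apply, Pi.single_eq_same]
          rw [h] at hpi
          linarith
        rw [e1, e2, sub_zero]
    · intro i _ hi
      have hi0 : (Pi.single i (1 : ℤ) : Sd d) i0 = 0 := single_ne i0 i hi
      have e1 : v (p + Pi.single i 1) = 0 := by
        apply hz
        rw [Pi.add_apply, hi0, add_zero, hpi]
        linarith
      have e2 : v (p - Pi.single i 1) = 0 := by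
        apply hz
        rw [Pi.sub_apply, hi0, sub_zero, hpi]
        linarith
      rw [e1, e2]
      simp
    · intro h
      exact absurd (Finset.mem_univ i0) h
  have hune : u p ≠ 0 := by rw [hup]; exact neg_ne_zero.2 hqv
  rcases hy p hune with h0 | ⟨i, hi⟩
  · rw [h0] at hpi
    linarith
  have hle : s * p i0 ≤ s * y i0 + 1 := by
    have hsi : ∀ t : ℤ, (t = 0 ∨ t = 1 ∨ t = -1) → s * (y i0 + t) ≤ s * y i0 + 1 := by
      intro t ht
      rcases hs with h | h <;> rcases ht with h1 | h1 | h1 <;> rw [h, h1] <;> linarith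
    rcases hi with h | h
    · rw [h, Pi.add_apply]
      apply hsi
      by_cases hii : i = i0
      · subst hii
        rw [Pi.single_eq_same]
        simp
      · rw [single_ne i0 i hii]
        simp
    · rw [h, Pi.sub_apply, sub_eq_add_neg]
      apply hsi
      by_cases hii : i = i0
      · subst hii
        rw [Pi.single_eq_same]
        simp
      · rw [single_ne i0 i hii]
        simp
  rw [hpi] at hle
  linarith

/-- the relations between the fibre coefficients -/
theorem coeffT (i0 : Fin d) {K : ℝ} {V : Sd d → ℝ} {h : Sd d → (Sd d → ℝ) × ℝ → ℂ} {E : ℝ}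
    (e1 : Gen K h V E)
    (hPD : ∀ (m : ℤ) (n : ℕ) (p : Fin n → Sd d), Lay i0 m p → PD (MM h p (V, E)))
    {μ : ℝ} {B : L2 d →L[ℂ] L2 d} (hB : ∀ x, B (HV K V x) = HV K V (B x) - (μ : ℂ) • B x)
    {g : Sd d → ℂ} (hg : ∀ x, Ngl (HV K V) E (B (ee x) - g x • ee x)) (y : Sd d) :
    ∃ β : ℂ, (∀ i : Fin d, g (y + Pi.single i 1) - g y = β) ∧
      (∀ i : Fin d, g (y - Pi.single i 1) - g y = β) ∧
      μ * g y = β * (((2 * d + cl K (V y) : ℝ) : ℂ) - E) := by
  have hsa := HV_sa K V
  set T := HV K V with hT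
  have hfs : FS (T (ee y)) := FS.HV (FS_ee y)
  set F := hfs.toFinset with hF
  have hrep : T (ee y) = ∑ x ∈ F, (T (ee y)) x • ee x := fin_sum fun j hj => by
    by_contra hne
    exact hj (hfs.mem_toFinset.2 hne)
  set a : Sd d → ℂ := fun x => (T (ee y)) x with ha
  -- negligible vectors
  have n1 : Ngl T E (T (B (ee y)) - (E : ℂ) • B (ee y)) := qn_T hsa _ E
  have n3 : Ngl T E (∑ x ∈ F, a x • (B (ee x) - g x • ee x)) :=
    Ngl.sum F fun x _ => (hg x).smul _
  have n4 : Ngl T E (((E : ℂ) - μ) • (B (ee y) - g y • ee y)) := (hg y).smul _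
  have n5 : Ngl T E (g y • (T (ee y) - (E : ℂ) • ee y)) := Ngl.smul _ (qn_T hsa _ E)
  set u : L2 d := ∑ x ∈ F, (a x * (g x - g y)) • ee x + (μ * g y) • ee y with hu
  have nu : Ngl T E u := by
    have h1 : B (T (ee y)) = ∑ x ∈ F, a x • B (ee x) := by
      conv_lhs => rw [hrep]
      rw [map_sum]
      refine Finset.sum_congr rfl fun x _ => ?_
      rw [map_smul]
    have h2 : ∑ x ∈ F, a x • (B (ee x) - g x • ee x) = ∑ x ∈ F, a x • B (ee x) -
        ∑ x ∈ F, (a x * g x) • ee x := by
      rw [← Finset.sum_sub_distrib]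
      refine Finset.sum_congr rfl fun x _ => ?_
      rw [smul_sub, smul_smul]
    have h3 : g y • T (ee y) = ∑ x ∈ F, (a x * g y) • ee x := by
      conv_lhs => rw [hrep]
      rw [Finset.smul_sum]
      refine Finset.sum_congr rfl fun x _ => ?_
      rw [smul_smul, mul_comm]
    have h4 : ∑ x ∈ F, (a x * (g x - g y)) • (ee x : L2 d) =
        ∑ x ∈ F, (a x * g x) • ee x - ∑ x ∈ F, (a x * g y) • ee x := by
      rw [← Finset.sum_sub_distrib]
      refine Finset.sum_congr rfl fun x _ => ?_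
      rw [mul_sub, sub_smul]
    have h5 : B (T (ee y)) = T (B (ee y)) - (μ : ℂ) • B (ee y) := hB (ee y)
    have e : u = (((T (B (ee y)) - (E : ℂ) • B (ee y)) -
        ∑ x ∈ F, a x • (B (ee x) - g x • ee x)) +
        ((E : ℂ) - μ) • (B (ee y) - g y • ee y)) - g y • (T (ee y) - (E : ℂ) • ee y) := by
      rw [hu, h4, h2, ← h1, h5, ← h3]
      module
    rw [e]
    exact ((n1.sub n3).add n4).sub n5
  have hufs : FS u := by
    have h1 : FS (∑ x ∈ F, (a x * (g x - g y)) • (ee x : L2 d)) :=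
      FS.sum _ fun x _ => (FS_ee x).smul _
    have h2 : FS ((μ * g y) • (ee y : L2 d)) := (FS_ee y).smul _
    refine (h1.union h2).subset fun x hx => ?_
    by_contra hcon
    simp only [Set.mem_union, Set.mem_ofPred_eq, not_or, not_not] at hcon
    apply hx
    show (∑ x ∈ F, (a x * (g x - g y)) • (ee x : L2 d)) x + ((μ * g y) • (ee y : L2 d)) x = 0
    rw [hcon.1, hcon.2, add_zero]
  have huj : ∀ j, u j = a j * (g j - g y) + μ * g y * (if j = y then 1 else 0) := by
    intro j
    have h1 : u j = inner ℂ (ee j) u := (inner_ee j u).symm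
    rw [h1, hu, inner_add_right, inner_sum]
    simp only [inner_smul_right, inner_ee, ee_apply]
    simp only [mul_ite, mul_one, mul_zero, Finset.sum_ite_eq]
    congr 1
    split_ifs with hj
    · rfl
    · have : a j = 0 := by
        by_contra hne
        exact hj (hfs.mem_toFinset.2 hne)
      rw [this, zero_mul]
  -- the coefficients
  have haj : ∀ j, a j = ∑ i : Fin d, (2 * (if j = y then (1 : ℂ) else 0) -
      (if j + Pi.single i 1 = y then 1 else 0) - (if j - Pi.single i 1 = y then 1 else 0)) +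
      (cl K (V j) : ℂ) * (if j = y then 1 else 0) := by
    intro j
    rw [ha]
    show (T (ee y)) j = _
    rw [hT, HV_apply]
    simp only [ee_apply]
  obtain ⟨v, hv, huv⟩ := kernel_zk i0 e1 hPD hufs nu
  have hnb : ∀ j, u j ≠ 0 → j = y ∨
      ∃ i : Fin d, j = y + Pi.single i 1 ∨ j = y - Pi.single i 1 := by
    intro j hj
    by_cases hjy : j = y
    · exact Or.inl hjy
    right
    rw [huj, if_neg hjy, mul_zero, add_zero] at hj
    by_contra hcon
    push Not at hcon
    apply hj
    have : a j = 0 := by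
      rw [haj, if_neg hjy]
      simp only [mul_zero, zero_sub, add_zero]
      refine Finset.sum_eq_zero fun i _ => ?_
      rw [if_neg, if_neg]
      · simp
      · intro h
        exact (hcon i).1 (by rw [← h]; simp)
      · intro h
        exact (hcon i).2 (by rw [← h]; simp)
    rw [this, zero_mul]
  have hsupp : ∀ j, v j ≠ 0 → j = y := by
    intro j hj
    funext i1
    have h1 := supp_le' hv huv y hnb i1 1 (Or.inl rfl) j hj
    have h2 := supp_le' hv huv y hnb i1 (-1) (Or.inr rfl) j hj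
    linarith
  have hvz : ∀ j, j ≠ y → v j = 0 := fun j hj => by
    by_contra hne
    exact hj (hsupp j hne)
  have hns : ∀ i : Fin d, y + Pi.single i 1 ≠ y := by
    intro i h
    have h1 := congrFun h i
    rw [Pi.add_apply, Pi.single_eq_same] at h1
    linarith
  have hns' : ∀ i : Fin d, y - Pi.single i 1 ≠ y := by
    intro i h
    have h1 := congrFun h i
    rw [Pi.sub_apply, Pi.single_eq_same] at h1
    linarith
  -- `v = β e_y`
  have hvb : v = v y • (ee y : L2 d) := by
    refine lp.ext (funext fun j => ?_)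
    show v j = v y * (ee y : L2 d) j
    rw [ee_apply]
    by_cases hj : j = y
    · rw [hj, if_pos rfl, mul_one]
    · rw [hvz j hj, if_neg hj, mul_zero]
  have huj2 : ∀ j, u j = v y * a j - E * (v y * (if j = y then 1 else 0)) := by
    intro j
    have h1 : u j = (T v) j - E * v j := by
      rw [huv, sub_apply']
    rw [h1]
    have h2 : T v = v y • T (ee y) := by
      conv_lhs => rw [hvb]
      rw [map_smul]
    have h3 : v j = v y * (if j = y then 1 else 0) := by
      conv_lhs => rw [hvb]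
      show v y * (ee y : L2 d) j = _
      rw [ee_apply]
    rw [h2, h3]
    rfl
  have hap : ∀ i : Fin d, a (y + Pi.single i 1) = -1 := by
    intro i
    rw [haj, if_neg (hns i)]
    simp only [mul_zero, zero_sub, add_zero]
    rw [Finset.sum_eq_single i]
    · rw [if_neg, if_pos]
      · simp
      · simp
      · intro h
        have h1 := congrFun h i
        rw [Pi.add_apply, Pi.add_apply, Pi.single_eq_same] at h1
        linarith
    · intro k _ hk
      rw [if_neg, if_neg]
      · simp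
      · intro h
        have h1 := congrFun h i
        rw [Pi.sub_apply, Pi.add_apply, Pi.single_eq_same, single_ne i k hk] at h1
        linarith
      · intro h
        have h1 := congrFun h i
        rw [Pi.add_apply, Pi.add_apply, Pi.single_eq_same, single_ne i k hk] at h1
        linarith
    · intro h
      exact absurd (Finset.mem_univ i) h
  have ham : ∀ i : Fin d, a (y - Pi.single i 1) = -1 := by
    intro i
    rw [haj, if_neg (hns' i)]
    simp only [mul_zero, zero_sub, add_zero]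
    rw [Finset.sum_eq_single i]
    · rw [if_pos, if_neg]
      · simp
      · intro h
        have h1 := congrFun h i
        rw [Pi.sub_apply, Pi.sub_apply, Pi.single_eq_same] at h1
        linarith
      · simp
    · intro k _ hk
      rw [if_neg, if_neg]
      · simp
      · intro h
        have h1 := congrFun h i
        rw [Pi.sub_apply, Pi.sub_apply, Pi.single_eq_same, single_ne i k hk] at h1
        linarith
      · intro h
        have h1 := congrFun h i
        rw [Pi.add_apply, Pi.sub_apply, Pi.single_eq_same, single_ne i k hk] at h1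
        linarith
    · intro h
      exact absurd (Finset.mem_univ i) h
  have hay : a y = ((2 * d + cl K (V y) : ℝ) : ℂ) := by
    rw [haj]
    simp only [if_true, mul_one]
    have e : ∀ i : Fin d, ((2 : ℂ) - (if y + Pi.single i 1 = y then 1 else 0) -
        (if y - Pi.single i 1 = y then 1 else 0)) = 2 := by
      intro i
      rw [if_neg (hns i), if_neg (hns' i)]
      ring
    simp only [e, Finset.sum_const, Finset.card_univ, Fintype.card_fin, nsmul_eq_mul]
    push_cast
    ring
  refine ⟨v y, fun i => ?_, fun i => ?_, ?_⟩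
  · have h1 := huj (y + Pi.single i 1)
    rw [huj2, hap, if_neg (hns i)] at h1
    linear_combination h1
  · have h1 := huj (y - Pi.single i 1)
    rw [huj2, ham, if_neg (hns' i)] at h1
    linear_combination h1
  · have h1 := huj y
    rw [huj2, if_pos rfl, sub_self, mul_zero, zero_add, mul_one, mul_one, hay] at h1
    linear_combination -h1

/-- the coefficients vanish -/
theorem coeff_zero (i0 : Fin d) {K : ℝ} {V : Sd d → ℝ} {h : Sd d → (Sd d → ℝ) × ℝ → ℂ} {E : ℝ}
    (e1 : Gen K h V E)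
    (hPD : ∀ (m : ℤ) (n : ℕ) (p : Fin n → Sd d), Lay i0 m p → PD (MM h p (V, E)))
    {μ : ℝ} (hμ : μ ≠ 0) {B : L2 d →L[ℂ] L2 d}
    (hB : ∀ x, B (HV K V x) = HV K V (B x) - (μ : ℂ) • B x)
    {g : Sd d → ℂ} (hg : ∀ x, Ngl (HV K V) E (B (ee x) - g x • ee x))
    (hV : ∃ x : Sd d, cl K (V (x + Pi.single i0 1 + Pi.single i0 1)) ≠ cl K (V x)) (y : Sd d) :
    g y = 0 := by
  choose β h1 h2 h3 using fun y => coeffT i0 e1 hPD hB hg y
  have h4 : ∀ y (i : Fin d), β (y + Pi.single i 1) = -β y := by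
    intro y i
    have a1 := h1 y i
    have a2 := h2 (y + Pi.single i 1) i
    rw [add_sub_cancel_right] at a2
    linear_combination -a1 - a2
  have h5 : ∀ x, (fun y => β y ^ 2) x = (fun y => β y ^ 2) 0 := const_of_step (fun y i => by
    show β (y + Pi.single i 1) ^ 2 = β y ^ 2
    rw [h4, neg_sq])
  obtain ⟨x, hx⟩ := hV
  have h6 : β x = 0 := by
    set z := x + Pi.single i0 1 + Pi.single i0 1 with hz
    have b1 : β z = β x := by rw [hz, h4, h4, neg_neg]
    have b2 : g z = g x := by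
      have a1 := h1 x i0
      have a2 := h1 (x + Pi.single i0 1) i0
      rw [h4] at a2
      linear_combination a1 + a2
    have b3 := h3 x
    have b4 := h3 z
    rw [b1, b2] at b4
    have b5 : β x * (((cl K (V z) : ℝ) : ℂ) - ((cl K (V x) : ℝ) : ℂ)) = 0 := by
      push_cast at b3 b4
      linear_combination b3 - b4
    rcases mul_eq_zero.1 b5 with h | h
    · exact h
    · exfalso
      apply hx
      rw [sub_eq_zero] at h
      exact_mod_cast h
  have h7 : β y = 0 := by
    have a1 := h5 x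
    have a2 := h5 y
    simp only at a1 a2
    rw [← a1, h6] at a2
    exact pow_eq_zero_iff (two_ne_zero) |>.1 (by rw [a2]; ring)
  have h8 := h3 y
  rw [h7, zero_mul] at h8
  exact (mul_eq_zero.1 h8).resolve_left (by exact_mod_cast hμ)

/-- the operators intertwining shifted Hamiltonians have no absolutely continuous part -/
theorem per_VT (hd : 1 ≤ d) {K : ℝ} {V : Sd d → ℝ} (hV : ∀ x, |V x| ≤ K) {W : NB.UG (L2 d)}
    (hW : NB.IsGrp (-1) (fun x => 2 * d + V x) W) {μ : ℝ} (hμ : μ ≠ 0) {B : L2 d →L[ℂ] L2 d}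
    (hBc : ∀ t x, B (W.U t x) = ph μ (-t) • W.U t (B x))
    (hF : ∀ z : Sd d, ∀ φ ∈ NBA.HAC W, (∀ t, ⟪φ, W.U t (ee z)⟫_ℂ = 0) → ⟪φ, B (ee z)⟫_ℂ = 0)
    {h : Sd d → (Sd d → ℝ) × ℝ → ℂ} {Sg : Set ℝ}
    (h1 : ∀ᵐ E : ℝ, Gen K h V E)
    (h2 : ∀ᵐ E : ℝ, E ∈ Sg → ∀ (i0 : Fin d) (m : ℤ) (n : ℕ) (p : Fin n → Sd d), Lay i0 m p →
      PD (MM h p (V, E)))
    (h3 : ∀ᵐ E : ℝ, E ∉ Sg → ∀ x : Sd d, (h 0 (sh x V, E)).im ≤ 0)
    (hne : ∃ x : Sd d, V (x + Pi.single (⟨0, hd⟩ : Fin d) 1 + Pi.single (⟨0, hd⟩ : Fin d) 1) ≠ V x)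
    (u : L2 d) : acP (HV_sa K V) (B u) = 0 := by
  have hUE : ∀ t u, W.U t u = Ex (HV K V) t u := fun t u => grp_Ex hV hW t u
  have hBT : ∀ x, B (HV K V x) = HV K V (B x) - (μ : ℂ) • B x :=
    comm_of_ExT fun t x => by rw [← hUE, hBc, hUE]
  have h4 : ∀ᵐ E : ℝ, ∀ x : Sd d, ∃ g : ℂ, Ngl (HV K V) E (B (ee x) - g • ee x) :=
    ae_all_iff.2 fun x => fib_siteT hV hW (B (ee x)) (ee x) (hF x)
  have hne' : ∃ x : Sd d, cl K (V (x + Pi.single (⟨0, hd⟩ : Fin d) 1 +
      Pi.single (⟨0, hd⟩ : Fin d) 1)) ≠ cl K (V x) := by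
    obtain ⟨x, hx⟩ := hne
    exact ⟨x, by rwa [cl_eq (hV _), cl_eq (hV _)]⟩
  have h5 : ∀ᵐ E : ℝ, ∀ x : Sd d, Ngl (HV K V) E (B (ee x)) := by
    filter_upwards [h1, h2, h3, h4] with E e1 e2 e3 e4
    choose g hg using e4
    intro x
    by_cases hE : E ∈ Sg
    · have h6 := coeff_zero ⟨0, hd⟩ e1 (fun m n p hp => e2 hE _ m n p hp) hμ hBT hg hne' x
      have h7 := hg x
      rwa [h6, zero_smul, sub_zero] at h7
    · have h6 : Ngl (HV K V) E (ee x : L2 d) := by
        have t1 : Tendsto (fun k => inner ℂ (ee x) (Rz (HV K V) (zk k E) (ee x))) atTop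
            (𝓝 (h 0 (sh x V, E))) := by
          have := e1 x x
          rw [sub_self] at this
          refine this.congr fun k => ?_
          exact GG_inner K V _ x x
        have t2 := qn_lim (HV_sa K V) t1
        rwa [Real.sqrt_eq_zero_of_nonpos (e3 hE x)] at t2
      have h7 := (hg x).add (h6.smul (g x))
      rwa [sub_add_cancel] at h7
  have h6 : ∀ x : Sd d, acP (HV_sa K V) (B (ee x)) = 0 := by
    intro x
    have h7 := acP_mass (HV_sa K V) (B (ee x))
    have h8 : ∀ᵐ E : ℝ, ENNReal.ofReal (dn (HV_sa K V) (B (ee x)) E) = 0 := by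
      filter_upwards [h5, qn_tendsto (HV_sa K V) (B (ee x))] with E a1 a2
      have a3 := tendsto_nhds_unique a2 (a1 x)
      have a4 : kap * dn (HV_sa K V) (B (ee x)) E = 0 := by
        have a5 : Real.sqrt (kap * dn (HV_sa K V) (B (ee x)) E) ^ 2 = 0 ^ 2 := by rw [a3]
        rw [Real.sq_sqrt (mul_nonneg kap_pos.le (dn_nonneg _ _ _))] at a5
        rw [a5]
        ring
      rw [(mul_eq_zero.1 a4).resolve_left kap_pos.ne', ENNReal.ofReal_zero]
    rw [lintegral_congr_ae h8, lintegral_zero] at h7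
    have h9 : ‖acP (HV_sa K V) (B (ee x))‖ₑ = 0 := pow_eq_zero_iff (two_ne_zero) |>.1 h7
    exact enorm_eq_zero.1 h9
  have h7 : (acP (HV_sa K V)).comp B = 0 := by
    refine ContinuousLinearMap.ext_on (s := Set.range (NB.dl (d := d)))
      (fun x => NB.LIMB.dl_dense d x) ?_
    rintro _ ⟨z, rfl⟩
    exact h6 z
  have h8 := congrArg (fun A : L2 d →L[ℂ] L2 d => A u) h7
  exact h8

end lat

end Pool.Agent.H988.WM
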