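import Pool.Agent.H988.WM.Van
import Pool.Graph.R_pool_sql_team_seeded_b0a926ef.R988.NQ.Fix

/-! # General covariant fields: averages with a phase vanish on the absolutely continuous subspace -/

set_option autoImplicit false

open MeasureTheory Filter Topology Set
open scoped ENNReal NNReal InnerProductSpace ComplexConjugate

namespace Pool.Agent.H988.WM

open Pool.Agent.TH980.IM Pool.Agent.H5R2
open Pool.Agent.Y662.ERG
open Pool.Agent.TH980.IM.PR
open Pool.Agent.R988.NQ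

section fields

variable {d : ℕ} {c o : ℝ} {ev : (NB.Site d → ℝ) → NB.UG (L2 d)}

theorem shf_o (o : ℝ) (V : NB.Site d → ℝ) : shf o (fun x => o + V x) = V := by
  funext x
  unfold shf
  ring

theorem cov_U (hev : ∀ ω : NB.Site d → ℝ, NB.IsGrp c (fun x => o + ω x) (ev ω))
    (z : NB.Site d) (S : L2 d →L[ℂ] L2 d) (hS : NB.IsShift z S) (V : NB.Site d → ℝ) (t : ℝ)
    (ψ : L2 d) : (ev fun y => V (y + z)).U t (S ψ) = S ((ev V).U t ψ) := by
  have hev' : ∀ V, NB.IsGrp c V (ev (shf o V)) := by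
    intro V
    have h := hev (shf o V)
    have e : (fun x => o + shf o V x) = V := by
      funext x
      unfold shf
      ring
    rwa [e] at h
  have h := NB.ALL.a_COV d c (fun V => ev (shf o V)) hev' z S hS (fun x => o + V x) t ψ
  have e1 : shf o (fun x => o + V x) = V := shf_o o V
  have e2 : shf o (fun y => (fun x => o + V x) (y + z)) = fun y => V (y + z) :=
    shf_o o fun y => V (y + z)
  simp only [e1, e2] at h
  exact h

theorem fld_Uo (hev : ∀ ω : NB.Site d → ℝ, NB.IsGrp c (fun x => o + ω x) (ev ω)) (t : ℝ) :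
    Fld 1 (Uf ev t) := by
  refine ⟨fun V ψ => ?_, fun f hf => ?_, fun z S hS V ψ => cov_U hev z S hS V t ψ⟩
  · rw [one_mul]
    exact ((ev V).norm' t ψ).le
  · exact (ev_cont hev).comp_stronglyMeasurable
      (stronglyMeasurable_id.prodMk ((stronglyMeasurable_const (b := t)).prodMk hf))

variable {ν : Measure ℝ} [IsProbabilityMeasure ν]

/-- a field with almost everywhere measurable matrix elements has a measurable version -/
theorem meas_mod {W : OF d}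
    (hW : ∀ x y : NB.Site d, AEMeasurable (fun V => (W V (NB.dl y)) x) (NB.PP d ν)) :
    ∃ W1 : OF d, (∀ V, W1 V = W V ∨ W1 V = 0) ∧
      (∀ (u : L2 d) (x : NB.Site d), Measurable fun V => (W1 V u) x) ∧
      ∀ᵐ V ∂(NB.PP d ν), W1 V = W V := by
  classical
  have h0 : ∀ᵐ V ∂(NB.PP d ν), ∀ x y : NB.Site d, (W V (NB.dl y)) x = (hW x y).mk _ V := by
    rw [ae_all_iff]
    intro x
    rw [ae_all_iff]
    intro y
    exact (hW x y).ae_eq_mk
  obtain ⟨t, ht1, ht2, ht3⟩ := exists_measurable_superset_of_null (ae_iff.1 h0)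
  have hG : ∀ V, V ∉ t → ∀ x y : NB.Site d, (W V (NB.dl y)) x = (hW x y).mk _ V := by
    intro V hV
    by_contra h
    exact hV (ht1 h)
  refine ⟨fun V => if V ∈ t then 0 else W V, fun V => ?_, fun u x => ?_, ?_⟩
  · by_cases h : V ∈ t
    · exact Or.inr (if_pos h)
    · exact Or.inl (if_neg h)
  · obtain ⟨F, hF⟩ := exhaust (d := d)
    have hm : ∀ n, Measurable fun V => (tᶜ).indicator
        (fun V => ∑ y ∈ F n, u y * (hW x y).mk _ V) V := by
      intro n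
      exact (Finset.measurable_fun_sum _ fun y _ =>
        ((hW x y).measurable_mk).const_mul (u y)).indicator ht2.compl
    refine measurable_of_tendsto_metrizable hm ?_
    rw [tendsto_pi_nhds]
    intro V
    by_cases h : V ∈ t
    · have h1 : V ∉ tᶜ := fun h2 => h2 h
      simp only [Set.indicator_of_notMem h1, if_pos h]
      exact tendsto_const_nhds
    · have h1 : V ∈ tᶜ := h
      simp only [Set.indicator_of_mem h1, if_neg h]
      have h2 := ((NB.STAT.cont_eval x).tendsto _).comp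
        (((W V).continuous.tendsto u).comp (pf_tendsto hF u))
      refine h2.congr fun n => ?_
      show (W V (pf (F n) u)) x = _
      rw [pf_sum, map_sum]
      have e : ∀ w : L2 d, w x = ⟪(NB.dl x : L2 d), w⟫_ℂ := fun w => (NB.STAT.inner_dl x w).symm
      rw [e, inner_sum]
      refine Finset.sum_congr rfl fun y _ => ?_
      rw [map_smul, inner_smul_right, NB.STAT.inner_dl, hG V h x y]
  · have h1 : ∀ᵐ V ∂(NB.PP d ν), V ∉ t := by
      rw [ae_iff]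
      simpa using ht3
    filter_upwards [h1] with V hV
    exact if_neg hV

/-- the projection onto the absolutely continuous subspace as a field -/
theorem exists_Pf (K : ℝ) (ν : Measure ℝ) [IsProbabilityMeasure ν] :
    ∃ P : OF d, Fld 1 P ∧ Sym P ∧ ∀ᵐ ω ∂(NB.PP d ν), P ω = PA K ω := by
  obtain ⟨W1, h1, h2, h3⟩ := meas_mod (ν := ν) (W := fun ω => PA K ω) (fun x y => by
    have h := PA_inner_meas K ν (ee x : L2 d) (ee y)
    simp only [inner_ee] at h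
    exact h)
  have hz : ∀ᵐ V ∂(NB.PP d ν), ∀ z : NB.Site d,
      W1 (fun y => V (y + z)) = PA K (fun y => V (y + z)) := by
    rw [ae_all_iff]
    intro z
    exact ((NB.t_RES d ν).2 z).quasiMeasurePreserving.ae h3
  have hc : ∀ᵐ V ∂(NB.PP d ν), ∀ (z : NB.Site d) (S : L2 d →L[ℂ] L2 d), NB.IsShift z S → ∀ ψ,
      W1 (fun y => V (y + z)) (S ψ) = S (W1 V ψ) := by
    filter_upwards [hz, h3] with V e1 e2 z S hS ψ
    rw [e1, e2]
    exact PA_shift K V z hS ψ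
  obtain ⟨W', g1, g2, g3, g4⟩ := fix_cov h2 hc
  have hor : ∀ V, W' V = PA K V ∨ W' V = 0 := by
    intro V
    rcases g1 V with h | h
    · rcases h1 V with h' | h'
      · exact Or.inl (h.trans h')
      · exact Or.inr (h.trans h')
    · exact Or.inr h
  refine ⟨W', (flds (fun V ψ => ?_) g2 g3).1, fun V f g => ?_, ?_⟩
  · rcases hor V with h | h
    · rw [h, one_mul]
      exact acP_norm _ _
    · rw [h]
      simp
  · rcases hor V with h | h
    · rw [h]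
      exact PA_symm K V f g
    · rw [h]
      simp
  · filter_upwards [g4, h3] with V e1 e2
    rw [e1, e2]

/-- the size of `D U_s P` -/
theorem flowP (hev : ∀ ω : NB.Site d → ℝ, NB.IsGrp c (fun x => o + ω x) (ev ω)) {D D' P : OF d}
    {C C' : ℝ} (hC : 0 ≤ C) (hD : Fld C D) (hD' : Fld C' D') (aD : Adj D D') (hP : Fld 1 P)
    (sP : Sym P) (s : ℝ) :
    ∫⁻ V, ‖D V ((ev V).U s (P V (NB.dl 0)))‖ₑ ^ 2 ∂(NB.PP d ν) ≤ nn ν D := by
  have h1 : nn ν (mulF D (mulF (Uf ev s) P)) = nn ν (mulF (mulF P (Uf ev (-s))) D') :=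
    nn_adj (hD.mul hC ((fld_Uo hev s).mul zero_le_one hP))
      (((hP.mul zero_le_one (fld_Uo hev (-s)))).mul (by norm_num) hD')
      (Adj.mul aD (Adj.mul (adj_U s) sP.adj))
  have h2 : nn ν (mulF (mulF P (Uf ev (-s))) D') ≤ nn ν D' := by
    unfold nn
    refine lintegral_mono fun V => ?_
    show ‖P V ((ev V).U (-s) (D' V (NB.dl 0)))‖ₑ ^ 2 ≤ ‖D' V (NB.dl 0)‖ₑ ^ 2
    refine pow_le_pow_left₀ zero_le ?_ 2
    rw [← ofReal_norm, ← ofReal_norm]
    refine ENNReal.ofReal_le_ofReal ?_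
    refine (hP.bd V _).trans ?_
    rw [one_mul, (ev V).norm']
  rw [nn_adj hD hD' aD]
  refine le_trans (le_of_eq ?_) h2
  rw [← h1]
  rfl

/-- the averages of `D` with a phase are at most as large as `D` -/
theorem contrT (μ : ℝ) (hev : ∀ ω : NB.Site d → ℝ, NB.IsGrp c (fun x => o + ω x) (ev ω))
    {D D' P : OF d} {C C' : ℝ} (hC : 0 ≤ C) (hD : Fld C D) (hD' : Fld C' D') (aD : Adj D D')
    (hP : Fld 1 P) (sP : Sym P) (N : ℕ) (hN : 0 < N) :
    ∫⁻ V, ‖av μ id (ev V) (D V) N (P V (NB.dl 0))‖ₑ ^ 2 ∂(NB.PP d ν) ≤ nn ν D := by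
  have hNr : (0 : ℝ) < N := Nat.cast_pos.2 hN
  have hNc : (N : ℂ) ≠ 0 := Nat.cast_ne_zero.2 hN.ne'
  have hNe : (N : ℝ≥0∞) ≠ 0 := Nat.cast_ne_zero.2 hN.ne'
  have hNt : (N : ℝ≥0∞) ≠ ∞ := ENNReal.natCast_ne_top N
  set k : ℝ → (NB.Site d → ℝ) → ℝ≥0∞ := fun s V => ‖D V ((ev V).U s (P V (NB.dl 0)))‖ₑ with hk
  have hpm : StronglyMeasurable fun V => P V (NB.dl 0 : L2 d) := hP.sm
  -- joint measurability
  have hcs : ∀ V, Continuous fun s : ℝ => (ev V).U s (P V (NB.dl 0) : L2 d) := fun V =>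
    (ev V).cont' _
  have hjm : StronglyMeasurable (Function.uncurry fun (s : ℝ) (V : NB.Site d → ℝ) =>
      D V ((ev V).U s (P V (NB.dl 0)))) := by
    refine stronglyMeasurable_uncurry_of_continuous_of_stronglyMeasurable (fun V => ?_)
      (fun s => ?_)
    · exact (D V).continuous.comp (hcs V)
    · exact hD.meas _ ((fld_Uo hev s).meas _ hpm)
  have hk1 : Measurable fun p : ℝ × (NB.Site d → ℝ) => k p.1 p.2 := hjm.enorm
  have hkm : Measurable fun p : (NB.Site d → ℝ) × ℝ => k p.2 p.1 ^ 2 :=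
    (hk1.comp measurable_swap).pow_const 2
  -- the pointwise inequality
  have hpt : ∀ V, ‖av μ id (ev V) (D V) N (P V (NB.dl 0))‖ₑ ^ 2 ≤
      (N : ℝ≥0∞)⁻¹ * ∫⁻ s in Set.Ioc (0 : ℝ) N, k s V ^ 2 := by
    intro V
    have e4 : ∀ s, ‖g μ (ev V) (D V) (P V (NB.dl 0)) s‖ₑ = k s V := by
      intro s
      show ‖ph μ s • (ev V).U (-s) (D V ((ev V).U s (P V (NB.dl 0))))‖ₑ = _
      rw [← ofReal_norm, norm_smul, ph_norm, one_mul, (ev V).norm', ofReal_norm]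
    have hkV : Measurable fun s : ℝ => k s V :=
      (((D V).continuous.comp (hcs V)).enorm).measurable
    have e5 : ‖∫ s in (0 : ℝ)..(N : ℝ), g μ (ev V) (D V) (P V (NB.dl 0)) (id s)‖ₑ ≤
        ∫⁻ s in Set.Ioc (0 : ℝ) N, k s V := by
      rw [intervalIntegral.integral_of_le hNr.le]
      refine (enorm_integral_le_lintegral_enorm _).trans (le_of_eq ?_)
      exact lintegral_congr fun s => e4 s
    have e6 : (∫⁻ s in Set.Ioc (0 : ℝ) N, k s V) ^ 2 ≤
        (N : ℝ≥0∞) * ∫⁻ s in Set.Ioc (0 : ℝ) N, k s V ^ 2 := by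
      refine (NB.AVL.sq_lintegral_le _ _ hkV.aemeasurable).trans (le_of_eq ?_)
      rw [Measure.restrict_apply MeasurableSet.univ, Set.univ_inter, Real.volume_Ioc, sub_zero,
        ENNReal.ofReal_natCast]
    have e7 : ‖((N : ℂ)⁻¹)‖ₑ = (N : ℝ≥0∞)⁻¹ := by
      rw [enorm_inv hNc]
      congr 1
      rw [← ofReal_norm, Complex.norm_natCast, ENNReal.ofReal_natCast]
    unfold av
    rw [enorm_smul, mul_pow, e7]
    calc ((N : ℝ≥0∞)⁻¹) ^ 2 * ‖∫ s in (0 : ℝ)..(N : ℝ), g μ (ev V) (D V) (P V (NB.dl 0)) (id s)‖ₑ ^ 2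
        ≤ ((N : ℝ≥0∞)⁻¹) ^ 2 * ((N : ℝ≥0∞) * ∫⁻ s in Set.Ioc (0 : ℝ) N, k s V ^ 2) := by
          gcongr
          exact (pow_le_pow_left₀ zero_le e5 2).trans e6
      _ = (N : ℝ≥0∞)⁻¹ * (((N : ℝ≥0∞)⁻¹ * (N : ℝ≥0∞)) *
            ∫⁻ s in Set.Ioc (0 : ℝ) N, k s V ^ 2) := by ring
      _ = _ := by rw [ENNReal.inv_mul_cancel hNe hNt, one_mul]
  calc ∫⁻ V, ‖av μ id (ev V) (D V) N (P V (NB.dl 0))‖ₑ ^ 2 ∂(NB.PP d ν)
      ≤ ∫⁻ V, ((N : ℝ≥0∞)⁻¹ * ∫⁻ s in Set.Ioc (0 : ℝ) N, k s V ^ 2) ∂(NB.PP d ν) :=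
        lintegral_mono hpt
    _ = (N : ℝ≥0∞)⁻¹ * ∫⁻ V, (∫⁻ s in Set.Ioc (0 : ℝ) N, k s V ^ 2) ∂(NB.PP d ν) := by
        rw [lintegral_const_mul' _ _ (ENNReal.inv_ne_top.2 hNe)]
    _ = (N : ℝ≥0∞)⁻¹ * ∫⁻ s in Set.Ioc (0 : ℝ) N, (∫⁻ V, k s V ^ 2 ∂(NB.PP d ν)) := by
        congr 1
        exact lintegral_lintegral_swap (f := fun V s => k s V ^ 2) hkm.aemeasurable
    _ ≤ (N : ℝ≥0∞)⁻¹ * ∫⁻ _s in Set.Ioc (0 : ℝ) N, nn ν D := by
        gcongr with s
        exact flowP hev hC hD hD' aD hP sP s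
    _ = nn ν D := by
        rw [lintegral_const, Measure.restrict_apply MeasurableSet.univ, Set.univ_inter,
          Real.volume_Ioc, sub_zero, ENNReal.ofReal_natCast, mul_comm (nn ν _), ← mul_assoc,
          ENNReal.inv_mul_cancel hNe hNt, one_mul]

theorem av_add {X : Type} [NormedAddCommGroup X] [InnerProductSpace ℂ X] (μ : ℝ) (W : NB.UG X)
    (v v' : X →L[ℂ] X) (N : ℕ) (x : X) :
    av μ id W (v + v') N x = av μ id W v N x + av μ id W v' N x := by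
  unfold av
  rw [← smul_add, ← intervalIntegral.integral_add
    ((g_cont' μ continuous_id W v x).intervalIntegrable _ _)
    ((g_cont' μ continuous_id W v' x).intervalIntegrable _ _)]
  congr 1
  refine intervalIntegral.integral_congr fun s _ => ?_
  show ph μ s • W.U (-s) (v (W.U s x) + v' (W.U s x)) =
    ph μ s • W.U (-s) (v (W.U s x)) + ph μ s • W.U (-s) (v' (W.U s x))
  rw [map_add, smul_add]

theorem av_smul {X : Type} [NormedAddCommGroup X] [InnerProductSpace ℂ X] (μ : ℝ) (W : NB.UG X)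
    (a : ℂ) (v : X →L[ℂ] X) (N : ℕ) (x : X) :
    av μ id W (a • v) N x = a • av μ id W v N x := by
  have h1 : ∀ s, g μ W (a • v) x s = a • g μ W v x s := by
    intro s
    show ph μ s • W.U (-s) (a • v (W.U s x)) = a • ph μ s • W.U (-s) (v (W.U s x))
    rw [map_smul, smul_comm]
  unfold av
  simp only [h1, id, intervalIntegral.integral_smul]
  rw [smul_comm]

theorem enorm_sq_add {X : Type} [NormedAddCommGroup X] (a b : X) :
    ‖a + b‖ₑ ^ 2 ≤ 2 * ‖a‖ₑ ^ 2 + 2 * ‖b‖ₑ ^ 2 :=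
  (pow_le_pow_left₀ zero_le (enorm_add_le _ _) 2).trans (sq_add_le _ _)

end fields

section van2

variable {d : ℕ} {ev : (NB.Site d → ℝ) → NB.UG (L2 d)}

/-- symmetric fields -/
theorem van_sym (hd : 1 ≤ d) {K : ℝ} {ν : Measure ℝ} [IsProbabilityMeasure ν]
    (hK : ∀ᵐ r ∂ν, |r| ≤ K) (hν : ∀ r : ℝ, ν {r} ≠ 1)
    (hev : ∀ ω : NB.Site d → ℝ, NB.IsGrp (-1) (fun x => 2 * d + ω x) (ev ω))
    {w : OF d} {β : ℝ} (hw : Fld β w) (sw : Sym w) {μ : ℝ} (hμ : μ ≠ 0)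
    {P : OF d} (hP : Fld 1 P) (sP : Sym P) (eP : ∀ᵐ ω ∂(NB.PP d ν), P ω = PA K ω) :
    Tendsto (fun N : ℕ => ∫⁻ ω, ‖av μ id (ev ω) (w ω) N (P ω (NB.dl 0))‖ₑ ^ 2 ∂(NB.PP d ν))
      atTop (𝓝 0) := by
  rw [ENNReal.tendsto_nhds_zero]
  intro ε hε
  have hε4 : 0 < ε / 4 := ENNReal.div_pos hε.ne' (by norm_num)
  obtain ⟨v, M, hO, hv⟩ := approx (ν := ν) hw sw (ε / 4) hε4
  have hβ : 0 ≤ β := by
    have h1 := hw.bd 0 (NB.dl 0)
    rw [NB.STAT.norm_dl, mul_one] at h1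
    exact (norm_nonneg _).trans h1
  have h1 := van_int hd hK hν hev hO hμ (fun ω => P ω (NB.dl 0)) 1 hP.sm.aestronglyMeasurable
    (fun V => hP.nb V) (by
      filter_upwards [eP] with ω hω
      rw [hω]
      exact acP_ac _ _)
  have h2 := (ENNReal.tendsto_nhds_zero.1 h1) (ε / 4) hε4
  have hD : Fld (M + β) (subF v w) := (obs_fld hO).sub hw
  have sD : Sym (subF v w) := Sym.sub hO.symm sw
  filter_upwards [h2, eventually_gt_atTop 0] with N hN hN0
  have h3 := contrT (ν := ν) μ hev (add_nonneg hO.nn hβ) hD hD sD.adj hP sP N hN0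
  have hpt : ∀ ω, ‖av μ id (ev ω) (w ω) N (P ω (NB.dl 0))‖ₑ ^ 2 ≤
      2 * ‖av μ id (ev ω) (v ω) N (P ω (NB.dl 0))‖ₑ ^ 2 +
        2 * ‖av μ id (ev ω) (subF v w ω) N (P ω (NB.dl 0))‖ₑ ^ 2 := by
    intro ω
    have e : av μ id (ev ω) (w ω) N (P ω (NB.dl 0)) = av μ id (ev ω) (v ω) N (P ω (NB.dl 0)) +
        (-1 : ℂ) • av μ id (ev ω) (subF v w ω) N (P ω (NB.dl 0)) := by
      rw [← av_smul, ← av_add]
      congr 1
      show w ω = v ω + (-1 : ℂ) • (v ω - w ω)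
      module
    rw [e]
    refine (enorm_sq_add _ _).trans (le_of_eq ?_)
    rw [enorm_smul, enorm_neg, enorm_one, one_mul]
  have hm : AEMeasurable (fun ω => 2 * ‖av μ id (ev ω) (v ω) N (P ω (NB.dl 0))‖ₑ ^ 2)
      (NB.PP d ν) :=
    ((av_aesm hev hO μ hP.sm.aestronglyMeasurable N).enorm.pow_const 2).const_mul 2
  calc ∫⁻ ω, ‖av μ id (ev ω) (w ω) N (P ω (NB.dl 0))‖ₑ ^ 2 ∂(NB.PP d ν)
      ≤ ∫⁻ ω, (2 * ‖av μ id (ev ω) (v ω) N (P ω (NB.dl 0))‖ₑ ^ 2 +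
        2 * ‖av μ id (ev ω) (subF v w ω) N (P ω (NB.dl 0))‖ₑ ^ 2) ∂(NB.PP d ν) :=
        lintegral_mono hpt
    _ = 2 * ∫⁻ ω, ‖av μ id (ev ω) (v ω) N (P ω (NB.dl 0))‖ₑ ^ 2 ∂(NB.PP d ν) +
        2 * ∫⁻ ω, ‖av μ id (ev ω) (subF v w ω) N (P ω (NB.dl 0))‖ₑ ^ 2 ∂(NB.PP d ν) := by
        rw [lintegral_add_left' hm, lintegral_const_mul' _ _ (by simp),
          lintegral_const_mul' _ _ (by simp)]
    _ ≤ 2 * (ε / 4) + 2 * (ε / 4) := by
        gcongr
        exact h3.trans hv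
    _ = ε := by
        rw [← add_mul]
        have : (2 + 2 : ℝ≥0∞) = 4 := by norm_num
        rw [this, ENNReal.mul_div_cancel (by norm_num) (by norm_num)]

/-- general fields -/
theorem van_fld (hd : 1 ≤ d) {K : ℝ} {ν : Measure ℝ} [IsProbabilityMeasure ν]
    (hK : ∀ᵐ r ∂ν, |r| ≤ K) (hν : ∀ r : ℝ, ν {r} ≠ 1)
    (hev : ∀ ω : NB.Site d → ℝ, NB.IsGrp (-1) (fun x => 2 * d + ω x) (ev ω))
    {A : OF d} {M : ℝ} (hA : Fld M A) (hA' : Fld M (adjF A)) {μ : ℝ} (hμ : μ ≠ 0)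
    {P : OF d} (hP : Fld 1 P) (sP : Sym P) (eP : ∀ᵐ ω ∂(NB.PP d ν), P ω = PA K ω) :
    Tendsto (fun N : ℕ => ∫⁻ ω, ‖av μ id (ev ω) (A ω) N (P ω (NB.dl 0))‖ₑ ^ 2 ∂(NB.PP d ν))
      atTop (𝓝 0) := by
  have hB : Fld (‖(2⁻¹ : ℂ)‖ * (M + M)) (reF A) := (hA.add hA').smul 2⁻¹
  have hC : Fld (‖(-(Complex.I * 2⁻¹) : ℂ)‖ * (M + M)) (imF A) :=
    (hA.sub hA').smul (-(Complex.I * 2⁻¹))
  have h1 := van_sym hd hK hν hev hB (sym_re A) hμ hP sP eP
  have h2 := van_sym hd hK hν hev hC (sym_im A) hμ hP sP eP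
  have h3 : Tendsto (fun N : ℕ =>
      2 * (∫⁻ ω, ‖av μ id (ev ω) (reF A ω) N (P ω (NB.dl 0))‖ₑ ^ 2 ∂(NB.PP d ν)) +
      2 * (∫⁻ ω, ‖av μ id (ev ω) (imF A ω) N (P ω (NB.dl 0))‖ₑ ^ 2 ∂(NB.PP d ν))) atTop (𝓝 0) := by
    have a1 := ENNReal.Tendsto.const_mul (a := 2) h1 (Or.inr (by norm_num))
    have a2 := ENNReal.Tendsto.const_mul (a := 2) h2 (Or.inr (by norm_num))
    simpa using a1.add a2
  refine tendsto_of_tendsto_of_tendsto_of_le_of_le tendsto_const_nhds h3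
    (fun _ => zero_le) fun N => ?_
  -- measurability
  have hm : AEMeasurable (fun ω => 2 * ‖av μ id (ev ω) (reF A ω) N (P ω (NB.dl 0))‖ₑ ^ 2)
      (NB.PP d ν) := by
    have hj : StronglyMeasurable (Function.uncurry fun (ω : NB.Site d → ℝ) (s : ℝ) =>
        g μ (ev ω) (reF A ω) (P ω (NB.dl 0)) s) := by
      have h5 : StronglyMeasurable (Function.uncurry fun (s : ℝ) (ω : NB.Site d → ℝ) =>
          g μ (ev ω) (reF A ω) (P ω (NB.dl 0)) s) := by
        refine stronglyMeasurable_uncurry_of_continuous_of_stronglyMeasurable (fun V => ?_)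
          (fun s => ?_)
        · exact g_cont μ _ _ _
        · exact ((fld_Uo hev (-s)).meas _ (hB.meas _ ((fld_Uo hev s).meas _ hP.sm))).const_smul
            (ph μ s)
      exact h5.comp_measurable measurable_swap
    have h6 : StronglyMeasurable fun ω : NB.Site d → ℝ => ∫ s in Ioc (0 : ℝ) N,
        g μ (ev ω) (reF A ω) (P ω (NB.dl 0)) s := hj.integral_prod_right
    have h7 : (fun ω => av μ id (ev ω) (reF A ω) N (P ω (NB.dl 0))) = fun ω =>
        ((N : ℂ)⁻¹) • ∫ s in Ioc (0 : ℝ) N, g μ (ev ω) (reF A ω) (P ω (NB.dl 0)) s := by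
      funext ω
      unfold av
      rw [intervalIntegral.integral_of_le (Nat.cast_nonneg N)]
      rfl
    have h8 : StronglyMeasurable fun ω => av μ id (ev ω) (reF A ω) N (P ω (NB.dl 0)) := by
      rw [h7]
      exact h6.const_smul ((N : ℂ)⁻¹)
    exact ((h8.enorm.pow_const 2).const_mul 2).aemeasurable
  have hpt : ∀ ω, ‖av μ id (ev ω) (A ω) N (P ω (NB.dl 0))‖ₑ ^ 2 ≤
      2 * ‖av μ id (ev ω) (reF A ω) N (P ω (NB.dl 0))‖ₑ ^ 2 +
        2 * ‖av μ id (ev ω) (imF A ω) N (P ω (NB.dl 0))‖ₑ ^ 2 := by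
    intro ω
    have e : av μ id (ev ω) (A ω) N (P ω (NB.dl 0)) =
        av μ id (ev ω) (reF A ω) N (P ω (NB.dl 0)) +
        Complex.I • av μ id (ev ω) (imF A ω) N (P ω (NB.dl 0)) := by
      rw [← av_smul, ← av_add]
      congr 1
      ext1 ψ
      exact re_im A ω ψ
    rw [e]
    refine (enorm_sq_add _ _).trans (le_of_eq ?_)
    rw [enorm_smul, ← ofReal_norm Complex.I, Complex.norm_I, ENNReal.ofReal_one, one_mul]
  calc ∫⁻ ω, ‖av μ id (ev ω) (A ω) N (P ω (NB.dl 0))‖ₑ ^ 2 ∂(NB.PP d ν)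
      ≤ ∫⁻ ω, (2 * ‖av μ id (ev ω) (reF A ω) N (P ω (NB.dl 0))‖ₑ ^ 2 +
        2 * ‖av μ id (ev ω) (imF A ω) N (P ω (NB.dl 0))‖ₑ ^ 2) ∂(NB.PP d ν) :=
        lintegral_mono hpt
    _ = _ := by
        rw [lintegral_add_left' hm, lintegral_const_mul' _ _ (by simp),
          lintegral_const_mul' _ _ (by simp)]

end van2

end Pool.Agent.H988.WM
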