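import Pool.Agent.H988.WM.Tw

/-! # Averages with a phase on the lattice: convergence along subsequences -/

set_option autoImplicit false

open MeasureTheory Filter Topology
open scoped BigOperators ENNReal NNReal InnerProductSpace ComplexConjugate

namespace Pool.Agent.H988.WM

open Pool.Agent.H5R2.NB Pool.Agent.H5R2.NBA
open Pool.Agent.Y662.ERG (Obs tauO)

section op

variable {X : Type} [NormedAddCommGroup X] [InnerProductSpace ℂ X]

theorem g_cont' (μ : ℝ) {σ : ℝ → ℝ} (hσ : Continuous σ) (W : UG X) (v : X →L[ℂ] X) (x : X) :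
    Continuous fun s => g μ W v x (σ s) := (g_cont μ W v x).comp hσ

/-- the average with a phase as a bounded operator -/
noncomputable def TL (μ : ℝ) {σ : ℝ → ℝ} (hσ : Continuous σ) (W : UG X) (v : X →L[ℂ] X) (N : ℕ) :
    X →L[ℂ] X :=
  LinearMap.mkContinuous
    { toFun := av μ σ W v N
      map_add' := fun x y => by
        unfold av
        rw [← smul_add, ← intervalIntegral.integral_add
          ((g_cont' μ hσ W v x).intervalIntegrable _ _)
          ((g_cont' μ hσ W v y).intervalIntegrable _ _)]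
        congr 1
        refine intervalIntegral.integral_congr fun s _ => ?_
        show ph μ (σ s) • W.U (-σ s) (v (W.U (σ s) (x + y))) =
          ph μ (σ s) • W.U (-σ s) (v (W.U (σ s) x)) + ph μ (σ s) • W.U (-σ s) (v (W.U (σ s) y))
        rw [map_add, map_add, map_add, smul_add]
      map_smul' := fun a x => by
        have h1 : ∀ s, g μ W v (a • x) s = a • g μ W v x s := by
          intro s
          show ph μ s • W.U (-s) (v (W.U s (a • x))) =
            a • ph μ s • W.U (-s) (v (W.U s x))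
          rw [map_smul, map_smul, map_smul, smul_comm]
        unfold av
        simp only [h1, intervalIntegral.integral_smul, RingHom.id_apply]
        rw [smul_comm] } ‖v‖
    fun x => av_norm μ σ W v N x

theorem TL_apply (μ : ℝ) {σ : ℝ → ℝ} (hσ : Continuous σ) (W : UG X) (v : X →L[ℂ] X) (N : ℕ)
    (x : X) : TL μ hσ W v N x = av μ σ W v N x := rfl

end op

variable {d : ℕ} {v : (Site d → ℝ) → L2 (Site d) →L[ℂ] L2 (Site d)} {M : ℝ}
  {c : ℝ} {ev : (Site d → ℝ) → UG (L2 (Site d))}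

/-- mean square convergence of both averages at `δ_0` to the same limit -/
theorem limaT (μ : ℝ) (hev : ∀ V, IsGrp c V (ev V))
    (hO : Obs d v M) (ν : Measure ℝ) [IsProbabilityMeasure ν] :
    ∃ b : (Site d → ℝ) → L2 (Site d), AEStronglyMeasurable b (PP d ν) ∧
        Tendsto (fun N : ℕ => ∫⁻ V, ‖av μ id (ev V) (v V) N (dl 0) - b V‖ₑ ^ 2 ∂(PP d ν)) atTop
          (𝓝 0) ∧
        Tendsto (fun N : ℕ => ∫⁻ V, ‖av μ (fun s => -s) (ev V) (v V) N (dl 0) - b V‖ₑ ^ 2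
          ∂(PP d ν)) atTop (𝓝 0) := by
  have hCV := ALL.a_CV d c ev hev
  have hT0 : Continuous fun p : ℝ × (Site d → ℝ) => tauO ev v p.1 p.2 := by
    unfold tauO
    have g1 : Continuous fun p : ℝ × (Site d → ℝ) => (ev p.2).U p.1 (dl 0) :=
      hCV.comp (by fun_prop :
        Continuous fun p : ℝ × (Site d → ℝ) => (p.2, p.1, (dl 0 : L2 (Site d))))
    have g2 : Continuous fun p : ℝ × (Site d → ℝ) => v p.2 ((ev p.2).U p.1 (dl 0)) :=
      hO.cont.comp (continuous_snd.prodMk g1)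
    exact hCV.comp ((continuous_snd.prodMk (continuous_fst.neg.prodMk g2)) :
      Continuous fun p : ℝ × (Site d → ℝ) => (p.2, -p.1, v p.2 ((ev p.2).U p.1 (dl 0))))
  have hT : Continuous fun p : ℝ × (Site d → ℝ) => g μ (ev p.2) (v p.2) (dl 0) p.1 :=
    ((ph_cont μ).comp continuous_fst).smul hT0
  have hK : ∀ s V, ‖g μ (ev V) (v V) (dl 0) s‖ ≤ M * ‖(dl 0 : L2 (Site d))‖ := by
    intro s V
    refine (g_norm μ (ev V) (v V) (dl 0) s).trans ?_
    exact mul_le_mul_of_nonneg_right (hO.opn V) (norm_nonneg _)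
  have hP : IsProbabilityMeasure (PP d ν) := by
    unfold PP
    infer_instance
  have hin : ∀ s s' V, ⟪g μ (ev V) (v V) (dl 0) s, g μ (ev V) (v V) (dl 0) s'⟫_ℂ =
      ph μ (s' - s) * ⟪tauO ev v s V, tauO ev v s' V⟫_ℂ := by
    intro s s' V
    show ⟪ph μ s • tauO ev v s V, ph μ s' • tauO ev v s' V⟫_ℂ = _
    rw [inner_smul_left, inner_smul_right, ph_conj, ← mul_assoc, ← ph_add]
    congr 2
    ring
  obtain ⟨b, hb, hf, hg⟩ := LIMA.main (PP d ν) (fun s V => g μ (ev V) (v V) (dl 0) s) _ t_ME hT hK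
    (fun s s' a => by
      simp only [hin]
      rw [integral_const_mul, integral_const_mul,
        Pool.Agent.Y662.ERG.stat hev hO ν s s' a]
      congr 2
      ring)
  exact ⟨b, hb, hf, hg⟩

theorem av_conj (μ : ℝ) {σ : ℝ → ℝ} (hσ : Continuous σ) (hev : ∀ V, IsGrp c V (ev V))
    (hcov : ∀ (z : Site d) (S : L2 (Site d) →L[ℂ] L2 (Site d)), IsShift z S →
      ∀ V ψ, v (fun y => V (y + z)) (S ψ) = S (v V ψ)) {z : Site d}
    {S T : L2 (Site d) →L[ℂ] L2 (Site d)} (hS : IsShift z S)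
    (hT : IsShift (-z) T) (V : Site d → ℝ) (N : ℕ) (x : L2 (Site d)) :
    av μ σ (ev fun y => V (y + z)) (v fun y => V (y + z)) N x =
      S (av μ σ (ev V) (v V) N (T x)) := by
  unfold av
  have e := ContinuousLinearMap.intervalIntegral_comp_comm S
    ((g_cont' μ hσ (ev V) (v V) (T x)).intervalIntegrable (μ := volume) (0 : ℝ) (N : ℝ))
  rw [map_smul]
  congr 1
  refine Eq.trans ?_ e
  refine intervalIntegral.integral_congr fun s _ => ?_
  have hC := ALL.a_COV d c ev hev z S hS V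
  show ph μ (σ s) • (ev fun y => V (y + z)).U (-σ s) (v (fun y => V (y + z))
      ((ev fun y => V (y + z)).U (σ s) x)) =
    S (ph μ (σ s) • (ev V).U (-σ s) (v V ((ev V).U (σ s) (T x))))
  rw [map_smul, ← hC, ← hcov z S hS, ← hC, Pool.Agent.Y662.ERG.inv1 hS hT]

theorem good_conjT (μ : ℝ) (hev : ∀ V, IsGrp c V (ev V))
    (hcov : ∀ (z : Site d) (S : L2 (Site d) →L[ℂ] L2 (Site d)), IsShift z S →
      ∀ V ψ, v (fun y => V (y + z)) (S ψ) = S (v V ψ)) {z : Site d}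
    {S T : L2 (Site d) →L[ℂ] L2 (Site d)} (hS : IsShift z S)
    (hT : IsShift (-z) T) (V : Site d → ℝ) (Nk : ℕ → ℕ) (B : L2 (Site d) →L[ℂ] L2 (Site d))
    (hB : GoodT μ (ev V) (v V) Nk B) :
    GoodT μ (ev fun y => V (y + z)) (v fun y => V (y + z)) Nk ((S.comp B).comp T) := by
  intro x
  obtain ⟨h1, h2⟩ := hB (T x)
  constructor
  · refine ((S.continuous.tendsto _).comp h1).congr fun k => ?_
    rw [av_conj μ continuous_id hev hcov hS hT]
    rfl
  · refine ((S.continuous.tendsto _).comp h2).congr fun k => ?_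
    rw [av_conj μ continuous_neg hev hcov hS hT]
    rfl

theorem cont_intT (μ : ℝ) {σ : ℝ → ℝ} (hσ : Continuous σ) (hev : ∀ V, IsGrp c V (ev V))
    (hO : Obs d v M) (T : ℝ) :
    Continuous fun p : (Site d → ℝ) × L2 (Site d) =>
      ∫ s in (0 : ℝ)..T, g μ (ev p.1) (v p.1) p.2 (σ s) := by
  have h := ALL.a_CV d c ev hev
  have h1 : Continuous (fun p : ((Site d → ℝ) × L2 (Site d)) × ℝ =>
      (ev p.1.1).U (σ p.2) p.1.2) :=
    h.comp (by fun_prop : Continuous fun p : ((Site d → ℝ) × L2 (Site d)) × ℝ =>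
      ((p.1.1, σ p.2, p.1.2) : (Site d → ℝ) × ℝ × L2 (Site d)))
  have h2 : Continuous (fun p : ((Site d → ℝ) × L2 (Site d)) × ℝ =>
      (ev p.1.1).U (-σ p.2) (v p.1.1 ((ev p.1.1).U (σ p.2) p.1.2))) :=
    h.comp ((continuous_fst.comp continuous_fst).prodMk
      (((hσ.comp continuous_snd).neg).prodMk
      (hO.cont.comp ((continuous_fst.comp continuous_fst).prodMk h1))))
  have h3 : Continuous (fun p : ((Site d → ℝ) × L2 (Site d)) × ℝ =>
      g μ (ev p.1.1) (v p.1.1) p.1.2 (σ p.2)) :=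
    ((ph_cont μ).comp (hσ.comp continuous_snd)).smul h2
  exact intervalIntegral.continuous_parametric_intervalIntegral_of_continuous'
    (f := fun (p : (Site d → ℝ) × L2 (Site d)) (s : ℝ) =>
      g μ (ev p.1) (v p.1) p.2 (σ s)) h3 0 T

theorem cont_av (μ : ℝ) {σ : ℝ → ℝ} (hσ : Continuous σ) (hev : ∀ V, IsGrp c V (ev V))
    (hO : Obs d v M) (N : ℕ) :
    Continuous fun V => av μ σ (ev V) (v V) N (dl 0) := by
  unfold av
  have h := (cont_intT μ hσ hev hO (N : ℝ)).comp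
    ((continuous_id (X := Site d → ℝ)).prodMk (continuous_const (y := (dl 0 : L2 (Site d)))))
  exact h.const_smul ((N : ℂ)⁻¹)

/-- subsequences: the averages with a phase converge strongly, almost surely -/
theorem lim2T (μ : ℝ) (hev : ∀ V, IsGrp c V (ev V))
    (hO : Obs d v M) (ν : Measure ℝ) [IsProbabilityMeasure ν]
    (Mk : ℕ → ℕ) (hMt : Tendsto Mk atTop atTop) :
      ∃ a : ℕ → ℕ, StrictMono a ∧
        ∀ᵐ V ∂(PP d ν), ∃ B : L2 (Site d) →L[ℂ] L2 (Site d),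
          GoodT μ (ev V) (v V) (Mk ∘ a) B := by
  have h2 : St_COV := ALL.a_COV
  have h3 : St_RES := t_RES
  have h4 : St_CV := ALL.a_CV
  have h5 : St_OPS := t_OPS
  obtain ⟨b, hb, hP0, hM0⟩ := limaT μ hev hO ν
  have hP := hP0.comp hMt
  have hM := hM0.comp hMt
  have hfP : ∀ N, AEMeasurable (fun V => ‖av μ id (ev V) (v V) N (dl 0) - b V‖ₑ ^ 2) (PP d ν) :=
    fun N => (((cont_av μ continuous_id hev hO N).aestronglyMeasurable).sub hb).enorm.pow_const 2
  have hfM : ∀ N, AEMeasurable (fun V => ‖av μ (fun s => -s) (ev V) (v V) N (dl 0) - b V‖ₑ ^ 2)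
      (PP d ν) :=
    fun N => (((cont_av μ continuous_neg hev hO N).aestronglyMeasurable).sub hb).enorm.pow_const 2
  have hPM := hP.add hM
  rw [add_zero] at hPM
  obtain ⟨a, hmono, hNk⟩ := extraction_forall_of_eventually
    (P := fun n k => (∫⁻ V, ‖av μ id (ev V) (v V) (Mk k) (dl 0) - b V‖ₑ ^ 2 ∂(PP d ν)) +
      (∫⁻ V, ‖av μ (fun s => -s) (ev V) (v V) (Mk k) (dl 0) - b V‖ₑ ^ 2 ∂(PP d ν)) <
        (2⁻¹ : ℝ≥0∞) ^ n)
    (fun n => (tendsto_order.1 hPM).2 _ (by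
      refine ENNReal.pow_pos ?_ n
      simp))
  refine ⟨a, hmono, ?_⟩
  set Nk : ℕ → ℕ := Mk ∘ a with hNkdef
  -- almost sure convergence at the origin
  have hfS : ∀ n, AEMeasurable (fun V => ‖av μ id (ev V) (v V) (Nk n) (dl 0) - b V‖ₑ ^ 2 +
      ‖av μ (fun s => -s) (ev V) (v V) (Nk n) (dl 0) - b V‖ₑ ^ 2) (PP d ν) := fun n =>
    (hfP (Nk n)).add (hfM (Nk n))
  have hsum : ∫⁻ V, ∑' n, (‖av μ id (ev V) (v V) (Nk n) (dl 0) - b V‖ₑ ^ 2 +
      ‖av μ (fun s => -s) (ev V) (v V) (Nk n) (dl 0) - b V‖ₑ ^ 2) ∂(PP d ν) ≠ ∞ := by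
    rw [lintegral_tsum hfS]
    have hle : ∑' n, ∫⁻ V, (‖av μ id (ev V) (v V) (Nk n) (dl 0) - b V‖ₑ ^ 2 +
        ‖av μ (fun s => -s) (ev V) (v V) (Nk n) (dl 0) - b V‖ₑ ^ 2) ∂(PP d ν) ≤
          ∑' n : ℕ, (2⁻¹ : ℝ≥0∞) ^ n := by
      refine ENNReal.tsum_le_tsum fun n => ?_
      rw [lintegral_add_left' (hfP (Nk n))]
      exact (hNk n).le
    refine ne_top_of_le_ne_top ?_ hle
    rw [ENNReal.tsum_geometric]
    simp
  have hae := ae_lt_top' (AEMeasurable.tsum hfS) hsum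
  have hG : ∀ᵐ V ∂(PP d ν), Tendsto (fun n => av μ id (ev V) (v V) (Nk n) (dl 0)) atTop
        (𝓝 (b V)) ∧
      Tendsto (fun n => av μ (fun s => -s) (ev V) (v V) (Nk n) (dl 0)) atTop (𝓝 (b V)) := by
    filter_upwards [hae] with V hV
    have h0 := ENNReal.tendsto_atTop_zero_of_tsum_ne_top hV.ne
    constructor
    · refine LIMB.tendsto_of_enorm_sq (tendsto_of_tendsto_of_tendsto_of_le_of_le
        tendsto_const_nhds h0 (fun _ => zero_le) fun n => ?_)
      exact le_self_add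
    · refine LIMB.tendsto_of_enorm_sq (tendsto_of_tendsto_of_tendsto_of_le_of_le
        tendsto_const_nhds h0 (fun _ => zero_le) fun n => ?_)
      exact le_add_self
  have hGz : ∀ᵐ V ∂(PP d ν), ∀ z : Site d,
      Tendsto (fun n => av μ id (ev fun y => V (y + z)) (v fun y => V (y + z)) (Nk n) (dl 0)) atTop
        (𝓝 (b fun y => V (y + z))) ∧
      Tendsto (fun n => av μ (fun s => -s) (ev fun y => V (y + z)) (v fun y => V (y + z)) (Nk n)
        (dl 0)) atTop (𝓝 (b fun y => V (y + z))) := by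
    rw [ae_all_iff]
    intro z
    exact ((h3 d ν).2 z).quasiMeasurePreserving.ae hG
  filter_upwards [hGz] with V hV
  have hlim : ∀ (z : Site d) (S : L2 (Site d) →L[ℂ] L2 (Site d)), IsShift (-z) S →
      Tendsto (fun k => TL μ continuous_id (ev V) (v V) (Nk k) (dl z)) atTop
        (𝓝 (S (b fun y => V (y + z)))) ∧
      Tendsto (fun k => TL μ continuous_neg (ev V) (v V) (Nk k) (dl z)) atTop
        (𝓝 (S (b fun y => V (y + z)))) := by
    intro z S hS
    obtain ⟨T, hT⟩ := (h5 d).1 z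
    have hinv : ∀ ψ, S (T ψ) = ψ := fun ψ => by
      ext x
      rw [hS, hT, neg_add_cancel_right]
    constructor
    · have := (S.continuous.tendsto _).comp (hV z).1
      refine this.congr fun k => ?_
      rw [TL_apply]
      have e := av_conj (z := z) μ continuous_id hev hO.cov hT hS V (Nk k) (dl 0)
      show S (av μ id (ev fun y => V (y + z)) (v fun y => V (y + z)) (Nk k) (dl 0)) = _
      rw [e, hinv, LIMB.shift_dl z S hS]
    · have := (S.continuous.tendsto _).comp (hV z).2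
      refine this.congr fun k => ?_
      rw [TL_apply]
      have e := av_conj (z := z) μ continuous_neg hev hO.cov hT hS V (Nk k) (dl 0)
      show S (av μ (fun s => -s) (ev fun y => V (y + z)) (v fun y => V (y + z)) (Nk k) (dl 0)) = _
      rw [e, hinv, LIMB.shift_dl z S hS]
  obtain ⟨B, hB⟩ := LIMB.ext_lim (fun k => TL μ continuous_id (ev V) (v V) (Nk k))
    (fun k => TL μ continuous_neg (ev V) (v V) (Nk k))
    ‖v V‖ (norm_nonneg _) (fun k => av_norm μ id (ev V) (v V) (Nk k))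
    (fun k => av_norm μ (fun s => -s) (ev V) (v V) (Nk k))
    (Site d) dl (LIMB.dl_dense d) (fun z => by
      obtain ⟨S, hS⟩ := (h5 d).1 (-z)
      exact ⟨_, hlim z S hS⟩)
  exact ⟨B, hB⟩

/-- the limit maps `δ_0` into its cyclic space, up to the singular part -/
theorem f1_0T (μ : ℝ) (hev : ∀ V, IsGrp c V (ev V)) (hO : Obs d v M) (ν : Measure ℝ)
    [IsProbabilityMeasure ν] (hν : ∀ κ : ℝ, ν {κ} ≠ 1) (Nk : ℕ → ℕ) (hNk : Tendsto Nk atTop atTop)
    (hG : ∀ᵐ V ∂(PP d ν), ∃ B : L2 (Site d) →L[ℂ] L2 (Site d), GoodT μ (ev V) (v V) Nk B) :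
    ∀ᵐ V ∂(PP d ν), ∀ B : L2 (Site d) →L[ℂ] L2 (Site d), GoodT μ (ev V) (v V) Nk B →
      ∀ φ ∈ HAC (ev V), (∀ t, ⟪φ, (ev V).U t (dl 0)⟫_ℂ = 0) → ⟪φ, B (dl 0)⟫_ℂ = 0 := by
  have hmp := (t_RES d ν).1
  have h1 : ∀ᵐ p ∂((PP d ν).prod ν), ∃ B : L2 (Site d) →L[ℂ] L2 (Site d),
      GoodT μ (ev (Function.update p.1 0 p.2)) (v (Function.update p.1 0 p.2)) Nk B :=
    hmp.quasiMeasurePreserving.ae hG
  have h2 := Measure.ae_ae_of_ae_prod h1
  filter_upwards [h2] with V hV B hB φ hφ hort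
  have h3 : ∃ k, k ≠ V 0 ∧ ∃ B : L2 (Site d) →L[ℂ] L2 (Site d),
      GoodT μ (ev (Function.update V 0 k)) (v (Function.update V 0 k)) Nk B := by
    by_contra h
    have h4 : ∀ᵐ k ∂ν, k = V 0 := by
      filter_upwards [hV] with k hk
      by_contra hne
      exact h ⟨k, hne, hk⟩
    have h5 : ν {V 0} = 1 := by
      rw [← prob_compl_eq_zero_iff (measurableSet_singleton _)]
      exact h4
    exact hν _ h5
  obtain ⟨k, hk, B', hB'⟩ := h3
  have hfam := t_FAM ALL.a_UN d c ev hev V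
  have hup : Function.update V 0 (V 0) = V := Function.update_eq_self 0 V
  obtain ⟨F, C, hF⟩ := hO.loc V k
  refine w6_hacT μ (fun κ => ev (Function.update V 0 κ)) (dl 0) hfam hk
    (v (Function.update V 0 k)) (v V) F (fun x => (dl x : L2 (Site d))) C
    (fun x => ?_) Nk hNk B' B hB' ?_ φ ?_ ?_
  · rw [norm_sub_rev]
    exact hF x
  · simpa only [hup] using hB
  · simpa only [hup] using hφ
  · simpa only [hup] using hort

theorem f1T (μ : ℝ) (hev : ∀ V, IsGrp c V (ev V)) (hO : Obs d v M) (ν : Measure ℝ)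
    [IsProbabilityMeasure ν] (hν : ∀ κ : ℝ, ν {κ} ≠ 1) (Nk : ℕ → ℕ) (hNk : Tendsto Nk atTop atTop)
    (hG : ∀ᵐ V ∂(PP d ν), ∃ B : L2 (Site d) →L[ℂ] L2 (Site d), GoodT μ (ev V) (v V) Nk B) :
    ∀ᵐ V ∂(PP d ν), ∀ B : L2 (Site d) →L[ℂ] L2 (Site d), GoodT μ (ev V) (v V) Nk B →
      ∀ z : Site d, ∀ φ ∈ HAC (ev V), (∀ t, ⟪φ, (ev V).U t (dl z)⟫_ℂ = 0) →
        ⟪φ, B (dl z)⟫_ℂ = 0 := by
  have h2 := f1_0T μ hev hO ν hν Nk hNk hG
  have h3 : ∀ᵐ V ∂(PP d ν), ∀ z : Site d, ∀ B : L2 (Site d) →L[ℂ] L2 (Site d),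
      GoodT μ (ev fun y => V (y + z)) (v fun y => V (y + z)) Nk B →
        ∀ φ ∈ HAC (ev fun y => V (y + z)),
          (∀ t, ⟪φ, (ev fun y => V (y + z)).U t (dl 0)⟫_ℂ = 0) →
          ⟪φ, B (dl 0)⟫_ℂ = 0 := by
    rw [ae_all_iff]
    intro z
    exact ((t_RES d ν).2 z).quasiMeasurePreserving.ae h2
  filter_upwards [h3] with V hV B hB z φ hφ hort
  obtain ⟨S, hS⟩ := (t_OPS d).1 z
  obtain ⟨T, hT⟩ := (t_OPS d).1 (-z)
  have hTd : T (dl 0) = dl z := LIMB.shift_dl z T hT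
  have hSd : S (dl z) = dl 0 := by
    rw [← hTd]
    exact Pool.Agent.Y662.ERG.inv1 hS hT (dl 0)
  have hSi : ∀ a b : L2 (Site d), ⟪S a, S b⟫_ℂ = ⟪a, b⟫_ℂ := by
    intro a b
    rw [STAT.shift_inner z S T hS hT, ZAC.inv2 hS hT]
  have h4 := hV z _ (good_conjT μ hev hO.cov hS hT V Nk B hB) (S φ)
    (ZAC.hac_conj hev hS hT V φ hφ)
    (fun t => by
      rw [← hSd, ALL.a_COV d c ev hev z S hS V, hSi]
      exact hort t)
  have h5 : ((S.comp B).comp T) (dl 0) = S (B (dl z)) := by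
    show S (B (T (dl 0))) = _
    rw [hTd]
  rw [h5, hSi] at h4
  exact h4

end Pool.Agent.H988.WM
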