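import Pool.Agent.H988.WM.Abs2

/-! # Weak mixing for stationary random curves -/

set_option autoImplicit false
set_option linter.unusedSectionVars false

open Filter Topology MeasureTheory
open scoped InnerProductSpace ComplexConjugate ENNReal NNReal

namespace Pool.Agent.H988.WM

variable {Ω : Type} [MeasurableSpace Ω] {X : Type} [NormedAddCommGroup X] [InnerProductSpace ℂ X]
  [CompleteSpace X]

/-- stationary random curves whose averages with all phases tend to zero in mean square -/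
structure PC (P : Measure Ω) (Y : ℝ → Ω → X) (C : ℝ) : Prop where
  bd : ∀ s ω, ‖Y s ω‖ ≤ C
  ct : ∀ ω, Continuous fun s => Y s ω
  ms : ∀ s, StronglyMeasurable (Y s)
  st : ∀ s t a : ℝ, ∫ ω, ⟪Y (s + a) ω, Y (t + a) ω⟫_ℂ ∂P = ∫ ω, ⟪Y s ω, Y t ω⟫_ℂ ∂P
  mn : ∀ μ : ℝ, Tendsto (fun N : ℕ => ∫⁻ ω, ‖((N : ℂ)⁻¹) • ∫ s in (0 : ℝ)..(N : ℝ),
    ph μ s • Y s ω‖ₑ ^ 2 ∂P) atTop (𝓝 0)

theorem inner_toLp {P : Measure Ω} {f g : Ω → X} (hf : MemLp f 2 P) (hg : MemLp g 2 P) :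
    ⟪hf.toLp, hg.toLp⟫_ℂ = ∫ ω, ⟪f ω, g ω⟫_ℂ ∂P := by
  rw [L2.inner_def]
  apply integral_congr_ae
  filter_upwards [hf.coeFn_toLp, hg.coeFn_toLp] with V h3 h4
  rw [h3, h4]

theorem inner_toLp' {P : Measure Ω} (u : Lp X 2 P) {g : Ω → X} (hg : MemLp g 2 P) :
    ⟪u, hg.toLp⟫_ℂ = ∫ ω, ⟪u ω, g ω⟫_ℂ ∂P := by
  rw [L2.inner_def]
  apply integral_congr_ae
  filter_upwards [hg.coeFn_toLp] with V h4
  rw [h4]

theorem enorm_toLp {P : Measure Ω} {f : Ω → X} (hf : MemLp f 2 P) :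
    ‖hf.toLp‖ₑ ^ 2 = ∫⁻ ω, ‖f ω‖ₑ ^ 2 ∂P := by
  rw [Lp.enorm_toLp]
  have h3 := eLpNorm_nnreal_pow_eq_lintegral (f := f) (μ := P) (p := 2) two_ne_zero
  have h4 : ((2 : ℝ≥0) : ℝ≥0∞) = 2 := rfl
  have h5 : ((2 : ℝ≥0) : ℝ) = 2 := rfl
  rw [h4, h5] at h3
  simp only [ENNReal.rpow_two] at h3
  exact h3

section wmp

variable {P : Measure Ω} [IsProbabilityMeasure P] {Y : ℝ → Ω → X} {C : ℝ}

theorem PC.mem (h : PC P Y C) (s : ℝ) : MemLp (Y s) 2 P :=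
  MemLp.of_bound (h.ms s).aestronglyMeasurable C (Eventually.of_forall (h.bd s))

/-- the curve in the Hilbert space of random vectors -/
noncomputable def PC.y (h : PC P Y C) (s : ℝ) : Lp X 2 P := (h.mem s).toLp

theorem PC.jm (h : PC P Y C) : StronglyMeasurable (Function.uncurry fun (s : ℝ) (ω : Ω) => Y s ω) :=
  stronglyMeasurable_uncurry_of_continuous_of_stronglyMeasurable h.ct h.ms

theorem PC.sc (h : PC P Y C) : Abs.SC h.y := by
  have hC : ∀ ω, 0 ≤ C := fun ω => (norm_nonneg _).trans (h.bd 0 ω)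
  have hin : ∀ s t, (inner ℂ (h.y s) (h.y t) : ℂ) = ∫ ω, ⟪Y s ω, Y t ω⟫_ℂ ∂P := fun s t =>
    inner_toLp (h.mem s) (h.mem t)
  have hst : ∀ s t a : ℝ, (inner ℂ (h.y (s + a)) (h.y (t + a)) : ℂ) = inner ℂ (h.y s) (h.y t) := by
    intro s t a
    rw [hin, hin]
    exact h.st s t a
  refine ⟨hst, ?_⟩
  have hnr : ∀ s, ‖h.y s‖ = ‖h.y 0‖ := by
    intro s
    have h1 := hst 0 0 s
    rw [zero_add, inner_self_eq_norm_sq_to_K, inner_self_eq_norm_sq_to_K] at h1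
    have h2 : ‖h.y s‖ ^ 2 = ‖h.y 0‖ ^ 2 := by exact_mod_cast h1
    exact (sq_eq_sq₀ (norm_nonneg _) (norm_nonneg _)).1 h2
  rw [continuous_iff_continuousAt]
  intro s0
  rw [ContinuousAt, tendsto_iff_norm_sub_tendsto_zero]
  have hc : Continuous fun s => (inner ℂ (h.y s) (h.y s0) : ℂ) := by
    simp only [hin]
    refine continuous_of_dominated (bound := fun _ => C * C) (fun s => ?_) (fun s => ?_)
      (integrable_const _) (Eventually.of_forall fun ω => ?_)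
    · exact ((h.ms s).inner (h.ms s0)).aestronglyMeasurable
    · refine Eventually.of_forall fun ω => ?_
      exact (norm_inner_le_norm _ _).trans
        (mul_le_mul (h.bd _ _) (h.bd _ _) (norm_nonneg _) (hC ω))
    · exact (h.ct ω).inner continuous_const
  have h1 : ∀ s, ‖h.y s - h.y s0‖ ^ 2 = 2 * ‖h.y 0‖ ^ 2 -
      2 * RCLike.re (inner ℂ (h.y s) (h.y s0) : ℂ) := by
    intro s
    rw [norm_sub_sq (𝕜 := ℂ), hnr s, hnr s0]
    ring
  have h2 : Tendsto (fun s => ‖h.y s - h.y s0‖ ^ 2) (𝓝 s0) (𝓝 0) := by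
    simp only [h1]
    have h3 := ((RCLike.continuous_re (K := ℂ)).tendsto _).comp (hc.tendsto s0)
    have h4 := (h3.const_mul 2).const_sub (2 * ‖h.y 0‖ ^ 2)
    have h5 : 2 * ‖h.y 0‖ ^ 2 - 2 * RCLike.re (inner ℂ (h.y s0) (h.y s0) : ℂ) = 0 := by
      rw [inner_self_eq_norm_sq (𝕜 := ℂ), hnr s0]
      ring
    rw [h5] at h4
    exact h4
  have h3 := (Real.continuous_sqrt.tendsto _).comp h2
  rw [Real.sqrt_zero] at h3
  refine h3.congr fun s => ?_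
  exact Real.sqrt_sq (norm_nonneg _)

theorem PC.intg (h : PC P Y C) (μ : ℝ) (N : ℕ) :
    ∃ hm : MemLp (fun ω => ∫ s in (0 : ℝ)..(N : ℝ), ph μ s • Y s ω) 2 P,
      ∫ s in (0 : ℝ)..(N : ℝ), ph μ s • h.y s = hm.toLp := by
  have h0N : (0 : ℝ) ≤ N := Nat.cast_nonneg N
  have hjm : StronglyMeasurable (Function.uncurry fun (s : ℝ) (ω : Ω) => ph μ s • Y s ω) := by
    have h1 : StronglyMeasurable fun p : ℝ × Ω => ph μ p.1 :=
      (ph_cont μ).stronglyMeasurable.comp_measurable measurable_fst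
    exact h1.smul h.jm
  have hjm' : StronglyMeasurable (Function.uncurry fun (ω : Ω) (s : ℝ) => ph μ s • Y s ω) :=
    hjm.comp_measurable measurable_swap
  have hW : StronglyMeasurable fun ω => ∫ s in (0 : ℝ)..(N : ℝ), ph μ s • Y s ω := by
    simp only [intervalIntegral.integral_of_le h0N]
    exact hjm'.integral_prod_right
  have hWb : ∀ ω, ‖∫ s in (0 : ℝ)..(N : ℝ), ph μ s • Y s ω‖ ≤ C * N := by
    intro ω
    have h1 := intervalIntegral.norm_integral_le_of_norm_le_const (a := (0 : ℝ)) (b := (N : ℝ))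
      (f := fun s => ph μ s • Y s ω) (C := C) (fun s _ => by
        rw [norm_smul, ph_norm, one_mul]
        exact h.bd s ω)
    rwa [sub_zero, abs_of_nonneg h0N] at h1
  have hm : MemLp (fun ω => ∫ s in (0 : ℝ)..(N : ℝ), ph μ s • Y s ω) 2 P :=
    MemLp.of_bound hW.aestronglyMeasurable (C * N) (Eventually.of_forall hWb)
  refine ⟨hm, ext_inner_left ℂ fun u => ?_⟩
  have hyc : Continuous fun s => ph μ s • h.y s := (ph_cont μ).smul h.sc.ct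
  have e1 : ⟪u, ∫ s in (0 : ℝ)..(N : ℝ), ph μ s • h.y s⟫_ℂ =
      ∫ s in (0 : ℝ)..(N : ℝ), ∫ ω, ⟪u ω, ph μ s • Y s ω⟫_ℂ ∂P := by
    have h1 := (innerSL ℂ u).intervalIntegral_comp_comm
      (hyc.intervalIntegrable (μ := volume) 0 (N : ℝ))
    refine Eq.trans h1.symm ?_
    refine intervalIntegral.integral_congr fun s _ => ?_
    show ⟪u, ph μ s • h.y s⟫_ℂ = ∫ ω, ⟪u ω, ph μ s • Y s ω⟫_ℂ ∂P
    simp only [inner_smul_right]
    rw [integral_const_mul]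
    congr 1
    exact inner_toLp' u (h.mem s)
  have e2 : ⟪u, hm.toLp⟫_ℂ = ∫ ω, (∫ s in (0 : ℝ)..(N : ℝ), ⟪u ω, ph μ s • Y s ω⟫_ℂ) ∂P := by
    rw [inner_toLp' u hm]
    refine integral_congr_ae (Eventually.of_forall fun ω => ?_)
    have hc : Continuous fun s => ph μ s • Y s ω := (ph_cont μ).smul (h.ct ω)
    exact ((innerSL ℂ (u ω)).intervalIntegral_comp_comm
      (hc.intervalIntegrable (μ := volume) 0 (N : ℝ))).symm
  rw [e1, e2]
  simp only [intervalIntegral.integral_of_le h0N]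
  refine integral_integral_swap ?_
  -- integrability
  have hu : AEStronglyMeasurable (fun p : ℝ × Ω => (u : Ω → X) p.2)
      ((volume.restrict (Set.Ioc (0 : ℝ) N)).prod P) :=
    (Lp.aestronglyMeasurable u).comp_snd
  have hi : Integrable (fun p : ℝ × Ω => ‖(u : Ω → X) p.2‖ * C)
      ((volume.restrict (Set.Ioc (0 : ℝ) N)).prod P) := by
    have h1 : Integrable (fun ω => ‖(u : Ω → X) ω‖ * C) P :=
      (((Lp.memLp u).integrable (by norm_num)).norm).mul_const C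
    exact h1.comp_snd _
  refine Integrable.mono' hi (hu.inner (𝕜 := ℂ) hjm.aestronglyMeasurable)
    (Eventually.of_forall fun p => ?_)
  show ‖⟪(u : Ω → X) p.2, ph μ p.1 • Y p.1 p.2⟫_ℂ‖ ≤ ‖(u : Ω → X) p.2‖ * C
  refine (norm_inner_le_norm _ _).trans ?_
  rw [norm_smul, ph_norm, one_mul]
  exact mul_le_mul_of_nonneg_left (h.bd _ _) (norm_nonneg _)

theorem PC.mean (h : PC P Y C) (μ : ℝ) :
    Tendsto (fun N : ℕ => ((N : ℂ)⁻¹) • ∫ s in (0 : ℝ)..(N : ℝ), ph μ s • h.y s) atTop (𝓝 0) := by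
  rw [tendsto_zero_iff_enorm_tendsto_zero]
  have h1 := h.mn μ
  have h2 : ∀ N : ℕ, ‖((N : ℂ)⁻¹) • ∫ s in (0 : ℝ)..(N : ℝ), ph μ s • h.y s‖ₑ ^ 2 =
      ∫⁻ ω, ‖((N : ℂ)⁻¹) • ∫ s in (0 : ℝ)..(N : ℝ), ph μ s • Y s ω‖ₑ ^ 2 ∂P := by
    intro N
    obtain ⟨hm, he⟩ := h.intg μ N
    rw [he]
    have h3 := enorm_toLp (hm.const_smul ((N : ℂ)⁻¹))
    rw [MemLp.toLp_const_smul] at h3
    exact h3
  have h3 : Tendsto (fun N : ℕ => (‖((N : ℂ)⁻¹) • ∫ s in (0 : ℝ)..(N : ℝ),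
      ph μ s • h.y s‖ₑ ^ 2) ^ (2⁻¹ : ℝ)) atTop (𝓝 (0 ^ (2⁻¹ : ℝ))) := by
    simp only [h2]
    exact (ENNReal.continuous_rpow_const.tendsto _).comp h1
  rw [ENNReal.zero_rpow_of_pos (by norm_num)] at h3
  refine h3.congr fun N => ?_
  rw [← ENNReal.rpow_natCast, ← ENNReal.rpow_mul]
  norm_num

/-- weak mixing for random curves -/
theorem PC.wm (h : PC P Y C) {Z : Ω → X} (hZ : MemLp Z 2 P) :
    Tendsto (fun T : ℝ => T⁻¹ * ∫ s in (0 : ℝ)..T, ‖∫ ω, ⟪Z ω, Y s ω⟫_ℂ ∂P‖ ^ 2) atTop (𝓝 0) := by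
  rw [Metric.tendsto_atTop]
  intro ε hε
  obtain ⟨T0, hT0, hw⟩ := Abs.wm h.sc h.mean hZ.toLp (half_pos hε)
  refine ⟨T0, fun T hT => ?_⟩
  have hTp : 0 < T := hT0.trans_le hT
  have h1 := hw T hT
  have h2 : ∀ s, (inner ℂ hZ.toLp (h.y s) : ℂ) = ∫ ω, ⟪Z ω, Y s ω⟫_ℂ ∂P := fun s =>
    inner_toLp hZ (h.mem s)
  simp only [h2] at h1
  have h3 : 0 ≤ ∫ s in (0 : ℝ)..T, ‖∫ ω, ⟪Z ω, Y s ω⟫_ℂ ∂P‖ ^ 2 :=
    intervalIntegral.integral_nonneg hTp.le fun s _ => by positivity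
  rw [Real.dist_eq, sub_zero, abs_of_nonneg (by positivity)]
  calc T⁻¹ * ∫ s in (0 : ℝ)..T, ‖∫ ω, ⟪Z ω, Y s ω⟫_ℂ ∂P‖ ^ 2 ≤ T⁻¹ * (ε / 2 * T) := by gcongr
    _ = ε / 2 := by field_simp
    _ < ε := half_lt_self hε

end wmp

end Pool.Agent.H988.WM
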