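import Pool.Agent.H988.WM.Lat

/-! # Potentials with an additive constant; adjoints of the limits -/

set_option autoImplicit false

open MeasureTheory Filter Topology
open scoped BigOperators ENNReal NNReal InnerProductSpace ComplexConjugate

namespace Pool.Agent.H988.WM

open Pool.Agent.H5R2.NB Pool.Agent.H5R2.NBA
open Pool.Agent.Y662.ERG (Obs tauO shf)

section sy

variable {X : Type} [NormedAddCommGroup X] [InnerProductSpace ℂ X]

theorem goodT_sub {μ : ℝ} {W : UG X} {v : X →L[ℂ] X} {Nk : ℕ → ℕ} {B : X →L[ℂ] X}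
    (h : GoodT μ W v Nk B) {a : ℕ → ℕ} (ha : Tendsto a atTop atTop) :
    GoodT μ W v (Nk ∘ a) B := fun x => ⟨(h x).1.comp ha, (h x).2.comp ha⟩

theorem g_symm (μ : ℝ) (W : UG X) (v : X →L[ℂ] X) (hv : ∀ x y, ⟪v x, y⟫_ℂ = ⟪x, v y⟫_ℂ)
    (x y : X) (s : ℝ) : ⟪g (-μ) W v x s, y⟫_ℂ = ⟪x, g μ W v y s⟫_ℂ := by
  show ⟪ph (-μ) s • W.U (-s) (v (W.U s x)), y⟫_ℂ = ⟪x, ph μ s • W.U (-s) (v (W.U s y))⟫_ℂ
  rw [inner_smul_left, inner_smul_right, ph_conj, ph_neg_mu, neg_neg]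
  congr 1
  rw [NN.inner_adj, neg_neg, hv]
  rw [NN.inner_adj]

theorem av_symm [CompleteSpace X] (μ : ℝ) (W : UG X) (v : X →L[ℂ] X)
    (hv : ∀ x y, ⟪v x, y⟫_ℂ = ⟪x, v y⟫_ℂ) (N : ℕ) (x y : X) :
    ⟪av (-μ) id W v N x, y⟫_ℂ = ⟪x, av μ id W v N y⟫_ℂ := by
  have h1 : ∀ (μ : ℝ) (a b : X), ⟪a, ∫ s in (0 : ℝ)..(N : ℝ), g μ W v b s⟫_ℂ =
      ∫ s in (0 : ℝ)..(N : ℝ), ⟪a, g μ W v b s⟫_ℂ := by
    intro μ a b
    exact ((innerSL ℂ a).intervalIntegral_comp_comm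
      ((g_cont μ W v b).intervalIntegrable (μ := volume) 0 (N : ℝ))).symm
  have h2 : ⟪∫ s in (0 : ℝ)..(N : ℝ), g (-μ) W v x s, y⟫_ℂ =
      ⟪x, ∫ s in (0 : ℝ)..(N : ℝ), g μ W v y s⟫_ℂ := by
    rw [← inner_conj_symm, h1, h1, intervalIntegral.integral_of_le (Nat.cast_nonneg N),
      intervalIntegral.integral_of_le (Nat.cast_nonneg N), ← integral_conj]
    refine integral_congr_ae (Eventually.of_forall fun s => ?_)
    show conj ⟪y, g (-μ) W v x s⟫_ℂ = ⟪x, g μ W v y s⟫_ℂ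
    rw [inner_conj_symm, g_symm μ W v hv]
  show ⟪((N : ℂ)⁻¹) • ∫ s in (0 : ℝ)..(N : ℝ), g (-μ) W v x s, y⟫_ℂ =
    ⟪x, ((N : ℂ)⁻¹) • ∫ s in (0 : ℝ)..(N : ℝ), g μ W v y s⟫_ℂ
  rw [inner_smul_left, inner_smul_right, h2, map_inv₀, Complex.conj_natCast]

theorem good_adj [CompleteSpace X] {μ : ℝ} {W : UG X} {v : X →L[ℂ] X}
    (hv : ∀ x y, ⟪v x, y⟫_ℂ = ⟪x, v y⟫_ℂ) {Nk : ℕ → ℕ} {B B' : X →L[ℂ] X}
    (hB : GoodT μ W v Nk B) (hB' : GoodT (-μ) W v Nk B') (x y : X) :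
    ⟪B' x, y⟫_ℂ = ⟪x, B y⟫_ℂ := by
  have h1 : Tendsto (fun k => ⟪av (-μ) id W v (Nk k) x, y⟫_ℂ) atTop (𝓝 ⟪B' x, y⟫_ℂ) :=
    (hB' x).1.inner tendsto_const_nhds
  have h2 : Tendsto (fun k => ⟪x, av μ id W v (Nk k) y⟫_ℂ) atTop (𝓝 ⟪x, B y⟫_ℂ) :=
    tendsto_const_nhds.inner (hB y).1
  refine tendsto_nhds_unique h1 (h2.congr fun k => ?_)
  exact (av_symm μ W v hv (Nk k) x y).symm

end sy

variable {d : ℕ} {v : (Site d → ℝ) → L2 (Site d) →L[ℂ] L2 (Site d)} {M : ℝ}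
  {c : ℝ} {ev : (Site d → ℝ) → UG (L2 (Site d))}

/-- the averages with a phase converge along subsequences; the limit maps each `δ_z` into its
cyclic space, up to the singular part -/
theorem lim_offT (μ : ℝ) (o : ℝ) (hev : ∀ ω : Site d → ℝ, IsGrp c (fun x => o + ω x) (ev ω))
    (hO : Obs d v M) (ν : Measure ℝ) [IsProbabilityMeasure ν] (hν : ∀ κ : ℝ, ν {κ} ≠ 1)
    (Mk : ℕ → ℕ) (hMk : Tendsto Mk atTop atTop) :
      ∃ a : ℕ → ℕ, StrictMono a ∧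
        ∀ᵐ ω ∂(PP d ν), ∃ B : L2 (Site d) →L[ℂ] L2 (Site d), GoodT μ (ev ω) (v ω) (Mk ∘ a) B ∧
          ∀ z : Site d, ∀ φ ∈ HAC (ev ω), (∀ t, ⟪φ, (ev ω).U t (dl z)⟫_ℂ = 0) →
            ⟪φ, B (dl z)⟫_ℂ = 0 := by
  have hev' : ∀ V, IsGrp c V (ev (shf o V)) := by
    intro V
    have h := hev (shf o V)
    have e : (fun x => o + shf o V x) = V := by
      funext x
      unfold shf
      ring
    rwa [e] at h
  set e : (Site d → ℝ) ≃ᵐ (Site d → ℝ) := MeasurableEquiv.addLeft (fun _ : Site d => o) with he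
  have hei : ∀ ω, e ω = fun x => o + ω x := fun ω => rfl
  have hse : ∀ ω, shf o (e ω) = ω := by
    intro ω
    rw [hei]
    funext x
    unfold shf
    ring
  have hg : Measurable (fun r : ℝ => o + r) := by fun_prop
  have hpm : IsProbabilityMeasure (ν.map fun r : ℝ => o + r) :=
    Measure.isProbabilityMeasure_map hg.aemeasurable
  have hmap : (PP d ν).map e = PP d (ν.map fun r : ℝ => o + r) := by
    unfold PP
    exact Measure.infinitePi_map_pi (μ := fun _ : Site d => ν) (fun _ => hg)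
  have hne : ∀ κ : ℝ, (ν.map fun r : ℝ => o + r) {κ} ≠ 1 := by
    intro κ
    rw [Measure.map_apply hg (measurableSet_singleton κ)]
    have : (fun r : ℝ => o + r) ⁻¹' {κ} = {κ - o} := by
      ext r
      simp only [Set.mem_preimage, Set.mem_singleton_iff]
      constructor <;> intro h <;> linarith
    rw [this]
    exact hν _
  obtain ⟨a, ha, hG⟩ := lim2T μ hev' (hO.off o) (ν.map fun r : ℝ => o + r) Mk hMk
  refine ⟨a, ha, ?_⟩
  have hNk : Tendsto (Mk ∘ a) atTop atTop := hMk.comp ha.tendsto_atTop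
  have hF := f1T μ hev' (hO.off o) (ν.map fun r : ℝ => o + r) hne (Mk ∘ a) hNk hG
  have hGF := hG.and hF
  rw [← hmap, e.measurableEmbedding.ae_map_iff] at hGF
  filter_upwards [hGF] with ω ⟨⟨B, hB1⟩, hω⟩
  rw [hse] at hB1 hω
  exact ⟨B, hB1, hω B hB1⟩

end Pool.Agent.H988.WM
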