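import Pool.Agent.H988.WM.Gf
import Pool.Agent.H988.WM.Lpm

/-! # Weak mixing of the Heisenberg dynamics on the absolutely continuous subspace -/

set_option autoImplicit false
set_option linter.unusedSectionVars false

open MeasureTheory Filter Topology Set
open scoped ENNReal NNReal InnerProductSpace ComplexConjugate

namespace Pool.Agent.H988.WM

open Pool.Agent.TH980.IM Pool.Agent.H5R2
open Pool.Agent.Y662.ERG
open Pool.Agent.TH980.IM.PR
open Pool.Agent.R988.NQ

section push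

variable {Ω : Type} [MeasurableSpace Ω] {X : Type} [NormedAddCommGroup X] [InnerProductSpace ℂ X]
  [CompleteSpace X] {P : Measure Ω} [IsProbabilityMeasure P] {Y : ℝ → Ω → X} {C : ℝ}

/-- measurability of the averages -/
theorem sm_mean (hct : ∀ ω, Continuous fun s => Y s ω) (hms : ∀ s, StronglyMeasurable (Y s))
    (μ : ℝ) (N : ℕ) :
    StronglyMeasurable fun ω => ((N : ℂ)⁻¹) • ∫ s in (0 : ℝ)..(N : ℝ), ph μ s • Y s ω := by
  have hjm0 : StronglyMeasurable (Function.uncurry fun (s : ℝ) (ω : Ω) => Y s ω) :=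
    stronglyMeasurable_uncurry_of_continuous_of_stronglyMeasurable hct hms
  have hjm : StronglyMeasurable (Function.uncurry fun (s : ℝ) (ω : Ω) => ph μ s • Y s ω) := by
    have h1 : StronglyMeasurable fun p : ℝ × Ω => ph μ p.1 :=
      (ph_cont μ).stronglyMeasurable.comp_measurable measurable_fst
    exact h1.smul hjm0
  have hjm' : StronglyMeasurable (Function.uncurry fun (ω : Ω) (s : ℝ) => ph μ s • Y s ω) :=
    hjm.comp_measurable measurable_swap
  simp only [intervalIntegral.integral_of_le (Nat.cast_nonneg (α := ℝ) N)]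
  have h2 : StronglyMeasurable fun ω => ∫ s in Ioc (0 : ℝ) N, ph μ s • Y s ω :=
    hjm'.integral_prod_right
  exact h2.const_smul ((N : ℂ)⁻¹)

theorem PC.push (h : PC P Y C) {τ : Ω → Ω} (hτ : MeasurePreserving τ P P) (S : X →L[ℂ] X)
    (hS : ∀ a b, ⟪S a, S b⟫_ℂ = ⟪a, b⟫_ℂ) : PC P (fun s ω => S (Y s (τ ω))) C := by
  have hSn : ∀ a, ‖S a‖ = ‖a‖ := by
    intro a
    have h1 := hS a a
    rw [inner_self_eq_norm_sq_to_K, inner_self_eq_norm_sq_to_K] at h1
    have h2 : ‖S a‖ ^ 2 = ‖a‖ ^ 2 := by exact_mod_cast h1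
    exact (sq_eq_sq₀ (norm_nonneg _) (norm_nonneg _)).1 h2
  refine ⟨fun s ω => ?_, fun ω => S.continuous.comp (h.ct (τ ω)), fun s => ?_, fun s t a => ?_,
    fun μ => ?_⟩
  · rw [hSn]
    exact h.bd s (τ ω)
  · exact S.continuous.comp_stronglyMeasurable ((h.ms s).comp_measurable hτ.measurable)
  · have key : ∀ s t : ℝ, ∫ ω, ⟪S (Y s (τ ω)), S (Y t (τ ω))⟫_ℂ ∂P = ∫ ω, ⟪Y s ω, Y t ω⟫_ℂ ∂P := by
      intro s t
      simp only [hS]
      have hf : AEStronglyMeasurable (fun ω => ⟪Y s ω, Y t ω⟫_ℂ) (Measure.map τ P) :=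
        ((h.ms s).inner (h.ms t)).aestronglyMeasurable
      have h1 := integral_map hτ.measurable.aemeasurable hf
      rw [hτ.map_eq] at h1
      exact h1.symm
    rw [key, key]
    exact h.st s t a
  · refine (h.mn μ).congr fun N => ?_
    have hF : Measurable fun ω => ‖((N : ℂ)⁻¹) • ∫ s in (0 : ℝ)..(N : ℝ), ph μ s • Y s ω‖ₑ ^ 2 :=
      ((sm_mean h.ct h.ms μ N).enorm).pow_const 2
    rw [← hτ.lintegral_comp hF]
    refine lintegral_congr fun ω => ?_
    have hc : Continuous fun s => ph μ s • Y s (τ ω) := (ph_cont μ).smul (h.ct (τ ω))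
    have e1 : ∫ s in (0 : ℝ)..(N : ℝ), ph μ s • S (Y s (τ ω)) =
        S (∫ s in (0 : ℝ)..(N : ℝ), ph μ s • Y s (τ ω)) := by
      have e2 := ContinuousLinearMap.intervalIntegral_comp_comm S
        (hc.intervalIntegrable (μ := volume) (0 : ℝ) (N : ℝ))
      refine Eq.trans ?_ e2
      refine intervalIntegral.integral_congr fun s _ => ?_
      show ph μ s • S (Y s (τ ω)) = S (ph μ s • Y s (τ ω))
      rw [map_smul]
    rw [e1, ← map_smul, ← ofReal_norm (S _), hSn, ofReal_norm]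

end push

section app

variable {d : ℕ} {ev : (NB.Site d → ℝ) → NB.UG (L2 d)}

/-- the trace is invariant under the flow -/
theorem flow_inner {c o : ℝ}
    (hev : ∀ ω : NB.Site d → ℝ, NB.IsGrp c (fun x => o + ω x) (ev ω))
    {ν : Measure ℝ} [IsProbabilityMeasure ν] {X X' Y Y' : OF d} {a b a' b' : ℝ}
    (ha : 0 ≤ a) (hb : 0 ≤ b)
    (hX : Fld a X) (hX' : Fld a' X') (hY : Fld b Y) (hY' : Fld b' Y') (aX : Adj X X')
    (aY : Adj Y Y') (t : ℝ) :
    ∫ V, ⟪X V ((ev V).U t (NB.dl 0)), Y V ((ev V).U t (NB.dl 0))⟫_ℂ ∂(NB.PP d ν) =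
      ∫ V, ⟪X V (NB.dl 0), Y V (NB.dl 0)⟫_ℂ ∂(NB.PP d ν) := by
  have h1 := trace (ν := ν) (hX.mul ha (fld_Uo hev t))
    ((fld_Uo hev (-t)).mul zero_le_one hX') (hY.mul hb (fld_Uo hev t))
    ((fld_Uo hev (-t)).mul zero_le_one hY') (Adj.mul aX (adj_U t)) (Adj.mul aY (adj_U t))
  have h2 := trace (ν := ν) hX hX' hY hY' aX aY
  have h3 : ∫ V, ⟪vec (mulF (Uf ev (-t)) Y') V, vec (mulF (Uf ev (-t)) X') V⟫_ℂ ∂(NB.PP d ν) =
      ∫ V, ⟪vec Y' V, vec X' V⟫_ℂ ∂(NB.PP d ν) := by
    refine integral_congr_ae (Eventually.of_forall fun V => ?_)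
    show ⟪(ev V).U (-t) (Y' V (NB.dl 0)), (ev V).U (-t) (X' V (NB.dl 0))⟫_ℂ =
      ⟪Y' V (NB.dl 0), X' V (NB.dl 0)⟫_ℂ
    rw [NB.NN.inner_adj, neg_neg, ← (ev V).add', add_neg_cancel, (ev V).zero']
  rw [h3, ← h2] at h1
  exact h1

/-- the conserved part of a general field -/
theorem lim_gen {c o : ℝ}
    (hev : ∀ ω : NB.Site d → ℝ, NB.IsGrp c (fun x => o + ω x) (ev ω))
    {ν : Measure ℝ} [IsProbabilityMeasure ν]
    {A : OF d} {M : ℝ} (hA : Fld M A) (hA' : Fld M (adjF A)) :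
    ∃ (B : OF d) (C : ℝ), 0 ≤ C ∧ Fld C B ∧ Fld C (adjF B) ∧
      (∀ V t x, B V ((ev V).U t x) = (ev V).U t (B V x)) ∧
      ∀ᵐ V ∂(NB.PP d ν), ∀ x, Tendsto (fun N : ℕ => av 0 id (ev V) (A V) N x) atTop
        (𝓝 (B V x)) := by
  have hre : Fld (‖(2⁻¹ : ℂ)‖ * (M + M)) (reF A) := (hA.add hA').smul 2⁻¹
  have him : Fld (‖(-(Complex.I * 2⁻¹) : ℂ)‖ * (M + M)) (imF A) :=
    (hA.sub hA').smul (-(Complex.I * 2⁻¹))
  obtain ⟨B1, b1, _, b3, b4⟩ := erg_off (ν := ν) o hev hre (sym_re A)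
  obtain ⟨B2, c1, _, c3, c4⟩ := erg_off (ν := ν) o hev him (sym_im A)
  set B : OF d := addF B1 (fun V => Complex.I • B2 V) with hB
  have hBf := b1.add (c1.smul Complex.I)
  have hBb : ∀ V ψ, ‖B V ψ‖ ≤ _ * ‖ψ‖ := hBf.bd
  have hfl := flds hBb (fun u x => by
    have h1 := hBf.meas (fun _ => u) stronglyMeasurable_const
    exact ((NB.STAT.cont_eval x).comp_stronglyMeasurable h1).measurable) hBf.cov
  refine ⟨B, _, hBf.nonneg, hfl.1, hfl.2, fun V t x => ?_, ?_⟩
  · show B1 V ((ev V).U t x) + Complex.I • B2 V ((ev V).U t x) =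
      (ev V).U t (B1 V x + Complex.I • B2 V x)
    rw [b3, c3, map_add, map_smul]
  · filter_upwards [b4, c4] with V h1 h2 x
    have h3 := (h1 x).add ((h2 x).const_smul Complex.I)
    refine h3.congr fun N => ?_
    have e0 : ∀ v : L2 d →L[ℂ] L2 d, NB.avP (ev V) v N x = av 0 id (ev V) v N x := by
      intro v
      unfold NB.avP av
      congr 1
      refine intervalIntegral.integral_congr fun s _ => ?_
      show (ev V).U (-s) (v ((ev V).U s x)) = ph 0 s • (ev V).U (-s) (v ((ev V).U s x))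
      have : ph 0 s = 1 := by
        unfold ph
        simp
      rw [this, one_smul]
    rw [e0, e0, ← av_smul, ← av_add]
    congr 1
    ext1 ψ
    exact (re_im A V ψ).symm

/-- the evolution of the deviation of an observable from its conserved part -/
noncomputable def Yc (ev : (NB.Site d → ℝ) → NB.UG (L2 d)) (D P : OF d) (x : NB.Site d) (s : ℝ)
    (ω : NB.Site d → ℝ) : L2 d :=
  (ev ω).U (-s) (D ω ((ev ω).U s (P ω (NB.dl x))))

theorem pc0 (hd : 1 ≤ d) {K : ℝ} {ν : Measure ℝ} [IsProbabilityMeasure ν]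
    (hK : ∀ᵐ r ∂ν, |r| ≤ K) (hν : ∀ r : ℝ, ν {r} ≠ 1)
    (hev : ∀ ω : NB.Site d → ℝ, NB.IsGrp (-1) (fun x => 2 * d + ω x) (ev ω))
    {A B P : OF d} {M C : ℝ} (hM : 0 ≤ M) (hC : 0 ≤ C) (hA : Fld M A) (hA' : Fld M (adjF A))
    (hB : Fld C B) (hB' : Fld C (adjF B))
    (cB : ∀ V t x, B V ((ev V).U t x) = (ev V).U t (B V x))
    (lB : ∀ᵐ V ∂(NB.PP d ν), ∀ x, Tendsto (fun N : ℕ => av 0 id (ev V) (A V) N x) atTop
        (𝓝 (B V x)))
    (hP : Fld 1 P) (sP : Sym P) (eP : ∀ᵐ ω ∂(NB.PP d ν), P ω = PA K ω) :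
    PC (NB.PP d ν) (Yc ev (subF A B) P 0) (M + C) := by
  have hD : Fld (M + C) (subF A B) := hA.sub hB
  have hadj : adjF (subF A B) = subF (adjF A) (adjF B) := by
    funext V
    show ContinuousLinearMap.adjoint (A V - B V) =
      ContinuousLinearMap.adjoint (A V) - ContinuousLinearMap.adjoint (B V)
    exact map_sub _ _ _
  have hD' : Fld (M + C) (adjF (subF A B)) := by
    rw [hadj]
    exact hA'.sub hB'
  have aD : Adj (subF A B) (adjF (subF A B)) := fun V f g => (adjF_right _ V f g).symm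
  have hMC : 0 ≤ M + C := add_nonneg hM hC
  have hPn : ∀ ω, ‖P ω (NB.dl 0)‖ ≤ 1 := fun ω => hP.nb ω
  have hbd : ∀ s ω, ‖Yc ev (subF A B) P 0 s ω‖ ≤ M + C := by
    intro s ω
    unfold Yc
    rw [(ev ω).norm']
    refine (hD.bd ω _).trans ?_
    rw [(ev ω).norm']
    calc (M + C) * ‖P ω (NB.dl 0)‖ ≤ (M + C) * 1 := mul_le_mul_of_nonneg_left (hPn ω) hMC
      _ = M + C := mul_one _
  have hct : ∀ ω, Continuous fun s => Yc ev (subF A B) P 0 s ω := fun ω =>
    NB.LIMB.cont_P (ev ω) (subF A B ω) (P ω (NB.dl 0))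
  have hms : ∀ s, StronglyMeasurable (Yc ev (subF A B) P 0 s) := fun s =>
    (fld_Uo hev (-s)).meas _ (hD.meas _ ((fld_Uo hev s).meas _ hP.sm))
  refine ⟨hbd, hct, hms, fun s t a => ?_, fun μ => ?_⟩
  · -- stationarity
    set G : ℝ → OF d := fun s => mulF (mulF (Uf ev (-s)) (mulF (subF A B) (Uf ev s))) P with hG
    have hGf : ∀ s, Fld ((1 * ((M + C) * 1)) * 1) (G s) := fun s =>
      (((fld_Uo hev (-s)).mul zero_le_one (hD.mul hMC (fld_Uo hev s))).mul (by simpa using hMC) hP)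
    set G' : ℝ → OF d := fun s => mulF P (mulF (mulF (Uf ev (-s)) (adjF (subF A B)))
      (Uf ev (-(-s)))) with hG'
    have hGf' : ∀ s, Fld (1 * ((1 * (M + C)) * 1)) (G' s) := fun s =>
      hP.mul zero_le_one ((((fld_Uo hev (-s)).mul zero_le_one hD')).mul (by simpa using hMC)
        (fld_Uo hev (-(-s))))
    have hadG : ∀ s, Adj (G s) (G' s) := fun s =>
      Adj.mul (Adj.mul (adj_U (-s)) (Adj.mul aD (adj_U s))) sP.adj
    have h0 : (0 : ℝ) ≤ (1 * ((M + C) * 1)) * 1 := by simpa using hMC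
    have h1 := flow_inner (ν := ν) hev h0 h0 (hGf s) (hGf' s) (hGf t) (hGf' t) (hadG s) (hadG t) a
    have h2 : ∀ s, ∀ᵐ V ∂(NB.PP d ν), Yc ev (subF A B) P 0 (s + a) V =
        (ev V).U (-a) (G s V ((ev V).U a (NB.dl 0))) := by
      intro s
      filter_upwards [eP, bd_ae (d := d) hK] with V e1 e2
      have e3 : P V ((ev V).U a (NB.dl 0)) = (ev V).U a (P V (NB.dl 0)) := by
        rw [e1, grp_Ex e2 (hev V), grp_Ex e2 (hev V)]
        exact PA_Ex K V a _
      show (ev V).U (-(s + a)) (subF A B V ((ev V).U (s + a) (P V (NB.dl 0)))) =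
        (ev V).U (-a) ((ev V).U (-s) (subF A B V ((ev V).U s (P V ((ev V).U a (NB.dl 0))))))
      rw [e3, neg_add_rev, (ev V).add', (ev V).add']
    have h3 : ∫ V, ⟪Yc ev (subF A B) P 0 (s + a) V, Yc ev (subF A B) P 0 (t + a) V⟫_ℂ
        ∂(NB.PP d ν) = ∫ V, ⟪G s V ((ev V).U a (NB.dl 0)), G t V ((ev V).U a (NB.dl 0))⟫_ℂ
        ∂(NB.PP d ν) := by
      refine integral_congr_ae ?_
      filter_upwards [h2 s, h2 t] with V e1 e2
      rw [e1, e2, NB.NN.inner_adj, neg_neg, ← (ev V).add', add_neg_cancel, (ev V).zero']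
    rw [h3, h1]
    rfl
  · -- averages
    change Tendsto (fun N : ℕ => ∫⁻ ω, ‖av μ id (ev ω) (subF A B ω) N
      (P ω (NB.dl 0))‖ₑ ^ 2 ∂(NB.PP d ν)) atTop (𝓝 0)
    by_cases hμ : μ = 0
    · subst hμ
      have h5 : Tendsto (fun N : ℕ => ∫⁻ ω, ‖av 0 id (ev ω) (subF A B ω) N
          (P ω (NB.dl 0))‖ₑ ^ 2 ∂(NB.PP d ν)) atTop (𝓝 (∫⁻ _ω, 0 ∂(NB.PP d ν))) := by
        refine tendsto_lintegral_of_dominated_convergence'
          (fun _ => ENNReal.ofReal ((M + C) ^ 2)) (fun N => ?_) (fun N => ?_) ?_ ?_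
        · have h6 := sm_mean hct hms 0 N
          exact ((h6.enorm).pow_const 2).aemeasurable
        · refine Eventually.of_forall fun ω => ?_
          show ‖av 0 id (ev ω) (subF A B ω) N (P ω (NB.dl 0))‖ₑ ^ 2 ≤ _
          rw [← ofReal_norm, ← ENNReal.ofReal_pow (norm_nonneg _)]
          refine ENNReal.ofReal_le_ofReal (pow_le_pow_left₀ (norm_nonneg _) ?_ 2)
          refine (av_norm 0 id (ev ω) (subF A B ω) N _).trans ?_
          calc ‖subF A B ω‖ * ‖P ω (NB.dl 0)‖ ≤ (M + C) * 1 :=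
                mul_le_mul (ContinuousLinearMap.opNorm_le_bound _ hMC (hD.bd ω)) (hPn ω)
                  (norm_nonneg _) hMC
            _ = M + C := mul_one _
        · rw [lintegral_const]
          simp
        · filter_upwards [lB] with ω hω
          have h7 := (hω (P ω (NB.dl 0))).sub_const (B ω (P ω (NB.dl 0)))
          rw [sub_self] at h7
          have h8 : Tendsto (fun N : ℕ => av 0 id (ev ω) (subF A B ω) N (P ω (NB.dl 0))) atTop
              (𝓝 0) := by
            refine h7.congr' ?_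
            filter_upwards [eventually_gt_atTop 0] with N hN
            have hNc : (N : ℂ) ≠ 0 := Nat.cast_ne_zero.2 hN.ne'
            have e1 : av 0 id (ev ω) (subF A B ω) N (P ω (NB.dl 0)) =
                av 0 id (ev ω) (A ω) N (P ω (NB.dl 0)) +
                (-1 : ℂ) • av 0 id (ev ω) (B ω) N (P ω (NB.dl 0)) := by
              rw [← av_smul, ← av_add]
              congr 1
              show A ω - B ω = A ω + (-1 : ℂ) • B ω
              module
            have e2 : av 0 id (ev ω) (B ω) N (P ω (NB.dl 0)) = B ω (P ω (NB.dl 0)) := by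
              unfold av
              have e3 : ∀ s : ℝ, g 0 (ev ω) (B ω) (P ω (NB.dl 0)) (id s) =
                  B ω (P ω (NB.dl 0)) := by
                intro s
                show ph 0 s • (ev ω).U (-s) (B ω ((ev ω).U s (P ω (NB.dl 0)))) = _
                have e4 : ph 0 s = 1 := by
                  unfold ph
                  simp
                rw [e4, one_smul, cB, ← (ev ω).add', neg_add_cancel, (ev ω).zero']
              simp only [e3, intervalIntegral.integral_const, sub_zero]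
              generalize B ω (P ω (NB.dl 0)) = v
              show (N : ℂ)⁻¹ • ((N : ℝ) • v) = v
              have e5 : ((N : ℝ) • v : L2 d) = (N : ℂ) • v := by
                rw [Nat.cast_smul_eq_nsmul ℝ, Nat.cast_smul_eq_nsmul ℂ]
              rw [e5, smul_smul, inv_mul_cancel₀ hNc, one_smul]
            rw [e1, e2]
            module
          have h9 := h8.enorm
          rw [enorm_zero] at h9
          have h10 := ((ENNReal.continuous_pow 2).tendsto 0).comp h9
          simpa [Function.comp_def] using h10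
      simpa using h5
    · exact van_fld hd hK hν hev hD hD' hμ hP sP eP

end app

end Pool.Agent.H988.WM
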