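import Pool.Agent.H988.WM.Sta
import Pool.Agent.H988.WM.Wmf

/-! # Weak mixing on the absolutely continuous subspace -/

set_option autoImplicit false
set_option linter.unusedSectionVars false

open MeasureTheory Filter Topology Set
open scoped ENNReal NNReal InnerProductSpace ComplexConjugate

namespace Pool.Agent.H988.WM

open Pool.Agent.TH980.IM Pool.Agent.H5R2
open Pool.Agent.Y662.ERG
open Pool.Agent.TH980.IM.PR
open Pool.Agent.R988.NQ

section sit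

variable {d : ℕ} {c o : ℝ} {ev : (NB.Site d → ℝ) → NB.UG (L2 d)}

/-- the Heisenberg evolution of a field -/
noncomputable def Hz (ev : (NB.Site d → ℝ) → NB.UG (L2 d)) (D : OF d) (s : ℝ)
    (ω : NB.Site d → ℝ) : L2 d →L[ℂ] L2 d :=
  (ev ω).U (-s) ∘L D ω ∘L (ev ω).U s

theorem Hz_apply (D : OF d) (s : ℝ) (ω : NB.Site d → ℝ) (x : L2 d) :
    Hz ev D s ω x = (ev ω).U (-s) (D ω ((ev ω).U s x)) := rfl

theorem lo_Hz (hev : ∀ ω : NB.Site d → ℝ, NB.IsGrp c (fun x => o + ω x) (ev ω))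
    (ν : Measure ℝ) [IsProbabilityMeasure ν] {D : OF d} {C : ℝ} (hC : 0 ≤ C) (hD : Fld C D) :
    LO (NB.PP d ν) (Hz ev D) C := by
  refine ⟨hC, fun s ω x => ?_, fun ω x => ?_, fun s f hf => ?_⟩
  · rw [Hz_apply, (ev ω).norm']
    refine (hD.bd ω _).trans ?_
    rw [(ev ω).norm']
  · exact NB.LIMB.cont_P (ev ω) (D ω) x
  · exact (fld_Uo hev (-s)).meas _ (hD.meas _ ((fld_Uo hev s).meas _ hf))

/-- covariance at a point -/
theorem cov_at {A : OF d} {C : ℝ} (hA : Fld C A) (x : NB.Site d) {S : L2 d →L[ℂ] L2 d}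
    (hS : NB.IsShift (-x) S) (V : NB.Site d → ℝ) (ψ : L2 d) :
    A V (S ψ) = S (A (fun y => V (y + x)) ψ) := by
  have h := hA.cov (-x) S hS (fun y => V (y + x)) ψ
  have e : (fun y => (fun y => V (y + x)) (y + -x)) = V := by
    funext y
    show V (y + -x + x) = V y
    rw [neg_add_cancel_right]
  rw [e] at h
  exact h

theorem Hz_shift (hev : ∀ ω : NB.Site d → ℝ, NB.IsGrp c (fun x => o + ω x) (ev ω))
    {D P : OF d} {C : ℝ} (hD : Fld C D) (hP : Fld 1 P) (x : NB.Site d) (s : ℝ)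
    (V : NB.Site d → ℝ) : Hz ev D s V (P V (NB.dl x)) =
      sO (-x) (Hz ev D s (fun y => V (y + x)) (P (fun y => V (y + x)) (NB.dl 0))) := by
  have hS := sO_shift (-x)
  rw [← NB.LIMB.shift_dl x (sO (-x)) hS, Hz_apply, cov_at hP x hS]
  have h1 := cov_at (fld_Uo hev s) x hS V (P (fun y => V (y + x)) (NB.dl 0))
  have h2 := cov_at (fld_Uo hev (-s)) x hS V
    (D (fun y => V (y + x)) ((ev fun y => V (y + x)).U s (P (fun y => V (y + x)) (NB.dl 0))))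
  show (ev V).U (-s) (D V ((ev V).U s (sO (-x) (P (fun y => V (y + x)) (NB.dl 0))))) = _
  have h1' : (ev V).U s (sO (-x) (P (fun y => V (y + x)) (NB.dl 0))) =
    sO (-x) ((ev fun y => V (y + x)).U s (P (fun y => V (y + x)) (NB.dl 0))) := h1
  rw [h1', cov_at hD x hS]
  exact h2

theorem sO_iso (z : NB.Site d) (a b : L2 d) : ⟪sO z a, sO z b⟫_ℂ = ⟪a, b⟫_ℂ := by
  have h := NB.STAT.shift_inner z (sO z) (sO (-z)) (sO_shift z) (sO_shift (-z)) a (sO z b)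
  rw [h]
  congr 1
  ext x
  rw [sO_shift, sO_shift]
  simp

theorem pcx (hd : 1 ≤ d) {K : ℝ} {ν : Measure ℝ} [IsProbabilityMeasure ν]
    (hK : ∀ᵐ r ∂ν, |r| ≤ K) (hν : ∀ r : ℝ, ν {r} ≠ 1)
    (hev : ∀ ω : NB.Site d → ℝ, NB.IsGrp (-1) (fun x => 2 * d + ω x) (ev ω))
    {A B P : OF d} {M C : ℝ} (hM : 0 ≤ M) (hC : 0 ≤ C) (hA : Fld M A) (hA' : Fld M (adjF A))
    (hB : Fld C B) (hB' : Fld C (adjF B))
    (cB : ∀ V t x, B V ((ev V).U t x) = (ev V).U t (B V x))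
    (lB : ∀ᵐ V ∂(NB.PP d ν), ∀ x, Tendsto (fun N : ℕ => av 0 id (ev V) (A V) N x) atTop
        (𝓝 (B V x)))
    (hP : Fld 1 P) (sP : Sym P) (eP : ∀ᵐ ω ∂(NB.PP d ν), P ω = PA K ω) (x : NB.Site d) :
    PC (NB.PP d ν) (fun s ω => Hz ev (subF A B) s ω (P ω (NB.dl x))) (M + C) := by
  have h0 := pc0 hd hK hν hev hM hC hA hA' hB hB' cB lB hP sP eP
  have h1 := h0.push ((NB.t_RES d ν).2 x) (sO (-x)) (sO_iso (-x))
  have e : (fun (s : ℝ) (ω : NB.Site d → ℝ) => Hz ev (subF A B) s ω (P ω (NB.dl x))) =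
      fun s ω => sO (-x) (Yc ev (subF A B) P 0 s (fun y => ω (y + x))) := by
    funext s ω
    exact Hz_shift hev (hA.sub hB) hP x s ω
  rw [e]
  exact h1

theorem mean_x (hev : ∀ ω : NB.Site d → ℝ, NB.IsGrp c (fun x => o + ω x) (ev ω))
    (ν : Measure ℝ) [IsProbabilityMeasure ν] {D P : OF d} {C : ℝ} (hC : 0 ≤ C) (hD : Fld C D)
    (hP : Fld 1 P) {μ : ℝ} (h0 : Tendsto (fun N : ℕ =>
      ∫⁻ ω, ‖av μ id (ev ω) (D ω) N (P ω (NB.dl 0))‖ₑ ^ 2 ∂(NB.PP d ν)) atTop (𝓝 0))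
    (x : NB.Site d) : Mn μ (NB.PP d ν) (Hz ev D) fun ω => P ω (NB.dl x) := by
  have hL := lo_Hz hev ν hC hD
  refine mn_of_nat hL (R := 1) (fun ω => ?_) ?_
  · have := hP.bd ω (NB.dl x)
    rwa [NB.STAT.norm_dl, mul_one] at this
  · refine h0.congr fun N => ?_
    have hm : Measurable fun ω : NB.Site d → ℝ =>
        ‖avR μ (Hz ev D) N ω (P ω (NB.dl 0))‖ₑ ^ 2 :=
      ((hL.avR_sm μ (Nat.cast_nonneg N) hP.sm).enorm).pow_const 2
    have h1 := ((NB.t_RES d ν).2 x).lintegral_comp hm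
    have e1 : ∀ ω : NB.Site d → ℝ, av μ id (ev ω) (D ω) N (P ω (NB.dl 0)) =
        avR μ (Hz ev D) N ω (P ω (NB.dl 0)) := fun ω => rfl
    simp only [e1]
    rw [← h1]
    refine lintegral_congr fun ω => ?_
    congr 1
    have e2 : avR μ (Hz ev D) N ω (P ω (NB.dl x)) =
        sO (-x) (avR μ (Hz ev D) N (fun y => ω (y + x)) (P (fun y => ω (y + x)) (NB.dl 0))) := by
      unfold avR
      rw [map_smul]
      congr 1
      have e3 := ContinuousLinearMap.intervalIntegral_comp_comm (sO (-x))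
        ((hL.ctp μ (fun y => ω (y + x)) (P (fun y => ω (y + x)) (NB.dl 0))).intervalIntegrable
          (μ := volume) (0 : ℝ) (N : ℝ))
      refine Eq.trans ?_ e3
      refine intervalIntegral.integral_congr fun s _ => ?_
      show ph μ s • Hz ev D s ω (P ω (NB.dl x)) = sO (-x) (ph μ s • _)
      rw [Hz_shift hev hD hP x s ω, map_smul]
    have hn : ∀ a : L2 d, ‖sO (-x) a‖ₑ = ‖a‖ₑ := by
      intro a
      rw [← ofReal_norm, ← ofReal_norm]
      congr 1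
      have h3 := sO_iso (-x) a a
      rw [inner_self_eq_norm_sq_to_K, inner_self_eq_norm_sq_to_K] at h3
      have h4 : ‖sO (-x) a‖ ^ 2 = ‖a‖ ^ 2 := by exact_mod_cast h3
      exact (sq_eq_sq₀ (norm_nonneg _) (norm_nonneg _)).1 h4
    rw [e2, hn]

/-- approximation of random states -/
theorem approx {ν : Measure ℝ} [IsProbabilityMeasure ν] {P : OF d} (hP : Fld 1 P)
    {ψ : (NB.Site d → ℝ) → L2 d} (hs : StronglyMeasurable ψ)
    (hPψ : ∀ᵐ ω ∂(NB.PP d ν), P ω (ψ ω) = ψ ω) :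
    ∃ (F : ℕ → Finset (NB.Site d)) (a : ℕ → NB.Site d → (NB.Site d → ℝ) → ℂ) (R : ℕ → ℝ),
      (∀ n y, StronglyMeasurable (a n y)) ∧ (∀ n y ω, ‖a n y ω‖ ≤ R n) ∧
      (∀ n ω, ‖∑ y ∈ F n, a n y ω • P ω (NB.dl y)‖ ≤ ‖ψ ω‖) ∧
      ∀ᵐ ω ∂(NB.PP d ν), Tendsto (fun n => ∑ y ∈ F n, a n y ω • P ω (NB.dl y)) atTop
        (𝓝 (ψ ω)) := by
  classical
  obtain ⟨F, hF⟩ := exhaust (d := d)
  have hy : ∀ (ψ : L2 d) (y : NB.Site d), ‖ψ y‖ ≤ ‖ψ‖ := fun ψ y =>
    lp.norm_apply_le_norm (by norm_num) ψ y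
  have hsum : ∀ (n : ℕ) (ω : NB.Site d → ℝ),
      ∑ y ∈ F n, (if ‖ψ ω‖ ≤ n then (ψ ω) y else 0) • P ω (NB.dl y) =
        if ‖ψ ω‖ ≤ n then P ω (pf (F n) (ψ ω)) else 0 := by
    intro n ω
    split_ifs with h
    · rw [pf_sum, map_sum]
      refine Finset.sum_congr rfl fun y _ => ?_
      rw [map_smul]
    · simp
  refine ⟨F, fun n y ω => if ‖ψ ω‖ ≤ n then (ψ ω) y else 0, fun n => n, fun n y => ?_,
    fun n y ω => ?_, fun n ω => ?_, ?_⟩
  · refine StronglyMeasurable.ite (hs.norm.measurable measurableSet_Iic) ?_ stronglyMeasurable_const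
    exact (NB.STAT.cont_eval y).comp_stronglyMeasurable hs
  · show ‖if ‖ψ ω‖ ≤ n then (ψ ω) y else 0‖ ≤ n
    split_ifs with h
    · exact (hy _ _).trans h
    · simp
  · show ‖∑ y ∈ F n, (if ‖ψ ω‖ ≤ n then (ψ ω) y else 0) • P ω (NB.dl y)‖ ≤ ‖ψ ω‖
    rw [hsum]
    split_ifs with h
    · refine (hP.bd ω _).trans ?_
      rw [one_mul]
      exact pf_le _ _
    · simp
  · filter_upwards [hPψ] with ω hω
    show Tendsto (fun n => ∑ y ∈ F n, (if ‖ψ ω‖ ≤ n then (ψ ω) y else 0) • P ω (NB.dl y))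
      atTop (𝓝 (ψ ω))
    simp only [hsum]
    have h1 := ((P ω).continuous.tendsto _).comp (pf_tendsto hF (ψ ω))
    rw [hω] at h1
    refine h1.congr' ?_
    obtain ⟨m, hm⟩ := exists_nat_ge ‖ψ ω‖
    filter_upwards [eventually_ge_atTop m] with n hn
    have h2 : ‖ψ ω‖ ≤ n := hm.trans (by exact_mod_cast hn)
    rw [if_pos h2]
    rfl

section all

variable {ν : Measure ℝ} [IsProbabilityMeasure ν] {L : ℝ → (NB.Site d → ℝ) → L2 d →L[ℂ] L2 d}
  {C : ℝ} {P : OF d}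

theorem memP (hP : Fld 1 P) (y : NB.Site d) : MemLp (fun ω => P ω (NB.dl y)) 2 (NB.PP d ν) := by
  refine MemLp.of_bound (hP.meas _ stronglyMeasurable_const).aestronglyMeasurable 1
    (Eventually.of_forall fun ω => ?_)
  have := hP.bd ω (NB.dl y)
  rwa [NB.STAT.norm_dl, mul_one] at this

/-- all random states of the subspace -/
theorem all_states (h : LO (NB.PP d ν) L C) (hP : Fld 1 P) {ψ : (NB.Site d → ℝ) → L2 d}
    (hψ : MemLp ψ 2 (NB.PP d ν)) (hPψ : ∀ᵐ ω ∂(NB.PP d ν), P ω (ψ ω) = ψ ω) :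
    ((∀ x, Wk (NB.PP d ν) L fun ω => P ω (NB.dl x)) → Wk (NB.PP d ν) L ψ) ∧
    ∀ μ : ℝ, (∀ x, Mn μ (NB.PP d ν) L fun ω => P ω (NB.dl x)) → Mn μ (NB.PP d ν) L ψ := by
  -- a strongly measurable version
  have hae := hψ.1.ae_eq_mk
  set χ := hψ.1.mk ψ with hχ
  have hχs : StronglyMeasurable χ := hψ.1.stronglyMeasurable_mk
  have hχm : MemLp χ 2 (NB.PP d ν) := hψ.ae_eq hae
  have hPχ : ∀ᵐ ω ∂(NB.PP d ν), P ω (χ ω) = χ ω := by
    filter_upwards [hae, hPψ] with ω h1 h2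
    rw [← h1, h2]
  obtain ⟨F, a, R, ha, hR, hle, hlim⟩ := approx hP hχs hPχ
  set φ : ℕ → (NB.Site d → ℝ) → L2 d := fun n ω => ∑ y ∈ F n, a n y ω • P ω (NB.dl y) with hφ
  have hφ1 : ∀ n y, MemLp (fun ω => a n y ω • P ω (NB.dl y)) 2 (NB.PP d ν) := fun n y =>
    memLp_mul (ha n y).aestronglyMeasurable (hR n y) (memP hP y)
  have hφm : ∀ n, MemLp (φ n) 2 (NB.PP d ν) := fun n =>
    memLp_finsetSum (F n) fun y _ => hφ1 n y
  constructor
  · intro w
    have hw : ∀ n, Wk (NB.PP d ν) L (φ n) := fun n =>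
      Wk.sum h (F n) (fun y _ => hφ1 n y) fun y _ =>
        Wk.smul (ha n y).aestronglyMeasurable (hR n y) (w y)
    have h1 : Wk (NB.PP d ν) L χ := by
      refine Wk.lim h hχm hφm hw fun Z hZ => ?_
      have h2 : Tendsto (fun n => ∫ ω, ‖Z ω‖ * ‖χ ω - φ n ω‖ ∂(NB.PP d ν)) atTop
          (𝓝 (∫ _ω, (0 : ℝ) ∂(NB.PP d ν))) := by
        refine tendsto_integral_of_dominated_convergence (fun ω => 2 * (‖Z ω‖ * ‖χ ω‖))
          (fun n => hZ.1.norm.mul (hχm.1.sub (hφm n).1).norm) ((int_bd hZ hχm).const_mul 2)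
          (fun n => Eventually.of_forall fun ω => ?_) ?_
        · rw [norm_mul, norm_norm, norm_norm]
          have h3 : ‖χ ω - φ n ω‖ ≤ ‖χ ω‖ + ‖χ ω‖ :=
            (norm_sub_le _ _).trans (add_le_add le_rfl (hle n ω))
          nlinarith [norm_nonneg (Z ω)]
        · filter_upwards [hlim] with ω hω
          have h4 := (((tendsto_const_nhds (x := χ ω)).sub hω).norm).const_mul ‖Z ω‖
          rwa [sub_self, norm_zero, mul_zero] at h4
      simpa using h2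
    exact h1.congr hae.symm
  · intro μ w
    have hw : ∀ n, Mn μ (NB.PP d ν) L (φ n) := fun n =>
      Mn.sum h (F n) (fun y _ => (hφ1 n y).1) fun y _ => Mn.smul (hR n y) (w y)
    have h1 : Mn μ (NB.PP d ν) L χ := by
      refine Mn.lim h (fun n => (hφm n).1) hw ?_
      have h2 : Tendsto (fun n => ∫⁻ ω, ‖χ ω - φ n ω‖ₑ ^ 2 ∂(NB.PP d ν)) atTop
          (𝓝 (∫⁻ _ω, (0 : ℝ≥0∞) ∂(NB.PP d ν))) := by
        refine tendsto_lintegral_of_dominated_convergence' (fun ω => 4 * ‖χ ω‖ₑ ^ 2)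
          (fun n => ((hχm.1.sub (hφm n).1).enorm).pow_const 2)
          (fun n => Eventually.of_forall fun ω => ?_) ?_ ?_
        · have h3 : ‖χ ω - φ n ω‖ₑ ≤ 2 * ‖χ ω‖ₑ := by
            calc ‖χ ω - φ n ω‖ₑ ≤ ‖χ ω‖ₑ + ‖φ n ω‖ₑ := enorm_sub_le
              _ ≤ ‖χ ω‖ₑ + ‖χ ω‖ₑ := by
                  gcongr
                  rw [← ofReal_norm, ← ofReal_norm]
                  exact ENNReal.ofReal_le_ofReal (hle n ω)
              _ = 2 * ‖χ ω‖ₑ := (two_mul _).symm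
          calc ‖χ ω - φ n ω‖ₑ ^ 2 ≤ (2 * ‖χ ω‖ₑ) ^ 2 := by gcongr
            _ = 4 * ‖χ ω‖ₑ ^ 2 := by
                rw [mul_pow]
                norm_num
        · rw [lintegral_const_mul' _ _ (by simp)]
          refine ENNReal.mul_ne_top (by simp) ?_
          rw [← enorm_toLp hχm]
          exact ENNReal.pow_ne_top enorm_ne_top
        · filter_upwards [hlim] with ω hω
          have h4 := ((tendsto_const_nhds (x := χ ω)).sub hω).enorm
          rw [sub_self, enorm_zero] at h4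
          have h10 := ((ENNReal.continuous_pow 2).tendsto 0).comp h4
          simpa [Function.comp_def] using h10
      simpa using h2
    exact h1.congr hae.symm

end all

end sit

end Pool.Agent.H988.WM
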