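import Pool.Agent.H988.WM.Lpm

/-! # Random states -/

set_option autoImplicit false
set_option linter.unusedSectionVars false

open Filter Topology MeasureTheory
open scoped InnerProductSpace ComplexConjugate ENNReal NNReal

namespace Pool.Agent.H988.WM

variable {Ω : Type} [MeasurableSpace Ω] {X : Type} [NormedAddCommGroup X] [InnerProductSpace ℂ X]
  [CompleteSpace X]

/-- random operators depending on the time -/
structure LO (P : Measure Ω) (L : ℝ → Ω → X →L[ℂ] X) (C : ℝ) : Prop where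
  nn : 0 ≤ C
  bd : ∀ s ω x, ‖L s ω x‖ ≤ C * ‖x‖
  ct : ∀ ω x, Continuous fun s => L s ω x
  ms : ∀ s (f : Ω → X), StronglyMeasurable f → StronglyMeasurable fun ω => L s ω (f ω)

/-- the matrix elements tend to zero in the mean -/
def Wk (P : Measure Ω) (L : ℝ → Ω → X →L[ℂ] X) (ψ : Ω → X) : Prop :=
  ∀ Z : Ω → X, MemLp Z 2 P → Tendsto (fun T : ℝ => T⁻¹ * ∫ s in (0 : ℝ)..T,
    ‖∫ ω, ⟪Z ω, L s ω (ψ ω)⟫_ℂ ∂P‖ ^ 2) atTop (𝓝 0)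

/-- the averages with a phase -/
noncomputable def avR (μ : ℝ) (L : ℝ → Ω → X →L[ℂ] X) (T : ℝ) (ω : Ω) (x : X) : X :=
  ((T : ℂ)⁻¹) • ∫ s in (0 : ℝ)..T, ph μ s • L s ω x

/-- the averages with a phase tend to zero in mean square -/
def Mn (μ : ℝ) (P : Measure Ω) (L : ℝ → Ω → X →L[ℂ] X) (ψ : Ω → X) : Prop :=
  Tendsto (fun T : ℝ => ∫⁻ ω, ‖avR μ L T ω (ψ ω)‖ₑ ^ 2 ∂P) atTop (𝓝 0)

section sta

variable {P : Measure Ω} [IsProbabilityMeasure P] {L : ℝ → Ω → X →L[ℂ] X} {C : ℝ}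

theorem Wk.congr {ψ φ : Ω → X} (h : Wk P L ψ) (he : ψ =ᵐ[P] φ) : Wk P L φ := by
  intro Z hZ
  refine (h Z hZ).congr fun T => ?_
  congr 1
  refine intervalIntegral.integral_congr fun s _ => ?_
  show ‖∫ ω, ⟪Z ω, L s ω (ψ ω)⟫_ℂ ∂P‖ ^ 2 = ‖∫ ω, ⟪Z ω, L s ω (φ ω)⟫_ℂ ∂P‖ ^ 2
  congr 2
  refine integral_congr_ae ?_
  filter_upwards [he] with ω hω
  rw [hω]

theorem LO.aesm (h : LO P L C) (s : ℝ) {ψ : Ω → X} (hψ : AEStronglyMeasurable ψ P) :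
    AEStronglyMeasurable (fun ω => L s ω (ψ ω)) P := by
  refine ⟨fun ω => L s ω (hψ.mk ψ ω), h.ms s _ hψ.stronglyMeasurable_mk, ?_⟩
  filter_upwards [hψ.ae_eq_mk] with ω hω
  rw [hω]

theorem int_bd {Z : Ω → X} (hZ : MemLp Z 2 P) {ψ : Ω → X} (hψ : MemLp ψ 2 P) :
    Integrable (fun ω => ‖Z ω‖ * ‖ψ ω‖) P :=
  MemLp.integrable_mul hZ.norm hψ.norm

/-- Cauchy's inequality -/
theorem LO.cs (h : LO P L C) {Z : Ω → X} (hZ : MemLp Z 2 P) {ψ : Ω → X} (hψ : MemLp ψ 2 P)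
    (s : ℝ) : ‖∫ ω, ⟪Z ω, L s ω (ψ ω)⟫_ℂ ∂P‖ ≤ C * ∫ ω, ‖Z ω‖ * ‖ψ ω‖ ∂P := by
  refine (norm_integral_le_integral_norm _).trans ?_
  rw [← integral_const_mul]
  refine integral_mono_of_nonneg (Eventually.of_forall fun ω => norm_nonneg _)
    ((int_bd hZ hψ).const_mul C) (Eventually.of_forall fun ω => ?_)
  show ‖⟪Z ω, L s ω (ψ ω)⟫_ℂ‖ ≤ C * (‖Z ω‖ * ‖ψ ω‖)
  refine (norm_inner_le_norm _ _).trans ?_
  calc ‖Z ω‖ * ‖L s ω (ψ ω)‖ ≤ ‖Z ω‖ * (C * ‖ψ ω‖) :=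
        mul_le_mul_of_nonneg_left (h.bd _ _ _) (norm_nonneg _)
    _ = _ := by ring

theorem LO.cont (h : LO P L C) {Z : Ω → X} (hZ : MemLp Z 2 P) {ψ : Ω → X} (hψ : MemLp ψ 2 P) :
    Continuous fun s => ∫ ω, ⟪Z ω, L s ω (ψ ω)⟫_ℂ ∂P := by
  refine continuous_of_dominated (bound := fun ω => C * (‖Z ω‖ * ‖ψ ω‖)) (fun s => ?_)
    (fun s => ?_) ((int_bd hZ hψ).const_mul C) (Eventually.of_forall fun ω => ?_)
  · exact hZ.1.inner (h.aesm s hψ.1)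
  · refine Eventually.of_forall fun ω => ?_
    refine (norm_inner_le_norm _ _).trans ?_
    calc ‖Z ω‖ * ‖L s ω (ψ ω)‖ ≤ ‖Z ω‖ * (C * ‖ψ ω‖) :=
          mul_le_mul_of_nonneg_left (h.bd _ _ _) (norm_nonneg _)
      _ = _ := by ring
  · exact continuous_const.inner (h.ct ω _)

theorem LO.integ (h : LO P L C) {Z : Ω → X} (hZ : MemLp Z 2 P) {ψ : Ω → X} (hψ : MemLp ψ 2 P)
    (s : ℝ) : Integrable (fun ω => ⟪Z ω, L s ω (ψ ω)⟫_ℂ) P := by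
  refine Integrable.mono' ((int_bd hZ hψ).const_mul C) (hZ.1.inner (h.aesm s hψ.1))
    (Eventually.of_forall fun ω => ?_)
  refine (norm_inner_le_norm _ _).trans ?_
  calc ‖Z ω‖ * ‖L s ω (ψ ω)‖ ≤ ‖Z ω‖ * (C * ‖ψ ω‖) :=
        mul_le_mul_of_nonneg_left (h.bd _ _ _) (norm_nonneg _)
    _ = _ := by ring

theorem Wk.zero : Wk P L fun _ => 0 := by
  intro Z _
  simp

/-- comparison -/
theorem wk_of_le {F G : ℝ → ℝ} (hF : Continuous F) (hG : Continuous G) (hF0 : ∀ s, 0 ≤ F s)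
    (hFG : ∀ s, F s ≤ G s) (h : Tendsto (fun T : ℝ => T⁻¹ * ∫ s in (0 : ℝ)..T, G s) atTop (𝓝 0)) :
    Tendsto (fun T : ℝ => T⁻¹ * ∫ s in (0 : ℝ)..T, F s) atTop (𝓝 0) := by
  refine tendsto_of_tendsto_of_tendsto_of_le_of_le' tendsto_const_nhds h ?_ ?_
  · filter_upwards [eventually_gt_atTop 0] with T hT
    exact mul_nonneg (inv_nonneg.2 hT.le)
      (intervalIntegral.integral_nonneg hT.le fun s _ => hF0 s)
  · filter_upwards [eventually_gt_atTop 0] with T hT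
    refine mul_le_mul_of_nonneg_left ?_ (inv_nonneg.2 hT.le)
    exact intervalIntegral.integral_mono_on hT.le (hF.intervalIntegrable _ _)
      (hG.intervalIntegrable _ _) fun s _ => hFG s

theorem Wk.add (h : LO P L C) {ψ φ : Ω → X} (hψ : MemLp ψ 2 P) (hφ : MemLp φ 2 P)
    (w1 : Wk P L ψ) (w2 : Wk P L φ) : Wk P L fun ω => ψ ω + φ ω := by
  intro Z hZ
  have c1 := h.cont hZ hψ
  have c2 := h.cont hZ hφ
  have e : ∀ s, ∫ ω, ⟪Z ω, L s ω (ψ ω + φ ω)⟫_ℂ ∂P =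
      ∫ ω, ⟪Z ω, L s ω (ψ ω)⟫_ℂ ∂P + ∫ ω, ⟪Z ω, L s ω (φ ω)⟫_ℂ ∂P := by
    intro s
    rw [← integral_add (h.integ hZ hψ s) (h.integ hZ hφ s)]
    refine integral_congr_ae (Eventually.of_forall fun ω => ?_)
    simp only [map_add, inner_add_right]
  have q1 : Continuous fun s : ℝ => 2 * ‖∫ ω, ⟪Z ω, L s ω (ψ ω)⟫_ℂ ∂P‖ ^ 2 :=
    continuous_const.mul (c1.norm.pow 2)
  have q2 : Continuous fun s : ℝ => 2 * ‖∫ ω, ⟪Z ω, L s ω (φ ω)⟫_ℂ ∂P‖ ^ 2 :=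
    continuous_const.mul (c2.norm.pow 2)
  have h3 : Tendsto (fun T : ℝ => T⁻¹ * ∫ s in (0 : ℝ)..T,
      (2 * ‖∫ ω, ⟪Z ω, L s ω (ψ ω)⟫_ℂ ∂P‖ ^ 2 + 2 * ‖∫ ω, ⟪Z ω, L s ω (φ ω)⟫_ℂ ∂P‖ ^ 2))
      atTop (𝓝 0) := by
    have a1 := (w1 Z hZ).const_mul 2
    have a2 := (w2 Z hZ).const_mul 2
    have a3 := a1.add a2
    rw [mul_zero, add_zero] at a3
    refine a3.congr fun T => ?_
    rw [intervalIntegral.integral_add (q1.intervalIntegrable _ _)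
      (q2.intervalIntegrable _ _),
      intervalIntegral.integral_const_mul, intervalIntegral.integral_const_mul]
    ring
  simp only [e]
  refine wk_of_le ((c1.add c2).norm.pow 2) (q1.add q2) (fun s => by positivity)
    (fun s => ?_) h3
  show ‖∫ ω, ⟪Z ω, L s ω (ψ ω)⟫_ℂ ∂P + ∫ ω, ⟪Z ω, L s ω (φ ω)⟫_ℂ ∂P‖ ^ 2 ≤
    2 * ‖∫ ω, ⟪Z ω, L s ω (ψ ω)⟫_ℂ ∂P‖ ^ 2 + 2 * ‖∫ ω, ⟪Z ω, L s ω (φ ω)⟫_ℂ ∂P‖ ^ 2
  have h4 := norm_add_le (∫ ω, ⟪Z ω, L s ω (ψ ω)⟫_ℂ ∂P) (∫ ω, ⟪Z ω, L s ω (φ ω)⟫_ℂ ∂P)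
  have h5 : ‖∫ ω, ⟪Z ω, L s ω (ψ ω)⟫_ℂ ∂P + ∫ ω, ⟪Z ω, L s ω (φ ω)⟫_ℂ ∂P‖ ^ 2 ≤
      (‖∫ ω, ⟪Z ω, L s ω (ψ ω)⟫_ℂ ∂P‖ + ‖∫ ω, ⟪Z ω, L s ω (φ ω)⟫_ℂ ∂P‖) ^ 2 :=
    pow_le_pow_left₀ (norm_nonneg _) h4 2
  nlinarith [sq_nonneg (‖∫ ω, ⟪Z ω, L s ω (ψ ω)⟫_ℂ ∂P‖ - ‖∫ ω, ⟪Z ω, L s ω (φ ω)⟫_ℂ ∂P‖)]

theorem memLp_mul {a : Ω → ℂ} (ha : AEStronglyMeasurable a P) {R : ℝ} (hR : ∀ ω, ‖a ω‖ ≤ R)
    {Z : Ω → X} (hZ : MemLp Z 2 P) : MemLp (fun ω => a ω • Z ω) 2 P := by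
  refine MemLp.of_le_mul (c := R) hZ (ha.smul hZ.1) (Eventually.of_forall fun ω => ?_)
  rw [norm_smul]
  exact mul_le_mul_of_nonneg_right (hR ω) (norm_nonneg _)

theorem Wk.smul {a : Ω → ℂ} (ha : AEStronglyMeasurable a P) {R : ℝ} (hR : ∀ ω, ‖a ω‖ ≤ R)
    {ψ : Ω → X} (w : Wk P L ψ) : Wk P L fun ω => a ω • ψ ω := by
  intro Z hZ
  have h1 := w (fun ω => conj (a ω) • Z ω) (memLp_mul (a := fun ω => conj (a ω))
    (Complex.continuous_conj.comp_aestronglyMeasurable ha) (R := R) (fun ω => by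
      rw [RCLike.norm_conj]
      exact hR ω) hZ)
  refine h1.congr fun T => ?_
  congr 1
  refine intervalIntegral.integral_congr fun s _ => ?_
  show ‖∫ ω, ⟪conj (a ω) • Z ω, L s ω (ψ ω)⟫_ℂ ∂P‖ ^ 2 =
    ‖∫ ω, ⟪Z ω, L s ω (a ω • ψ ω)⟫_ℂ ∂P‖ ^ 2
  congr 2
  refine integral_congr_ae (Eventually.of_forall fun ω => ?_)
  simp only [map_smul, inner_smul_right, inner_smul_left, Complex.conj_conj]

theorem Wk.sum (h : LO P L C) {α : Type} (s : Finset α) {ψ : α → Ω → X}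
    (hψ : ∀ i ∈ s, MemLp (ψ i) 2 P) (w : ∀ i ∈ s, Wk P L (ψ i)) :
    Wk P L fun ω => ∑ i ∈ s, ψ i ω := by
  classical
  induction s using Finset.induction_on with
  | empty => simpa using Wk.zero
  | insert i t hi ih =>
    have h1 : Wk P L fun ω => ψ i ω + ∑ j ∈ t, ψ j ω := by
      refine Wk.add h (hψ i (Finset.mem_insert_self _ _)) ?_ (w i (Finset.mem_insert_self _ _))
        (ih (fun j hj => hψ j (Finset.mem_insert_of_mem hj))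
          fun j hj => w j (Finset.mem_insert_of_mem hj))
      exact memLp_finsetSum t fun j hj => hψ j (Finset.mem_insert_of_mem hj)
    simpa only [Finset.sum_insert hi] using h1

theorem Wk.lim (h : LO P L C) {ψ : Ω → X} (hψ : MemLp ψ 2 P) {φ : ℕ → Ω → X}
    (hφ : ∀ n, MemLp (φ n) 2 P) (w : ∀ n, Wk P L (φ n))
    (hl : ∀ Z : Ω → X, MemLp Z 2 P →
      Tendsto (fun n => ∫ ω, ‖Z ω‖ * ‖ψ ω - φ n ω‖ ∂P) atTop (𝓝 0)) :
    Wk P L ψ := by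
  intro Z hZ
  have hd : ∀ n, MemLp (fun ω => ψ ω - φ n ω) 2 P := fun n => hψ.sub (hφ n)
  have hl' := hl Z hZ
  set η : ℕ → ℝ := fun n => C * ∫ ω, ‖Z ω‖ * ‖ψ ω - φ n ω‖ ∂P with hη
  have hη0 : Tendsto η atTop (𝓝 0) := by
    have := hl'.const_mul C
    rwa [mul_zero] at this
  have hηn : ∀ n, 0 ≤ η n := fun n =>
    mul_nonneg h.nn (integral_nonneg fun ω => by positivity)
  have c0 := h.cont hZ hψ
  rw [Metric.tendsto_atTop]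
  intro ε hε
  obtain ⟨n, hn⟩ : ∃ n, 2 * η n ^ 2 < ε / 2 := by
    have h1 : Tendsto (fun n => 2 * η n ^ 2) atTop (𝓝 0) := by
      have := (hη0.pow 2).const_mul 2
      simpa using this
    exact ((h1.eventually (gt_mem_nhds (half_pos hε))).exists)
  have cn := h.cont hZ (hφ n)
  have hkey : ∀ s, ‖∫ ω, ⟪Z ω, L s ω (ψ ω)⟫_ℂ ∂P‖ ^ 2 ≤
      2 * ‖∫ ω, ⟪Z ω, L s ω (φ n ω)⟫_ℂ ∂P‖ ^ 2 + 2 * η n ^ 2 := by
    intro s
    have e : ∫ ω, ⟪Z ω, L s ω (ψ ω)⟫_ℂ ∂P = ∫ ω, ⟪Z ω, L s ω (φ n ω)⟫_ℂ ∂P +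
        ∫ ω, ⟪Z ω, L s ω (ψ ω - φ n ω)⟫_ℂ ∂P := by
      rw [← integral_add (h.integ hZ (hφ n) s) (h.integ hZ (hd n) s)]
      refine integral_congr_ae (Eventually.of_forall fun ω => ?_)
      simp only [map_sub, inner_sub_right]
      ring
    have h1 := h.cs hZ (hd n) s
    have h2 := norm_add_le (∫ ω, ⟪Z ω, L s ω (φ n ω)⟫_ℂ ∂P)
      (∫ ω, ⟪Z ω, L s ω (ψ ω - φ n ω)⟫_ℂ ∂P)
    rw [← e] at h2
    have h3 : ‖∫ ω, ⟪Z ω, L s ω (ψ ω)⟫_ℂ ∂P‖ ≤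
        ‖∫ ω, ⟪Z ω, L s ω (φ n ω)⟫_ℂ ∂P‖ + η n := h2.trans (add_le_add le_rfl h1)
    have h4 := pow_le_pow_left₀ (norm_nonneg _) h3 2
    nlinarith [sq_nonneg (‖∫ ω, ⟪Z ω, L s ω (φ n ω)⟫_ℂ ∂P‖ - η n)]
  have h5 : Tendsto (fun T : ℝ => 2 * (T⁻¹ * ∫ s in (0 : ℝ)..T,
      ‖∫ ω, ⟪Z ω, L s ω (φ n ω)⟫_ℂ ∂P‖ ^ 2)) atTop (𝓝 0) := by
    have := (w n Z hZ).const_mul 2
    rwa [mul_zero] at this
  obtain ⟨T0, hT0⟩ := (h5.eventually (gt_mem_nhds (half_pos hε))).exists_forall_of_atTop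
  refine ⟨max T0 1, fun T hT => ?_⟩
  have hTp : 0 < T := zero_lt_one.trans_le ((le_max_right _ _).trans hT)
  have h6 := hT0 T ((le_max_left _ _).trans hT)
  have h7 : 0 ≤ ∫ s in (0 : ℝ)..T, ‖∫ ω, ⟪Z ω, L s ω (ψ ω)⟫_ℂ ∂P‖ ^ 2 :=
    intervalIntegral.integral_nonneg hTp.le fun s _ => by positivity
  rw [Real.dist_eq, sub_zero, abs_of_nonneg (by positivity)]
  have q1 : Continuous fun s : ℝ => 2 * ‖∫ ω, ⟪Z ω, L s ω (φ n ω)⟫_ℂ ∂P‖ ^ 2 :=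
    continuous_const.mul (cn.norm.pow 2)
  have h8 : ∫ s in (0 : ℝ)..T, ‖∫ ω, ⟪Z ω, L s ω (ψ ω)⟫_ℂ ∂P‖ ^ 2 ≤
      ∫ s in (0 : ℝ)..T, (2 * ‖∫ ω, ⟪Z ω, L s ω (φ n ω)⟫_ℂ ∂P‖ ^ 2 + 2 * η n ^ 2) :=
    intervalIntegral.integral_mono_on hTp.le ((c0.norm.pow 2).intervalIntegrable _ _)
      ((q1.add continuous_const).intervalIntegrable _ _)
      fun s _ => hkey s
  rw [intervalIntegral.integral_add (q1.intervalIntegrable _ _)
    (intervalIntegrable_const), intervalIntegral.integral_const_mul,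
    intervalIntegral.integral_const, sub_zero, smul_eq_mul] at h8
  calc T⁻¹ * ∫ s in (0 : ℝ)..T, ‖∫ ω, ⟪Z ω, L s ω (ψ ω)⟫_ℂ ∂P‖ ^ 2
      ≤ T⁻¹ * ((2 * ∫ s in (0 : ℝ)..T, ‖∫ ω, ⟪Z ω, L s ω (φ n ω)⟫_ℂ ∂P‖ ^ 2) +
          T * (2 * η n ^ 2)) := mul_le_mul_of_nonneg_left h8 (inv_nonneg.2 hTp.le)
    _ = 2 * (T⁻¹ * ∫ s in (0 : ℝ)..T, ‖∫ ω, ⟪Z ω, L s ω (φ n ω)⟫_ℂ ∂P‖ ^ 2) + 2 * η n ^ 2 := by
        field_simp
    _ < ε / 2 + ε / 2 := add_lt_add h6 hn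
    _ = ε := by ring

/-- weak mixing for the curve of a random vector -/
theorem wk_of_pc {ψ : Ω → X} {C' : ℝ} (h : PC P (fun s ω => L s ω (ψ ω)) C') : Wk P L ψ :=
  fun _ hZ => h.wm hZ

/-! ### averages with a phase -/

theorem LO.ctp (h : LO P L C) (μ : ℝ) (ω : Ω) (x : X) : Continuous fun s => ph μ s • L s ω x :=
  (ph_cont μ).smul (h.ct ω x)

theorem LO.int_le (h : LO P L C) (μ : ℝ) (ω : Ω) (x : X) (a b : ℝ) :
    ‖∫ s in a..b, ph μ s • L s ω x‖ ≤ C * ‖x‖ * |b - a| := by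
  refine intervalIntegral.norm_integral_le_of_norm_le_const fun s _ => ?_
  rw [norm_smul, ph_norm, one_mul]
  exact h.bd s ω x

theorem LO.avR_le (h : LO P L C) (μ : ℝ) (T : ℝ) (ω : Ω) (x : X) :
    ‖avR μ L T ω x‖ ≤ C * ‖x‖ := by
  unfold avR
  rw [norm_smul, norm_inv, Complex.norm_real, Real.norm_eq_abs]
  have h1 := h.int_le μ ω x 0 T
  rw [sub_zero] at h1
  have h0 : 0 ≤ C * ‖x‖ := mul_nonneg h.nn (norm_nonneg _)
  by_cases hT : T = 0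
  · subst hT
    simpa using h0
  · have hT' : 0 < |T| := abs_pos.2 hT
    calc |T|⁻¹ * ‖∫ s in (0 : ℝ)..T, ph μ s • L s ω x‖ ≤ |T|⁻¹ * (C * ‖x‖ * |T|) := by gcongr
      _ = C * ‖x‖ := by field_simp

theorem LO.avR_add (h : LO P L C) (μ : ℝ) (T : ℝ) (ω : Ω) (x y : X) :
    avR μ L T ω (x + y) = avR μ L T ω x + avR μ L T ω y := by
  unfold avR
  have e : ∀ s, ph μ s • L s ω (x + y) = ph μ s • L s ω x + ph μ s • L s ω y := fun s => by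
    rw [map_add, smul_add]
  simp only [e]
  rw [intervalIntegral.integral_add ((h.ctp μ ω x).intervalIntegrable _ _)
    ((h.ctp μ ω y).intervalIntegrable _ _), smul_add]

theorem LO.avR_smul (μ : ℝ) (T : ℝ) (ω : Ω) (a : ℂ) (x : X) :
    avR μ L T ω (a • x) = a • avR μ L T ω x := by
  unfold avR
  have e : ∀ s, ph μ s • L s ω (a • x) = a • (ph μ s • L s ω x) := fun s => by
    rw [map_smul, smul_comm]
  simp only [e]
  rw [intervalIntegral.integral_smul, smul_comm]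

theorem LO.avR_sub (h : LO P L C) (μ : ℝ) (T : ℝ) (ω : Ω) (x y : X) :
    avR μ L T ω (x - y) = avR μ L T ω x - avR μ L T ω y := by
  have h1 := h.avR_add μ T ω (x - y) y
  rw [sub_add_cancel] at h1
  rw [h1]
  abel

theorem LO.avR_sm (h : LO P L C) (μ : ℝ) {T : ℝ} (hT : 0 ≤ T) {ψ : Ω → X}
    (hψ : StronglyMeasurable ψ) : StronglyMeasurable fun ω => avR μ L T ω (ψ ω) := by
  have hjm0 : StronglyMeasurable (Function.uncurry fun (s : ℝ) (ω : Ω) => L s ω (ψ ω)) :=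
    stronglyMeasurable_uncurry_of_continuous_of_stronglyMeasurable (fun ω => h.ct ω (ψ ω))
      fun s => h.ms s ψ hψ
  have hjm : StronglyMeasurable (Function.uncurry fun (s : ℝ) (ω : Ω) => ph μ s • L s ω (ψ ω)) := by
    have h1 : StronglyMeasurable fun p : ℝ × Ω => ph μ p.1 :=
      (ph_cont μ).stronglyMeasurable.comp_measurable measurable_fst
    exact h1.smul hjm0
  have hjm' : StronglyMeasurable
      (Function.uncurry fun (ω : Ω) (s : ℝ) => ph μ s • L s ω (ψ ω)) :=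
    hjm.comp_measurable measurable_swap
  unfold avR
  simp only [intervalIntegral.integral_of_le hT]
  have h2 : StronglyMeasurable fun ω => ∫ s in Set.Ioc (0 : ℝ) T, ph μ s • L s ω (ψ ω) :=
    hjm'.integral_prod_right
  exact h2.const_smul ((T : ℂ)⁻¹)

theorem LO.avR_aesm (h : LO P L C) (μ : ℝ) {T : ℝ} (hT : 0 ≤ T) {ψ : Ω → X}
    (hψ : AEStronglyMeasurable ψ P) : AEStronglyMeasurable (fun ω => avR μ L T ω (ψ ω)) P := by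
  refine ⟨fun ω => avR μ L T ω (hψ.mk ψ ω), h.avR_sm μ hT hψ.stronglyMeasurable_mk, ?_⟩
  filter_upwards [hψ.ae_eq_mk] with ω hω
  rw [hω]

theorem esq_add (a b : X) : ‖a + b‖ₑ ^ 2 ≤ 2 * ‖a‖ₑ ^ 2 + 2 * ‖b‖ₑ ^ 2 := by
  have h1 : ‖a + b‖ ^ 2 ≤ 2 * ‖a‖ ^ 2 + 2 * ‖b‖ ^ 2 := by
    have h2 := pow_le_pow_left₀ (norm_nonneg _) (norm_add_le a b) 2
    nlinarith [sq_nonneg (‖a‖ - ‖b‖)]
  have h3 : ∀ c : X, ‖c‖ₑ ^ 2 = ENNReal.ofReal (‖c‖ ^ 2) := fun c => by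
    rw [← ofReal_norm, ENNReal.ofReal_pow (norm_nonneg _)]
  have h4 : (2 : ℝ≥0∞) = ENNReal.ofReal 2 := by simp
  rw [h3, h3, h3, h4, ← ENNReal.ofReal_mul (by norm_num), ← ENNReal.ofReal_mul (by norm_num),
    ← ENNReal.ofReal_add (by positivity) (by positivity)]
  exact ENNReal.ofReal_le_ofReal h1

theorem Mn.congr {μ : ℝ} {ψ φ : Ω → X} (h : Mn μ P L ψ) (he : ψ =ᵐ[P] φ) : Mn μ P L φ := by
  refine Tendsto.congr (fun T => lintegral_congr_ae ?_) h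
  filter_upwards [he] with ω hω
  rw [hω]

theorem Mn.zero {μ : ℝ} : Mn μ P L fun _ => 0 := by
  unfold Mn avR
  simp

theorem Mn.add (h : LO P L C) {μ : ℝ} {ψ φ : Ω → X} (hψ : AEStronglyMeasurable ψ P)
    (w1 : Mn μ P L ψ) (w2 : Mn μ P L φ) : Mn μ P L fun ω => ψ ω + φ ω := by
  have h3 : Tendsto (fun T : ℝ => 2 * (∫⁻ ω, ‖avR μ L T ω (ψ ω)‖ₑ ^ 2 ∂P) +
      2 * (∫⁻ ω, ‖avR μ L T ω (φ ω)‖ₑ ^ 2 ∂P)) atTop (𝓝 0) := by
    have a1 := ENNReal.Tendsto.const_mul (a := 2) w1 (Or.inr (by norm_num))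
    have a2 := ENNReal.Tendsto.const_mul (a := 2) w2 (Or.inr (by norm_num))
    simpa using a1.add a2
  refine tendsto_of_tendsto_of_tendsto_of_le_of_le' tendsto_const_nhds h3
    (Eventually.of_forall fun _ => zero_le) ?_
  filter_upwards [eventually_ge_atTop 0] with T hT
  calc ∫⁻ ω, ‖avR μ L T ω (ψ ω + φ ω)‖ₑ ^ 2 ∂P
      ≤ ∫⁻ ω, (2 * ‖avR μ L T ω (ψ ω)‖ₑ ^ 2 + 2 * ‖avR μ L T ω (φ ω)‖ₑ ^ 2) ∂P := by
        refine lintegral_mono fun ω => ?_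
        rw [h.avR_add]
        exact esq_add _ _
    _ = _ := by
        rw [lintegral_add_left' (((h.avR_aesm μ hT hψ).enorm.pow_const 2).const_mul 2),
          lintegral_const_mul' _ _ (by simp), lintegral_const_mul' _ _ (by simp)]

theorem Mn.smul {μ : ℝ} {a : Ω → ℂ} {R : ℝ} (hR : ∀ ω, ‖a ω‖ ≤ R)
    {ψ : Ω → X} (w : Mn μ P L ψ) : Mn μ P L fun ω => a ω • ψ ω := by
  have h3 : Tendsto (fun T : ℝ => ENNReal.ofReal R ^ 2 *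
      (∫⁻ ω, ‖avR μ L T ω (ψ ω)‖ₑ ^ 2 ∂P)) atTop (𝓝 0) := by
    have a1 := ENNReal.Tendsto.const_mul (a := ENNReal.ofReal R ^ 2) w
      (Or.inr (ENNReal.pow_ne_top ENNReal.ofReal_ne_top))
    rwa [mul_zero] at a1
  refine tendsto_of_tendsto_of_tendsto_of_le_of_le tendsto_const_nhds h3
    (fun _ => zero_le) fun T => ?_
  rw [← lintegral_const_mul' _ _ (ENNReal.pow_ne_top ENNReal.ofReal_ne_top)]
  refine lintegral_mono fun ω => ?_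
  show ‖avR μ L T ω (a ω • ψ ω)‖ₑ ^ 2 ≤ _
  rw [LO.avR_smul, enorm_smul, mul_pow]
  gcongr
  rw [← ofReal_norm]
  exact ENNReal.ofReal_le_ofReal (hR ω)

theorem Mn.sum (h : LO P L C) {μ : ℝ} {α : Type} (s : Finset α) {ψ : α → Ω → X}
    (hψ : ∀ i ∈ s, AEStronglyMeasurable (ψ i) P) (w : ∀ i ∈ s, Mn μ P L (ψ i)) :
    Mn μ P L fun ω => ∑ i ∈ s, ψ i ω := by
  classical
  induction s using Finset.induction_on with
  | empty => simpa using Mn.zero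
  | insert i t hi ih =>
    have h1 : Mn μ P L fun ω => ψ i ω + ∑ j ∈ t, ψ j ω :=
      Mn.add h (hψ i (Finset.mem_insert_self _ _)) (w i (Finset.mem_insert_self _ _))
        (ih (fun j hj => hψ j (Finset.mem_insert_of_mem hj))
          fun j hj => w j (Finset.mem_insert_of_mem hj))
    simpa only [Finset.sum_insert hi] using h1

theorem Mn.lim (h : LO P L C) {μ : ℝ} {ψ : Ω → X} {φ : ℕ → Ω → X}
    (hφ : ∀ n, AEStronglyMeasurable (φ n) P) (w : ∀ n, Mn μ P L (φ n))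
    (hl : Tendsto (fun n => ∫⁻ ω, ‖ψ ω - φ n ω‖ₑ ^ 2 ∂P) atTop (𝓝 0)) :
    Mn μ P L ψ := by
  have hCt : ENNReal.ofReal C ^ 2 ≠ ⊤ := ENNReal.pow_ne_top ENNReal.ofReal_ne_top
  have hl2 : Tendsto (fun n => 2 * (ENNReal.ofReal C ^ 2 * ∫⁻ ω, ‖ψ ω - φ n ω‖ₑ ^ 2 ∂P)) atTop
      (𝓝 0) := by
    have a1 := ENNReal.Tendsto.const_mul (a := ENNReal.ofReal C ^ 2) hl (Or.inr hCt)
    rw [mul_zero] at a1
    have a2 := ENNReal.Tendsto.const_mul (a := 2) a1 (Or.inr (by norm_num))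
    rwa [mul_zero] at a2
  unfold Mn
  rw [ENNReal.tendsto_nhds_zero]
  intro ε hε
  have hε2 : 0 < ε / 2 := ENNReal.half_pos hε.ne'
  obtain ⟨n, hn⟩ := ((ENNReal.tendsto_nhds_zero.1 hl2) (ε / 2) hε2).exists
  have h4 : Tendsto (fun T : ℝ => 2 * ∫⁻ ω, ‖avR μ L T ω (φ n ω)‖ₑ ^ 2 ∂P) atTop (𝓝 0) := by
    have a2 := ENNReal.Tendsto.const_mul (a := 2) (w n) (Or.inr (by norm_num))
    rwa [mul_zero] at a2
  filter_upwards [(ENNReal.tendsto_nhds_zero.1 h4) (ε / 2) hε2, eventually_ge_atTop 0] with T h5 hT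
  calc ∫⁻ ω, ‖avR μ L T ω (ψ ω)‖ₑ ^ 2 ∂P
      ≤ ∫⁻ ω, (2 * ‖avR μ L T ω (φ n ω)‖ₑ ^ 2 +
          2 * (ENNReal.ofReal C ^ 2 * ‖ψ ω - φ n ω‖ₑ ^ 2)) ∂P := by
        refine lintegral_mono fun ω => ?_
        have e : ψ ω = φ n ω + (ψ ω - φ n ω) := by abel
        calc ‖avR μ L T ω (ψ ω)‖ₑ ^ 2 = ‖avR μ L T ω (φ n ω) + avR μ L T ω (ψ ω - φ n ω)‖ₑ ^ 2 := by
              rw [← h.avR_add, ← e]
          _ ≤ 2 * ‖avR μ L T ω (φ n ω)‖ₑ ^ 2 + 2 * ‖avR μ L T ω (ψ ω - φ n ω)‖ₑ ^ 2 := esq_add _ _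
          _ ≤ _ := by
              gcongr
              rw [← mul_pow]
              gcongr
              rw [← ofReal_norm, ← ofReal_norm, ← ENNReal.ofReal_mul h.nn]
              exact ENNReal.ofReal_le_ofReal (h.avR_le μ T ω _)
    _ = 2 * (∫⁻ ω, ‖avR μ L T ω (φ n ω)‖ₑ ^ 2 ∂P) +
          2 * (ENNReal.ofReal C ^ 2 * ∫⁻ ω, ‖ψ ω - φ n ω‖ₑ ^ 2 ∂P) := by
        rw [lintegral_add_left' (((h.avR_aesm μ hT (hφ n)).enorm.pow_const 2).const_mul 2),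
          lintegral_const_mul' _ _ (by simp), lintegral_const_mul' _ _ (by simp),
          lintegral_const_mul' _ _ hCt]
    _ ≤ ε / 2 + ε / 2 := add_le_add h5 hn
    _ = ε := ENNReal.add_halves ε

/-- from integer to real times -/
theorem mn_of_nat (h : LO P L C) {μ : ℝ} {ψ : Ω → X} {R : ℝ}
    (hR : ∀ ω, ‖ψ ω‖ ≤ R)
    (w : Tendsto (fun N : ℕ => ∫⁻ ω, ‖avR μ L N ω (ψ ω)‖ₑ ^ 2 ∂P) atTop (𝓝 0)) :
    Mn μ P L ψ := by
  have h1 : Tendsto (fun T : ℝ => 2 * (∫⁻ ω, ‖avR μ L (⌊T⌋₊ : ℕ) ω (ψ ω)‖ₑ ^ 2 ∂P) +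
      2 * ENNReal.ofReal ((C * R * T⁻¹) ^ 2)) atTop (𝓝 0) := by
    have a1 := ENNReal.Tendsto.const_mul (a := 2) (w.comp (tendsto_nat_floor_atTop (α := ℝ)))
      (Or.inr (by norm_num))
    have a2 : Tendsto (fun T : ℝ => ENNReal.ofReal ((C * R * T⁻¹) ^ 2)) atTop
        (𝓝 (ENNReal.ofReal ((C * R * 0) ^ 2))) :=
      (ENNReal.continuous_ofReal.tendsto _).comp ((tendsto_inv_atTop_zero.const_mul (C * R)).pow 2)
    have a3 := ENNReal.Tendsto.const_mul (a := 2) a2 (Or.inr (by norm_num))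
    have a4 := a1.add a3
    simpa [Function.comp_def] using a4
  refine tendsto_of_tendsto_of_tendsto_of_le_of_le' tendsto_const_nhds h1
    (Eventually.of_forall fun _ => zero_le) ?_
  filter_upwards [eventually_ge_atTop 1] with T hT
  have hT0 : 0 < T := zero_lt_one.trans_le hT
  set N : ℕ := ⌊T⌋₊ with hN
  have hN1 : (N : ℝ) ≤ T := Nat.floor_le hT0.le
  have hN2 : T < N + 1 := Nat.lt_floor_add_one T
  have hN0 : 0 < N := Nat.floor_pos.2 hT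
  have hNr : (0 : ℝ) < N := by exact_mod_cast hN0
  have hpt : ∀ ω, ‖avR μ L T ω (ψ ω)‖ₑ ^ 2 ≤ 2 * ‖avR μ L N ω (ψ ω)‖ₑ ^ 2 +
      2 * ENNReal.ofReal ((C * R * T⁻¹) ^ 2) := by
    intro ω
    have e : avR μ L T ω (ψ ω) = ((N / T : ℝ) : ℂ) • avR μ L N ω (ψ ω) +
        ((T : ℂ)⁻¹) • ∫ s in (N : ℝ)..T, ph μ s • L s ω (ψ ω) := by
      unfold avR
      rw [← intervalIntegral.integral_add_adjacent_intervals
        ((h.ctp μ ω (ψ ω)).intervalIntegrable 0 (N : ℝ))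
        ((h.ctp μ ω (ψ ω)).intervalIntegrable (N : ℝ) T), smul_add, smul_smul]
      congr 2
      have hNc : ((N : ℝ) : ℂ) ≠ 0 := by exact_mod_cast hNr.ne'
      have hTc : (T : ℂ) ≠ 0 := by exact_mod_cast hT0.ne'
      rw [Complex.ofReal_div]
      field_simp
    rw [e]
    refine (esq_add _ _).trans ?_
    gcongr
    · rw [enorm_smul]
      refine mul_le_of_le_one_left zero_le ?_
      rw [← ofReal_norm, Complex.norm_real, Real.norm_eq_abs, abs_of_nonneg (by positivity)]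
      refine ENNReal.ofReal_le_one.2 ?_
      rw [div_le_one hT0]
      exact hN1
    · rw [← ofReal_norm, ← ENNReal.ofReal_pow (norm_nonneg _)]
      refine ENNReal.ofReal_le_ofReal (pow_le_pow_left₀ (norm_nonneg _) ?_ 2)
      rw [norm_smul, norm_inv, Complex.norm_real, Real.norm_eq_abs, abs_of_pos hT0]
      have h2 := h.int_le μ ω (ψ ω) N T
      have h3 : |T - N| ≤ 1 := by
        rw [abs_of_nonneg (by linarith)]
        linarith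
      have hR0 : 0 ≤ R := (norm_nonneg _).trans (hR ω)
      calc T⁻¹ * ‖∫ s in (N : ℝ)..T, ph μ s • L s ω (ψ ω)‖
          ≤ T⁻¹ * (C * ‖ψ ω‖ * |T - N|) := by gcongr
        _ ≤ T⁻¹ * (C * R * 1) := by
            have hC := h.nn
            have := hR ω
            gcongr
        _ = C * R * T⁻¹ := by ring
  calc ∫⁻ ω, ‖avR μ L T ω (ψ ω)‖ₑ ^ 2 ∂P
      ≤ ∫⁻ ω, (2 * ‖avR μ L N ω (ψ ω)‖ₑ ^ 2 + 2 * ENNReal.ofReal ((C * R * T⁻¹) ^ 2)) ∂P :=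
        lintegral_mono hpt
    _ = _ := by
        rw [lintegral_add_right _ measurable_const, lintegral_const_mul' _ _ (by simp),
          lintegral_const, measure_univ, mul_one]

end sta

end Pool.Agent.H988.WM
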