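import Pool.Agent.H988.WM.Fibr
import Pool.Graph.R_pool_sql_team_seeded_b0a926ef.R988.NQ.GM

/-! # Averages with a phase vanish on the absolutely continuous subspace: local observables -/

set_option autoImplicit false

open MeasureTheory Filter Topology Set
open scoped ENNReal NNReal InnerProductSpace ComplexConjugate

namespace Pool.Agent.H988.WM

open Pool.Agent.TH980.IM Pool.Agent.H5R2
open Pool.Agent.Y662.ERG
open Pool.Agent.TH980.IM.PR

section van

variable {d : ℕ}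

/-- the potential is almost surely not periodic -/
theorem nonconst (i0 : Fin d) {ν : Measure ℝ} [IsProbabilityMeasure ν]
    (hν : ∀ r : ℝ, ν {r} ≠ 1) :
    ∀ᵐ ω ∂(NB.PP d ν), ∃ x : Sd d, ω (x + Pi.single i0 1 + Pi.single i0 1) ≠ ω x := by
  have : Nonempty (Fin d) := ⟨i0⟩
  have : Infinite (Sd d) := Pi.infinite_of_right
  have hPP : IsProbabilityMeasure (PP (Sd d) ν) := by unfold PP; infer_instance
  set N : Set (Sd d → ℝ) :=
    {ω | ∃ x : Sd d, ω (x + Pi.single i0 1 + Pi.single i0 1) ≠ ω x} with hN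
  have hNm : MeasurableSet N := by
    have e : N = ⋃ x : Sd d, {ω : Sd d → ℝ | ω (x + Pi.single i0 1 + Pi.single i0 1) = ω x}ᶜ := by
      ext ω
      simp only [hN, Set.mem_ofPred_eq, Set.mem_iUnion, Set.mem_compl_iff]
    rw [e]
    refine MeasurableSet.iUnion fun x => ?_
    have h1 : Measurable fun ω : Sd d → ℝ => ω (x + Pi.single i0 1 + Pi.single i0 1) :=
      measurable_pi_apply _
    have h2 : Measurable fun ω : Sd d → ℝ => ω x := measurable_pi_apply _
    exact (measurableSet_eq_fun h1 h2).compl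
  have hinv : ∀ x, sh x ⁻¹' N = N := by
    intro z
    ext ω
    constructor
    · rintro ⟨x, hx⟩
      refine ⟨x + z, ?_⟩
      have e : x + z + Pi.single i0 1 + Pi.single i0 1 =
          x + Pi.single i0 1 + Pi.single i0 1 + z := by abel
      rw [e]
      exact hx
    · rintro ⟨x, hx⟩
      refine ⟨x - z, ?_⟩
      have e : x - z + Pi.single i0 1 + Pi.single i0 1 + z =
          x + Pi.single i0 1 + Pi.single i0 1 := by abel
      show ω (x - z + Pi.single i0 1 + Pi.single i0 1 + z) ≠ ω (x - z + z)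
      rw [e, sub_add_cancel]
      exact hx
  obtain ⟨a, b, ε0, hε0, hab, ha, hb⟩ := two_points hν
  -- a box of positive probability
  have hx2 : (0 : Sd d) + Pi.single i0 1 + Pi.single i0 1 ≠ 0 := by
    intro h
    have h1 := congrFun h i0
    rw [Pi.add_apply, Pi.add_apply, Pi.single_eq_same] at h1
    simp at h1
  set y : Sd d := (0 : Sd d) + Pi.single i0 1 + Pi.single i0 1 with hy
  have hpos : PP (Sd d) ν N ≠ 0 := by
    intro h0
    set t : Sd d → Set ℝ := fun x => if x = 0 then Metric.ball a ε0 else Metric.ball b ε0 with ht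
    have hsub : (((({0, y} : Finset (Sd d)) : Set (Sd d))).pi t) ⊆ N := by
      intro ω hω
      have h1 := hω 0 (by simp)
      have h2 := hω y (by simp)
      simp only [ht, if_true, Metric.mem_ball, Real.dist_eq] at h1
      simp only [ht, if_neg hx2, Metric.mem_ball, Real.dist_eq] at h2
      refine ⟨0, ?_⟩
      show ω y ≠ ω 0
      intro h3
      rw [h3] at h2
      have h4 : |a - b| ≤ |ω 0 - a| + |ω 0 - b| := by
        have e : a - b = (ω 0 - b) - (ω 0 - a) := by ring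
        rw [e]
        have := abs_sub (ω 0 - b) (ω 0 - a)
        linarith
      linarith
    have h1 : PP (Sd d) ν ((((({0, y} : Finset (Sd d)) : Set (Sd d))).pi t)) = 0 :=
      measure_mono_null hsub h0
    have hm : ∀ i ∈ ({0, y} : Finset (Sd d)), MeasurableSet (t i) := by
      intro i _
      simp only [ht]
      split_ifs <;> exact Metric.isOpen_ball.measurableSet
    unfold PP at h1
    rw [Measure.infinitePi_pi (fun _ => ν) hm, Finset.prod_pair (Ne.symm hx2)] at h1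
    rcases mul_eq_zero.1 h1 with h2 | h2
    · simp only [ht, if_true] at h2
      exact ha h2
    · simp only [ht, if_neg hx2] at h2
      exact hb h2
  rcases zero_one ν hNm hinv with h0 | h1
  · exfalso
    apply hpos
    rw [measureReal_def, ENNReal.toReal_eq_zero_iff] at h0
    rcases h0 with h0 | h0
    · exact h0
    · exact absurd h0 (measure_ne_top _ _)
  · have h2 : PP (Sd d) ν Nᶜ = 0 := by
      rw [prob_compl_eq_zero_iff hNm]
      rw [measureReal_def] at h1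
      rw [← ENNReal.ofReal_toReal (measure_ne_top (PP (Sd d) ν) N), h1, ENNReal.ofReal_one]
    have h3 : ∀ᵐ ω ∂(PP (Sd d) ν), ω ∉ Nᶜ := measure_eq_zero_iff_ae_notMem.1 h2
    filter_upwards [h3] with ω e2
    exact not_not.1 e2

variable {v : (NB.Site d → ℝ) → L2 d →L[ℂ] L2 d} {M : ℝ}
  {ev : (NB.Site d → ℝ) → NB.UG (L2 d)}

/-- along subsequences, the averages with a phase converge to an operator which vanishes on the
absolutely continuous subspace -/
theorem vanT (hd : 1 ≤ d) {K : ℝ} {ν : Measure ℝ} [IsProbabilityMeasure ν]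
    (hK : ∀ᵐ r ∂ν, |r| ≤ K) (hν : ∀ r : ℝ, ν {r} ≠ 1)
    (hev : ∀ ω : NB.Site d → ℝ, NB.IsGrp (-1) (fun x => 2 * d + ω x) (ev ω)) (hO : Obs d v M)
    {μ : ℝ} (hμ : μ ≠ 0) (Mk : ℕ → ℕ) (hMk : Tendsto Mk atTop atTop) :
    ∃ a : ℕ → ℕ, StrictMono a ∧ ∀ᵐ ω ∂(NB.PP d ν), ∃ B : L2 d →L[ℂ] L2 d,
      GoodT μ (ev ω) (v ω) (Mk ∘ a) B ∧ ∀ w, spm (HV_sa K ω) w ≪ volume → B w = 0 := by
  obtain ⟨a, ha, hG⟩ := lim_offT μ (2 * d) hev hO ν hν Mk hMk
  have hNk : Tendsto (Mk ∘ a) atTop atTop := hMk.comp ha.tendsto_atTop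
  obtain ⟨a', ha', hG'⟩ := lim_offT (-μ) (2 * d) hev hO ν hν (Mk ∘ a) hNk
  have hNk' : Tendsto ((Mk ∘ a) ∘ a') atTop atTop := hNk.comp ha'.tendsto_atTop
  obtain ⟨h, Sg, hSg, hm, hcore⟩ := all_core (d := d) hd hK hν
  refine ⟨a ∘ a', ha.comp ha', ?_⟩
  filter_upwards [hG, hG', hcore, bd_ae (d := d) hK, nonconst ⟨0, hd⟩ hν] with ω ⟨B, hB, _⟩
    ⟨B', hB', hF⟩ ⟨e5, e6, e7⟩ e4 e8
  refine ⟨B, goodT_sub hB ha'.tendsto_atTop, fun w hw => ?_⟩
  have h1 := good_adj (hO.symm ω) (goodT_sub hB ha'.tendsto_atTop) hB'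
  have h2 : ∀ u, acP (HV_sa K ω) (B' u) = 0 :=
    per_VT hd e4 (hev ω) (neg_ne_zero.2 hμ) (good_comm hNk' hB') hF e5 e7 e6 e8
  refine ext_inner_left ℂ fun u => ?_
  rw [inner_zero_right, ← h1, ← acP_of (HV_sa K ω) hw, ← acP_symm, h2, inner_zero_left]

/-- measurability of the averages -/
theorem av_aesm {c o : ℝ} {ν : Measure ℝ} [IsProbabilityMeasure ν]
    (hev : ∀ ω : NB.Site d → ℝ, NB.IsGrp c (fun x => o + ω x) (ev ω)) (hO : Obs d v M) (μ : ℝ)
    {ψ : (NB.Site d → ℝ) → L2 d} (hψ : AEStronglyMeasurable ψ (NB.PP d ν)) (N : ℕ) :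
    AEStronglyMeasurable (fun ω => av μ id (ev ω) (v ω) N (ψ ω)) (NB.PP d ν) := by
  have hev' : ∀ V, NB.IsGrp c V (ev (shf o V)) := by
    intro V
    have h := hev (shf o V)
    have e : (fun x => o + shf o V x) = V := by
      funext x
      unfold shf
      ring
    rwa [e] at h
  have h1 := cont_intT μ continuous_id hev' (hO.off o) (N : ℝ)
  have h2 : Continuous fun p : (NB.Site d → ℝ) × L2 d =>
      (((fun x => o + p.1 x) : NB.Site d → ℝ), p.2) := by fun_prop
  have h3 := h1.comp h2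
  have h4 : ∀ ω : NB.Site d → ℝ, shf o (fun x => o + ω x) = ω := by
    intro ω
    funext x
    unfold shf
    ring
  have h5 := h3.comp_aestronglyMeasurable
    ((aestronglyMeasurable_id (α := NB.Site d → ℝ) (μ := NB.PP d ν)).prodMk hψ)
  simp only [Function.comp_def, h4] at h5
  unfold av
  exact h5.const_smul ((N : ℂ)⁻¹)

/-- local observables: the averages with a phase tend to zero in mean square on the absolutely
continuous subspace -/
theorem van_int (hd : 1 ≤ d) {K : ℝ} {ν : Measure ℝ} [IsProbabilityMeasure ν]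
    (hK : ∀ᵐ r ∂ν, |r| ≤ K) (hν : ∀ r : ℝ, ν {r} ≠ 1)
    (hev : ∀ ω : NB.Site d → ℝ, NB.IsGrp (-1) (fun x => 2 * d + ω x) (ev ω)) (hO : Obs d v M)
    {μ : ℝ} (hμ : μ ≠ 0)
    (ψ : (NB.Site d → ℝ) → L2 d) (R : ℝ) (hψ : AEStronglyMeasurable ψ (NB.PP d ν))
    (hR : ∀ V, ‖ψ V‖ ≤ R) (hac : ∀ᵐ ω ∂(NB.PP d ν), spm (HV_sa K ω) (ψ ω) ≪ volume) :
    Tendsto (fun N : ℕ => ∫⁻ ω, ‖av μ id (ev ω) (v ω) N (ψ ω)‖ₑ ^ 2 ∂(NB.PP d ν))
      atTop (𝓝 0) := by
  have : IsProbabilityMeasure (NB.PP d ν) := by unfold NB.PP; infer_instance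
  have hR0 : 0 ≤ R := (norm_nonneg _).trans (hR 0)
  have hme := fun N : ℕ => av_aesm (ν := ν) hev hO μ hψ N
  refine tendsto_of_subseq_tendsto ?_
  intro Mk hMk
  obtain ⟨a, ha, hG⟩ := vanT hd hK hν hev hO hμ Mk hMk
  refine ⟨a, ?_⟩
  have hbd : ∀ N ω, ‖av μ id (ev ω) (v ω) N (ψ ω)‖ ≤ M * R := by
    intro N ω
    refine (av_norm μ id (ev ω) (v ω) N (ψ ω)).trans ?_
    exact mul_le_mul (hO.opn ω) (hR ω) (norm_nonneg _) hO.nn
  have key : Tendsto (fun k => ∫⁻ ω, ‖av μ id (ev ω) (v ω) (Mk (a k)) (ψ ω)‖ₑ ^ 2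
      ∂(NB.PP d ν)) atTop (𝓝 (∫⁻ _V, 0 ∂(NB.PP d ν))) := by
    refine tendsto_lintegral_of_dominated_convergence'
      (fun _ => ENNReal.ofReal ((M * R) ^ 2)) (fun k => ?_) (fun k => ?_) ?_ ?_
    · exact (hme _).enorm.pow_const 2
    · refine Eventually.of_forall fun ω => ?_
      show ‖av μ id (ev ω) (v ω) (Mk (a k)) (ψ ω)‖ₑ ^ 2 ≤ ENNReal.ofReal ((M * R) ^ 2)
      rw [← ofReal_norm, ← ENNReal.ofReal_pow (norm_nonneg _)]
      exact ENNReal.ofReal_le_ofReal (pow_le_pow_left₀ (norm_nonneg _) (hbd _ _) 2)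
    · rw [lintegral_const]
      simp
    · filter_upwards [hG, hac] with ω ⟨B, hB, hB0⟩ h1
      have h4 := (hB (ψ ω)).1
      rw [hB0 _ h1] at h4
      have h5 := h4.enorm
      rw [enorm_zero] at h5
      have h6 := (ENNReal.continuous_pow 2).tendsto 0 |>.comp h5
      simpa [Function.comp_def] using h6
  simpa using key

end van

end Pool.Agent.H988.WM
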